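import Pool.Agent.Lib.MP_bc213e_ag.Hyp.ADefs

/-! Definitions for the uniform Hilbert polynomial of a nef line bundle. -/

namespace Pool.Agent.Lib.MP_bc213e_ag.KBB

open Pool.Agent.Lib.MP_bc213e_ag.Hyp MvPolynomial

noncomputable section

section field

variable {K ι : Type} [Field K] [Algebra ℂ K]

/-- The local generator of `t L + a H` on the chart `i`. -/
def fr (x g : ι → Kˣ) (t : ℤ) (a : ℕ) (i : ι) : K := (g i : K) ^ t * (x i : K) ^ a

/-- The space of global sections of `t L + a H`. -/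
def SecS (x g : ι → Kˣ) (t : ℤ) (a : ℕ) : Submodule ℂ K where
  carrier := {s | Sec x g t a s}
  add_mem' := fun ha hb i => by
    rw [add_div]
    exact add_mem (ha i) (hb i)
  zero_mem' := fun i => by
    rw [zero_div]
    exact zero_mem _
  smul_mem' := fun c s hs i => by
    rw [smul_div_assoc]
    exact Subalgebra.smul_mem _ (hs i) c

/-- The `g i` form a cocycle. -/
def Cart (x g : ι → Kˣ) : Prop :=
  ∀ i j, ∃ e : ℕ, (g i : K) / g j * ((x i : K) / x j) ^ e ∈ chart x j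

/-- `t L + H` is semiample for all `t`. -/
def Nef (x g : ι → Kˣ) : Prop := ∀ t : ℕ, ∃ N : ℕ, 0 < N ∧ Free x g (N * t) N

/-- A quasi-coherent sheaf of ideals. -/
structure Idl (x : ι → Kˣ) where
  J : ι → Submodule ℂ K
  le : ∀ i, ∀ r ∈ J i, r ∈ chart x i
  mul : ∀ i, ∀ s ∈ chart x i, ∀ r ∈ J i, s * r ∈ J i
  glue : ∀ i l, ∀ r ∈ J i, ∃ e : ℕ, r * ((x i : K) / x l) ^ e ∈ J l

/-- Sections of `M` on the intersection of the charts `i`, `l`. -/
def L2 (x : ι → Kˣ) (M : ι → Submodule ℂ K) (i l : ι) (r : K) : Prop :=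
  ∃ e : ℕ, r * ((x l : K) / x i) ^ e ∈ M i

/-- Sections of `M` on the intersection of the charts `i`, `l`, `j`. -/
def L3 (x : ι → Kˣ) (M : ι → Submodule ℂ K) (i l j : ι) (r : K) : Prop :=
  ∃ e : ℕ, r * ((x l : K) / x i) ^ e * ((x j : K) / x i) ^ e ∈ M i

/-- The structure sheaf. -/
def OX (x : ι → Kˣ) (i : ι) : Submodule ℂ K := Subalgebra.toSubmodule (chart x i)

theorem mem_OX {x : ι → Kˣ} {i : ι} {r : K} : r ∈ OX x i ↔ r ∈ chart x i := Iff.rfl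

namespace Idl

variable {x : ι → Kˣ} (J : Idl x) (g : ι → Kˣ)

/-- The section `f` of `t L + a H` lies in `J`. -/
def Has (t : ℤ) (a : ℕ) (f : K) : Prop := ∀ i, f / fr x g t a i ∈ J.J i

/-- `J` is prime with respect to sections of multiples of `H`. -/
def Prime : Prop := ∀ (a b : ℕ) (f f' : K), Sec x g 0 a f → Sec x g 0 b f' →
  J.Has g 0 (a + b) (f * f') → J.Has g 0 a f ∨ J.Has g 0 b f'

/-- Cech 1-cocycles of `(O / J)(t L + a H)`. -/
def Coc (t : ℤ) (a : ℕ) (ξ : ι → ι → K) : Prop :=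
  (∀ i l, L2 x (OX x) i l (ξ i l / fr x g t a i)) ∧
    ∀ i l j, L3 x J.J i l j ((ξ i l + ξ l j - ξ i j) / fr x g t a i)

/-- Cech 1-coboundaries of `(O / J)(t L + a H)`. -/
def Cob (t : ℤ) (a : ℕ) (ξ : ι → ι → K) : Prop :=
  ∃ η : ι → K, (∀ i, η i / fr x g t a i ∈ chart x i) ∧
    ∀ i l, L2 x J.J i l ((ξ i l - (η l - η i)) / fr x g t a i)

/-- Vanishing of the first cohomology of `(O / J)(t L + a H)`. -/
def H1z (t : ℤ) (a : ℕ) : Prop := ∀ ξ, J.Coc g t a ξ → J.Cob g t a ξ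

theorem l2_add {i l : ι} {r s : K} (hr : L2 x J.J i l r) (hs : L2 x J.J i l s) :
    L2 x J.J i l (r + s) := by
  obtain ⟨e, he⟩ := hr
  obtain ⟨e', he'⟩ := hs
  have h : (x l : K) / x i ∈ chart x i := Algebra.subset_adjoin ⟨l, rfl⟩
  refine ⟨e + e', ?_⟩
  have e1 : (r + s) * ((x l : K) / x i) ^ (e + e') =
      ((x l : K) / x i) ^ e' * (r * ((x l : K) / x i) ^ e) +
        ((x l : K) / x i) ^ e * (s * ((x l : K) / x i) ^ e') := by ring
  rw [e1]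
  exact add_mem (J.mul i _ (pow_mem h _) _ he) (J.mul i _ (pow_mem h _) _ he')

/-- 0-cochains of `J (t L + a H)`. -/
def C0 (t : ℤ) (a : ℕ) : Submodule ℂ (ι → K) where
  carrier := {s | ∀ i, s i / fr x g t a i ∈ J.J i}
  add_mem' := fun ha hb i => by
    rw [Pi.add_apply, add_div]
    exact add_mem (ha i) (hb i)
  zero_mem' := fun i => by
    rw [Pi.zero_apply, zero_div]
    exact zero_mem _
  smul_mem' := fun c s hs i => by
    rw [Pi.smul_apply, smul_div_assoc]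
    exact Submodule.smul_mem _ c (hs i)

/-- Representatives of global sections of `(O / J)(t L + a H)`. -/
def Z0 (t : ℤ) (a : ℕ) : Submodule ℂ (ι → K) where
  carrier := {s | (∀ i, s i / fr x g t a i ∈ chart x i) ∧
    ∀ i l, L2 x J.J i l ((s l - s i) / fr x g t a i)}
  add_mem' := fun {s s'} ha hb => ⟨fun i => by
    rw [Pi.add_apply, add_div]
    exact add_mem (ha.1 i) (hb.1 i), fun i l => by
    have h := J.l2_add (ha.2 i l) (hb.2 i l)
    rwa [← add_div, ← add_sub_add_comm] at h⟩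
  zero_mem' := ⟨fun i => by
    rw [Pi.zero_apply, zero_div]
    exact zero_mem _, fun i l => ⟨0, by simp⟩⟩
  smul_mem' := fun c s hs => ⟨fun i => by
    rw [Pi.smul_apply, smul_div_assoc]
    exact Subalgebra.smul_mem _ (hs.1 i) c, fun i l => by
    obtain ⟨e, he⟩ := hs.2 i l
    refine ⟨e, ?_⟩
    rw [Pi.smul_apply, Pi.smul_apply, ← smul_sub, smul_div_assoc, smul_mul_assoc]
    exact Submodule.smul_mem _ c he⟩

/-- Global sections of `(O / J)(t L + a H)`. -/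
def H0 (t : ℤ) (a : ℕ) : Submodule ℂ ((ι → K) ⧸ J.C0 g t a) :=
  (J.Z0 g t a).map (J.C0 g t a).mkQ

end Idl

/-- Restriction to the integral subvariety defined by a prime ideal sheaf `J`: `F` is its function
field, `O` its local ring and `ρ` a linear extension of the residue map. -/
structure Rd (x g : ι → Kˣ) (J : Idl x) (F : Type) [Field F] [Algebra ℂ F] where
  i₀ : {i // (1 : K) ∉ J.J i}
  x' : {i // (1 : K) ∉ J.J i} → Fˣ
  g' : {i // (1 : K) ∉ J.J i} → Fˣ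
  O : Subalgebra ℂ K
  ρ : K →ₗ[ℂ] F
  one : x' i₀ = 1
  gen : IntermediateField.adjoin ℂ (Set.range fun i => (x' i : F)) = ⊤
  ρ_one : ρ 1 = 1
  ρ_mul : ∀ a ∈ O, ∀ b ∈ O, ρ (a * b) = ρ a * ρ b
  inv : ∀ r ∈ O, ρ r ≠ 0 → r⁻¹ ∈ O
  le : ∀ i : {i // (1 : K) ∉ J.J i}, ∀ r ∈ chart x i, r ∈ O
  ker : ∀ i : {i // (1 : K) ∉ J.J i}, ∀ r ∈ chart x i, ρ r = 0 ↔ r ∈ J.J i
  ρ_x : ∀ i : {i // (1 : K) ∉ J.J i}, ρ ((x i : K) / x i₀) = x' i
  ρ_x0 : ∀ i, (1 : K) ∈ J.J i → ρ ((x i : K) / x i₀) = 0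
  g_mem : ∀ i : {i // (1 : K) ∉ J.J i}, (g i : K) / g i₀ ∈ O
  ρ_g : ∀ i : {i // (1 : K) ∉ J.J i}, ρ ((g i : K) / g i₀) = g' i

end field

/-- `h t a` is a polynomial in `(t, a)` for all `t` and all large `a`. -/
def IsP (h : ℕ → ℕ → ℚ) : Prop :=
  ∃ (P : MvPolynomial (Fin 2) ℚ) (a₀ : ℕ), ∀ t a : ℕ, a₀ ≤ a → h t a = eval ![(t : ℚ), (a : ℚ)] P

section ring

variable (k : Type) {W ι : Type} [Field k] [CommRing W] [Algebra k W]

/-- The chart ring in an arbitrary algebra. -/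
def chartR (x : ι → Wˣ) (i : ι) : Subalgebra k W :=
  Algebra.adjoin k (Set.range fun j => ((x j * (x i)⁻¹ : Wˣ) : W))

/-- The span of the coordinates. -/
def Vs (x : ι → Wˣ) : Submodule k W := Submodule.span k (Set.range fun j => (x j : W))

end ring

/-- `W` is the localisation of `k[Y] / P` away from `D`. -/
structure Fib (k W : Type) [Field k] [CommRing W] [Algebra k W] (n : ℕ) where
  Y : Option (Fin n) → W
  P : MvPolynomial (Option (Fin n)) k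
  D : MvPolynomial (Option (Fin n)) k
  ker : ∀ q, aeval Y q = 0 ↔ P ∣ q
  unit : IsUnit (aeval Y D)
  den : ∀ w : W, ∃ (q : MvPolynomial (Option (Fin n)) k) (N : ℕ), w * aeval Y D ^ N = aeval Y q

/-- The data of one Cousin problem `cc` for `t L + a H`, in a form that can be reduced modulo a
prime. -/
structure Dat (k W ι κ : Type) [Field k] [CommRing W] [Algebra k W] [Fintype κ] (n : ℕ) where
  x : ι → Wˣ
  g : ι → Wˣ
  i₀ : ι
  Y : Option (Fin n) → W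
  P : MvPolynomial (Option (Fin n)) k
  E : MvPolynomial (Option (Fin n)) k
  β : κ → W
  cc : ι → W
  c₀ : ℕ
  N : ℕ
  t : ℕ
  a : ℕ
  c : ℕ
  e : ℕ
  one : x i₀ = 1
  hY : ∀ l, Y l ∈ Vs k x
  hE : E.totalDegree ≤ c₀
  rep : ∀ μ, ∀ r ∈ Vs k x ^ μ, ∃ q : MvPolynomial (Option (Fin n)) k,
    q.totalDegree ≤ μ + c₀ ∧ aeval Y q = aeval Y E * r
  cart : ∀ i j, ∃ e : ℕ, ((g i * (g j)⁻¹ * (x i * (x j)⁻¹) ^ e : Wˣ) : W) ∈ chartR k x j
  Npos : 0 < N
  hβ : ∀ l i, β l * (((g i ^ (N * t) * x i ^ N)⁻¹ : Wˣ) : W) ∈ chartR k x i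
  gen : ∀ i, ∃ r : κ → W, (∀ l, r l ∈ chartR k x i) ∧
    ∑ l, r l * β l = ((g i ^ (N * t) * x i ^ N : Wˣ) : W)
  hcc : ∀ i l, (cc l - cc i) * ((x l ^ c * (g i ^ t * x i ^ (a + c))⁻¹ : Wˣ) : W) ∈ chartR k x i
  hw : ∀ j l, (((g j ^ t)⁻¹ * x j ^ e * ((g l ^ t)⁻¹ * x l ^ e)⁻¹ : Wˣ) : W) ∈ chartR k x l

namespace Dat

variable {k W ι κ : Type} [Field k] [CommRing W] [Algebra k W] [Fintype κ] {n : ℕ}
  (d : Dat k W ι κ n)

/-- The sections `w j` generate `e H - t L`. -/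
def w (j : ι) : W := (((d.g j ^ d.t)⁻¹ * d.x j ^ d.e : Wˣ) : W)

/-- The Cousin problem multiplied by `E * ∂ P` is solvable, in bounded degree. -/
def Sol : Prop := ∃ σ : ι → ι → MvPolynomial (Option (Fin n)) k,
  (∀ i j, (σ i j).totalDegree ≤ d.a + d.c + d.e + (n + 2 * d.c₀ + 2 * d.P.totalDegree + 2)) ∧
  (∀ i j j', d.w j' * aeval d.Y (σ i j) = d.w j * aeval d.Y (σ i j')) ∧
  ∀ i l j, (d.x i : W) ^ d.c * aeval d.Y (σ l j) - (d.x l : W) ^ d.c * aeval d.Y (σ i j) =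
    aeval d.Y (d.E * pderiv none d.P) *
      (((d.x i : W) * d.x l) ^ d.c * (d.cc l - d.cc i) * d.w j)

end Dat

/-- Reduction of a part `W` of `K` modulo a maximal ideal of `Λ`. -/
structure Red {K : Type} [Field K] [Algebra ℂ K] {n : ℕ} (Y : Option (Fin n) → K)
    (P : MvPolynomial (Option (Fin n)) ℂ) (Λ : Subring ℂ) (k W' : Type) [Field k] [CommRing W']
    [Algebra k W'] where
  f : Λ →+* k
  W : Subring K
  π : K → W'
  Φ : Fib k W' n
  P₀ : MvPolynomial (Option (Fin n)) Λ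
  π_one : π 1 = 1
  π_add : ∀ a ∈ W, ∀ b ∈ W, π (a + b) = π a + π b
  π_mul : ∀ a ∈ W, ∀ b ∈ W, π (a * b) = π a * π b
  c_mem : ∀ a : Λ, algebraMap ℂ K a ∈ W
  π_c : ∀ a : Λ, π (algebraMap ℂ K a) = algebraMap k W' (f a)
  Y_mem : ∀ l, Y l ∈ W
  π_Y : ∀ l, π (Y l) = Φ.Y l
  map_P : map Λ.subtype P₀ = P
  Φ_P : Φ.P = map f P₀
  P_ne : Φ.P ≠ 0
  int : ∀ q : MvPolynomial (Option (Fin n)) ℂ, q.degreeOf none < P.degreeOf none →
    aeval Y q ∈ W → ∃ q₀ : MvPolynomial (Option (Fin n)) Λ, map Λ.subtype q₀ = q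

end

end Pool.Agent.Lib.MP_bc213e_ag.KBB
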