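import Pool.Agent.Lib.MP_bc213e_ag.KBB.Sheaf

/-! Global sections in the sequence `0 → O/(J:f) → O/J → O/(J,f) → 0`. -/

namespace Pool.Agent.Lib.MP_bc213e_ag.KBB

open Pool.Agent.Lib.MP_bc213e_ag.Hyp MvPolynomial

noncomputable section

variable {K ι : Type} [Field K] [Algebra ℂ K] {x g : ι → Kˣ}

/-- The linear algebra behind the sequence of global sections. -/
theorem add_abs {V : Type} [AddCommGroup V] [Module ℂ V] (φ : V →ₗ[ℂ] V)
    (C₁ Z₁ C₂ Z₂ C₃ Z₃ : Submodule ℂ V)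
    (h1 : ∀ s ∈ C₁, φ s ∈ C₂) (h2 : ∀ s ∈ Z₁, φ s ∈ Z₂) (h3 : ∀ s ∈ Z₁, φ s ∈ C₂ → s ∈ C₁)
    (h4 : ∀ s ∈ C₂, s ∈ C₃) (h5 : ∀ s ∈ Z₂, s ∈ Z₃)
    (h6 : ∀ s ∈ Z₂, s ∈ C₃ → ∃ u ∈ Z₁, s - φ u ∈ C₂) (h7 : ∀ u ∈ Z₁, φ u ∈ C₃) :
    ∃ (μ : Z₁.map C₁.mkQ →ₗ[ℂ] Z₂.map C₂.mkQ) (ν : Z₂.map C₂.mkQ →ₗ[ℂ] Z₃.map C₃.mkQ),
      Function.Injective μ ∧ LinearMap.ker ν = LinearMap.range μ ∧
      ((∀ s ∈ Z₃, ∃ s' ∈ Z₂, s' - s ∈ C₃) → Function.Surjective ν) := by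
  have hμ : ∀ y ∈ Z₁.map C₁.mkQ, C₁.mapQ C₂ φ h1 y ∈ Z₂.map C₂.mkQ := by
    rintro _ ⟨s, hs, rfl⟩
    exact ⟨φ s, h2 s hs, rfl⟩
  have hν : ∀ y ∈ Z₂.map C₂.mkQ, C₂.mapQ C₃ LinearMap.id h4 y ∈ Z₃.map C₃.mkQ := by
    rintro _ ⟨s, hs, rfl⟩
    exact ⟨s, h5 s hs, rfl⟩
  refine ⟨(C₁.mapQ C₂ φ h1).restrict hμ, (C₂.mapQ C₃ LinearMap.id h4).restrict hν, ?_, ?_, ?_⟩
  · rw [injective_iff_map_eq_zero]
    rintro ⟨_, s, hs, rfl⟩ h
    have h' : C₂.mkQ (φ s) = 0 := congrArg Subtype.val h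
    rw [Submodule.mkQ_apply, Submodule.Quotient.mk_eq_zero] at h'
    exact Subtype.ext ((Submodule.Quotient.mk_eq_zero C₁).2 (h3 s hs h'))
  · ext ⟨_, s, hs, rfl⟩
    rw [LinearMap.mem_ker, LinearMap.mem_range]
    constructor
    · intro h
      have h' : C₃.mkQ s = 0 := congrArg Subtype.val h
      rw [Submodule.mkQ_apply, Submodule.Quotient.mk_eq_zero] at h'
      obtain ⟨u, hu, hsu⟩ := h6 s hs h'
      refine ⟨⟨C₁.mkQ u, u, hu, rfl⟩, Subtype.ext ?_⟩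
      exact ((Submodule.Quotient.eq C₂).2 hsu).symm
    · rintro ⟨⟨_, u, hu, rfl⟩, h⟩
      have h' : C₂.mkQ (φ u) = C₂.mkQ s := congrArg Subtype.val h
      have h8 : φ u - s ∈ C₃ := h4 _ ((Submodule.Quotient.eq C₂).1 h')
      have h9 : s ∈ C₃ := by
        have := sub_mem (h7 u hu) h8
        rwa [sub_sub_cancel] at this
      exact Subtype.ext ((Submodule.Quotient.mk_eq_zero C₃).2 h9)
  · rintro h ⟨_, s, hs, rfl⟩
    obtain ⟨s', hs', hd⟩ := h s hs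
    exact ⟨⟨C₂.mkQ s', s', hs', rfl⟩, Subtype.ext ((Submodule.Quotient.eq C₃).2 hd)⟩

theorem add_div_fr (t t₀ : ℤ) (a a₀ : ℕ) (f s : K) (i : ι) :
    f * s / fr x g (t + t₀) (a + a₀) i = s / fr x g t a i * (f / fr x g t₀ a₀ i) := by
  rw [fr_add, div_mul_div_comm, mul_comm f s]

theorem add_x_mem (x : ι → Kˣ) (i l : ι) : (x l : K) / x i ∈ chart x i :=
  Algebra.subset_adjoin ⟨l, rfl⟩

namespace Idl

variable (J : Idl x)

theorem add_l2_colon (hc : Cart x g) {t₀ : ℤ} {a₀ : ℕ} {f : K} (hf : Sec x g t₀ a₀ f) {i l : ι}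
    {r : K} (h1 : L2 x (OX x) i l r) (h2 : L2 x J.J i l (r * (f / fr x g t₀ a₀ i))) :
    L2 x (J.colon hc hf).J i l r := by
  obtain ⟨e, he⟩ := h1
  obtain ⟨e', he'⟩ := h2
  have hx := add_x_mem x i l
  refine ⟨e + e', (J.mem_colon hc hf).2 ⟨?_, ?_⟩⟩
  · rw [pow_add, ← mul_assoc]
    exact mul_mem (mem_OX.1 he) (pow_mem hx _)
  · have h := J.mul i _ (pow_mem hx e) _ he'
    convert h using 1
    ring

theorem add_l2_of_colon (hc : Cart x g) {t₀ : ℤ} {a₀ : ℕ} {f : K} (hf : Sec x g t₀ a₀ f) {i l : ι}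
    {r : K} (h : L2 x (J.colon hc hf).J i l r) : L2 x J.J i l (r * (f / fr x g t₀ a₀ i)) := by
  obtain ⟨e, he⟩ := h
  refine ⟨e, ?_⟩
  have h := ((J.mem_colon hc hf).1 he).2
  convert h using 1
  ring

theorem add_l3_colon (hc : Cart x g) {t₀ : ℤ} {a₀ : ℕ} {f : K} (hf : Sec x g t₀ a₀ f) {i l j : ι}
    {r : K} (h1 : L3 x (OX x) i l j r) (h2 : L3 x J.J i l j (r * (f / fr x g t₀ a₀ i))) :
    L3 x (J.colon hc hf).J i l j r := by
  obtain ⟨e, he⟩ := h1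
  obtain ⟨e', he'⟩ := h2
  have hx := add_x_mem x i l
  have hy := add_x_mem x i j
  refine ⟨e + e', (J.mem_colon hc hf).2 ⟨?_, ?_⟩⟩
  · have h := mul_mem (mem_OX.1 he) (mul_mem (pow_mem hx e') (pow_mem hy e'))
    convert h using 1
    ring
  · have h := J.mul i _ (mul_mem (pow_mem hx e) (pow_mem hy e)) _ he'
    convert h using 1
    ring

theorem add_mul_mem_adj (hc : Cart x g) {t₀ : ℤ} {a₀ : ℕ} {f : K} (hf : Sec x g t₀ a₀ f) {t : ℤ}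
    {a : ℕ} {i : ι} {s : K} (hs : s / fr x g t a i ∈ chart x i) :
    f * s / fr x g (t + t₀) (a + a₀) i ∈ (J.adj hc hf).J i := by
  refine (J.mem_adj hc hf).2 ⟨_, hs, ?_⟩
  rw [add_div_fr, sub_self]
  exact zero_mem _

/-- A global section modulo `J` that lies in `J + (f)` is a multiple of `f`. -/
theorem add_ker (hc : Cart x g) {t₀ : ℤ} {a₀ : ℕ} {f : K} (hf : Sec x g t₀ a₀ f) {t : ℤ} {a : ℕ}
    {s : ι → K} (hs : s ∈ J.Z0 g (t + t₀) (a + a₀))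
    (h : s ∈ (J.adj hc hf).C0 g (t + t₀) (a + a₀)) :
    ∃ u ∈ (J.colon hc hf).Z0 g t a, (fun i => s i - f * u i) ∈ J.C0 g (t + t₀) (a + a₀) := by
  choose r hr hr' using fun i => (J.mem_adj hc hf).1 (h i)
  obtain ⟨u, hu⟩ : ∃ u : ι → K, ∀ i, u i / fr x g t a i = r i :=
    ⟨fun i => r i * fr x g t a i, fun i => mul_div_cancel_right₀ _ (fr_ne x g t a i)⟩
  have hu1 : ∀ i, u i / fr x g t a i ∈ chart x i := fun i => hu i ▸ hr i
  have hu2 : ∀ i, (s i - f * u i) / fr x g (t + t₀) (a + a₀) i ∈ J.J i := fun i => by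
    rw [sub_div, add_div_fr, hu i]
    exact hr' i
  refine ⟨u, ⟨hu1, fun i l => J.add_l2_colon hc hf ?_ ?_⟩, hu2⟩
  · have h1 := (top x).l2_fr hc ((top x).l2_of_mem i (hu1 l))
    have h2 := (top x).l2_neg ((top x).l2_of_mem l (hu1 i))
    have h3 := (top x).l2_add h1 h2
    rwa [← sub_eq_add_neg, ← sub_div] at h3
  · have h1 := J.l2_neg (J.l2_fr hc (J.l2_of_mem i (hu2 l)))
    have h3 := J.l2_add (J.l2_add (hs.2 i l) h1) (J.l2_of_mem l (hu2 i))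
    rw [← add_div_fr]
    convert h3 using 1
    ring

/-- Lifting of global sections modulo `J + (f)`. -/
theorem add_lift (hc : Cart x g) {t₀ : ℤ} {a₀ : ℕ} {f : K} (hf : Sec x g t₀ a₀ f) {t : ℤ} {a : ℕ}
    (h0 : (J.colon hc hf).H1z g t a) {s : ι → K}
    (hs : s ∈ (J.adj hc hf).Z0 g (t + t₀) (a + a₀)) :
    ∃ s' ∈ J.Z0 g (t + t₀) (a + a₀), s' - s ∈ (J.adj hc hf).C0 g (t + t₀) (a + a₀) := by
  have key : ∀ i l, ∃ θ : K, L2 x (OX x) i l (θ / fr x g t a i) ∧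
      L2 x J.J i l ((s l - s i - f * θ) / fr x g (t + t₀) (a + a₀) i) := by
    intro i l
    obtain ⟨e, he⟩ := hs.2 i l
    obtain ⟨r, hr, hr'⟩ := (J.mem_adj hc hf).1 he
    have hp : ((x l : K) / x i) ^ e ≠ 0 :=
      pow_ne_zero _ (div_ne_zero (x l).ne_zero (x i).ne_zero)
    have h1 : r / ((x l : K) / x i) ^ e * fr x g t a i / fr x g t a i *
        ((x l : K) / x i) ^ e = r := by
      rw [mul_div_cancel_right₀ _ (fr_ne x g t a i), div_mul_cancel₀ _ hp]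
    refine ⟨r / ((x l : K) / x i) ^ e * fr x g t a i, ⟨e, ?_⟩, ⟨e, ?_⟩⟩
    · rw [h1]
      exact hr
    · rw [sub_div, add_div_fr, sub_mul, mul_right_comm, h1]
      exact hr'
  choose θ hθ hθ' using key
  obtain ⟨η, hη, hη'⟩ := h0 θ ⟨hθ, fun i l j => J.add_l3_colon hc hf (by
      have h1 := (top x).l3_add ((top x).l3_add ((top x).l3_of_12 j (hθ i l))
        ((top x).l3_of_23 hc i (hθ l j))) ((top x).l3_neg ((top x).l3_of_13 l (hθ i j)))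
      rwa [← sub_eq_add_neg, ← add_div, ← sub_div] at h1) (by
      have h1 := J.l3_add (J.l3_neg (J.l3_add (J.l3_of_12 j (hθ' i l))
        (J.l3_of_23 hc i (hθ' l j)))) (J.l3_of_13 l (hθ' i j))
      rw [← add_div_fr]
      convert h1 using 1
      ring)⟩
  refine ⟨fun i => s i - f * η i, ⟨fun i => ?_, fun i l => ?_⟩, fun i => ?_⟩
  · rw [sub_div, add_div_fr]
    exact sub_mem (hs.1 i) (mul_mem (hη i) (hf i))
  · have h1 := J.add_l2_of_colon hc hf (hη' i l)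
    rw [← add_div_fr] at h1
    convert J.l2_add (hθ' i l) h1 using 1
    ring
  · have h1 := neg_mem (J.add_mul_mem_adj hc hf (hη i))
    convert h1 using 1
    rw [Pi.sub_apply]
    ring

/-- Sketch: multiplication by `f` induces an injective linear map `μ : H0 (J : f) → H0 J`
(`Submodule.mapQ`, restricted), the identity induces `ν : H0 J → H0 (J, f)`, and
`ker ν = range μ`: if `s i = f r i` modulo `J i` then `f (r l - r i) ∈ L2 J`. -/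
theorem exists_seq (hc : Cart x g) {t₀ : ℤ} {a₀ : ℕ} {f : K} (hf : Sec x g t₀ a₀ f) (t : ℤ)
    (a : ℕ) : ∃ (μ : (J.colon hc hf).H0 g t a →ₗ[ℂ] J.H0 g (t + t₀) (a + a₀))
      (ν : J.H0 g (t + t₀) (a + a₀) →ₗ[ℂ] (J.adj hc hf).H0 g (t + t₀) (a + a₀)),
      Function.Injective μ ∧ LinearMap.ker ν = LinearMap.range μ ∧
      ((J.colon hc hf).H1z g t a → Function.Surjective ν) := by
  obtain ⟨φ, hφ⟩ : ∃ φ : (ι → K) →ₗ[ℂ] (ι → K), ∀ s i, φ s i = f * s i :=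
    ⟨f • LinearMap.id, fun _ _ => rfl⟩
  obtain ⟨μ, ν, h1, h2, h3⟩ := add_abs φ ((J.colon hc hf).C0 g t a) ((J.colon hc hf).Z0 g t a)
    (J.C0 g (t + t₀) (a + a₀)) (J.Z0 g (t + t₀) (a + a₀))
    ((J.adj hc hf).C0 g (t + t₀) (a + a₀)) ((J.adj hc hf).Z0 g (t + t₀) (a + a₀))
    (fun s hs i => by
      rw [hφ, add_div_fr]
      exact ((J.mem_colon hc hf).1 (hs i)).2)
    (fun s hs => ⟨fun i => by
      rw [hφ, add_div_fr]
      exact mul_mem (hs.1 i) (hf i), fun i l => by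
      rw [hφ, hφ, ← mul_sub, add_div_fr]
      exact J.add_l2_of_colon hc hf (hs.2 i l)⟩)
    (fun s hs h i => (J.mem_colon hc hf).2 ⟨hs.1 i, by
      have h' := h i
      rwa [hφ, add_div_fr] at h'⟩)
    (fun s hs i => J.le_adj hc hf i (hs i))
    (fun s hs => ⟨hs.1, fun i l => (hs.2 i l).imp fun _ he => J.le_adj hc hf i he⟩)
    (fun s hs h => by
      obtain ⟨u, hu, hu'⟩ := J.add_ker hc hf hs h
      refine ⟨u, hu, fun i => ?_⟩
      rw [Pi.sub_apply, hφ]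
      exact hu' i)
    (fun u hu i => by
      rw [hφ]
      exact J.add_mul_mem_adj hc hf (hu.1 i))
  exact ⟨μ, ν, h1, h2, fun h0 => h3 fun s hs => J.add_lift hc hf h0 hs⟩

theorem fd_ext (hc : Cart x g) {t₀ : ℤ} {a₀ : ℕ} {f : K} (hf : Sec x g t₀ a₀ f) (t : ℤ) (a : ℕ)
    (h1 : FiniteDimensional ℂ ((J.colon hc hf).H0 g t a))
    (h2 : FiniteDimensional ℂ ((J.adj hc hf).H0 g (t + t₀) (a + a₀))) :
    FiniteDimensional ℂ (J.H0 g (t + t₀) (a + a₀)) := by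
  obtain ⟨μ, ν, -, h3, -⟩ := J.exists_seq hc hf t a
  refine ⟨Submodule.fg_of_fg_map_of_fg_inf_ker ν (IsNoetherian.noetherian _) ?_⟩
  rw [top_inf_eq, h3, LinearMap.range_eq_map]
  exact Module.Finite.fg_top.map μ

theorem add_rank (hc : Cart x g) {t₀ : ℤ} {a₀ : ℕ} {f : K} (hf : Sec x g t₀ a₀ f) (t : ℤ) (a : ℕ)
    (h0 : (J.colon hc hf).H1z g t a) (h : FiniteDimensional ℂ (J.H0 g (t + t₀) (a + a₀))) :
    Module.finrank ℂ (J.H0 g (t + t₀) (a + a₀)) =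
      Module.finrank ℂ ((J.colon hc hf).H0 g t a) +
        Module.finrank ℂ ((J.adj hc hf).H0 g (t + t₀) (a + a₀)) := by
  obtain ⟨μ, ν, h1, h2, h3⟩ := J.exists_seq hc hf t a
  have h4 := LinearMap.finrank_range_add_finrank_ker ν
  rw [h2, LinearMap.finrank_range_of_inj h1, LinearMap.range_eq_top.2 (h3 h0), finrank_top] at h4
  omega

end Idl

end

end Pool.Agent.Lib.MP_bc213e_ag.KBB
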