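import Pool.Agent.Lib.MP_bc213e_ag.KBB.Defs
import Pool.Agent.Lib.MP_bc213e_ag.Hyp.FT1

/-! The Cartier operator on polynomials. -/

namespace Pool.Agent.Lib.MP_bc213e_ag.KBB

open Pool.Agent.Lib.MP_bc213e_ag.Hyp MvPolynomial

noncomputable section

theorem car_chain {R A : Type} [CommRing R] [CommRing A] [Algebra R A] (D : Derivation R A A)
    (u : Fin 2 → A) (H : MvPolynomial (Fin 2) ℤ) :
    D (aeval u H) = aeval u (pderiv 0 H) * D (u 0) + aeval u (pderiv 1 H) * D (u 1) := by
  induction H using MvPolynomial.induction_on with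
  | C a => simp
  | add f g hf hg => simp only [map_add, hf, hg]; ring
  | mul_X f i hf =>
    rw [map_mul, aeval_X, Derivation.leibniz, hf]
    fin_cases i <;> simp [Derivation.leibniz] <;> ring

theorem car_defect {R A : Type} [CommRing R] [CommRing A] [Algebra R A] (D : Derivation R A A)
    {p : ℕ} (hp : p.Prime) (f g : A) : ∃ h, (f + g) ^ (p - 1) * D (f + g) =
      f ^ (p - 1) * D f + g ^ (p - 1) * D g + D h := by
  obtain ⟨r, hr⟩ := exists_add_pow_prime_eq hp (X 0 : MvPolynomial (Fin 2) ℤ) (X 1)
  have hp0 : (p : MvPolynomial (Fin 2) ℤ) ≠ 0 := Nat.cast_ne_zero.2 hp.ne_zero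
  have key : ∀ i : Fin 2, pderiv i (X 0 * X 1 * r) = (X 0 + X 1) ^ (p - 1) - X i ^ (p - 1) := by
    intro i
    have h1 := congrArg (pderiv i) hr
    rw [mul_assoc, mul_assoc, ← mul_assoc (X 0), map_add, map_add, ← nsmul_eq_mul, map_nsmul,
      nsmul_eq_mul, pderiv_pow, pderiv_pow, pderiv_pow] at h1
    apply mul_left_cancel₀ hp0
    fin_cases i
    · simp only [Fin.zero_eta, map_add, pderiv_X_self, ne_eq, one_ne_zero, not_false_eq_true,
        pderiv_X_of_ne] at h1 ⊢
      linear_combination -h1
    · simp only [Fin.mk_one, map_add, pderiv_X_self, ne_eq, zero_ne_one, not_false_eq_true,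
        pderiv_X_of_ne] at h1 ⊢
      linear_combination -h1
  refine ⟨aeval ![f, g] (X 0 * X 1 * r), ?_⟩
  rw [car_chain, key, key, map_add]
  simp only [map_sub, map_pow, map_add, aeval_X, Matrix.cons_val_zero, Matrix.cons_val_one]
  ring

section aux

variable {k σ : Type} [Field k] [Fintype σ] (p : ℕ) [Fact p.Prime] [CharP k p] [PerfectRing k p]

open Classical in
/-- One step of the Cartier operator in the direction `v`. -/
def car_1 (v : σ) : MvPolynomial σ k →+ MvPolynomial σ k :=
  FT1comp p 1 fun s => if s = v then p - 1 else 0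

theorem car_1_pderiv (v : σ) (h : MvPolynomial σ k) : car_1 p v (pderiv v h) = 0 := by
  classical
  have hp : p.Prime := Fact.out
  induction h using MvPolynomial.induction_on' with
  | add f g hf hg => rw [map_add, map_add, hf, hg, add_zero]
  | monomial m c =>
    rw [pderiv_monomial]
    by_cases h0 : (m v : k) = 0
    · rw [h0, mul_zero, map_zero, map_zero]
    refine FT1comp_neg p 1 _ _ _ fun h => h0 ?_
    have h1 := h v
    have h2 : m v ≠ 0 := fun e => h0 (by rw [e, Nat.cast_zero])
    rw [if_pos rfl, pow_one, Finsupp.tsub_apply, Finsupp.single_eq_same] at h1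
    rw [CharP.cast_eq_zero_iff k p]
    have h3 := Nat.div_add_mod (m v - 1) p
    have h4 := hp.pos
    exact ⟨(m v - 1) / p + 1, by rw [mul_add, mul_one]; omega⟩

theorem car_1_X (v : σ) : car_1 p v (X v ^ (p - 1) : MvPolynomial σ k) = 1 := by
  classical
  have hp : p.Prime := Fact.out
  have h4 := hp.pos
  rw [X_pow_eq_monomial, car_1, FT1comp_pos, map_one]
  · have : FT1quo (p ^ 1) (Finsupp.single v (p - 1)) = 0 := by
      ext s
      rw [FT1quo_apply, pow_one, Finsupp.zero_apply, Finsupp.single_apply]
      split_ifs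
      · exact Nat.div_eq_of_lt (by omega)
      · exact Nat.zero_div _
    rw [this]
    rfl
  · intro s
    rw [pow_one, Finsupp.single_apply]
    by_cases h : s = v
    · rw [if_pos h.symm, if_pos h]
      exact Nat.mod_eq_of_lt (by omega)
    · rw [if_neg (Ne.symm h), if_neg h, Nat.zero_mod]

theorem car_1_mul (v : σ) (f g : MvPolynomial σ k) : car_1 p v (f ^ p * g) = f * car_1 p v g := by
  have := FT1comp_mul p 1 (fun s => open Classical in if s = v then p - 1 else 0) f g
  rwa [pow_one] at this

theorem car_1_log (v : σ) (f : MvPolynomial σ k) :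
    car_1 p v (f ^ (p - 1) * pderiv v f) = pderiv v f := by
  classical
  have hp : p.Prime := Fact.out
  have h4 := hp.pos
  induction f using MvPolynomial.induction_on' with
  | add f g hf hg =>
    obtain ⟨h, hh⟩ := car_defect (pderiv v) hp f g
    rw [hh, map_add, map_add, hf, hg, car_1_pderiv, add_zero, map_add]
  | monomial m c =>
    have key : (monomial m c : MvPolynomial σ k) ^ (p - 1) * pderiv v (monomial m c) =
        pderiv v (monomial m c) ^ p * X v ^ (p - 1) := by
      rw [pderiv_monomial]
      by_cases h0 : m v = 0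
      · rw [h0, Nat.cast_zero, mul_zero, map_zero, mul_zero, zero_pow hp.ne_zero, zero_mul]
      obtain ⟨q, rfl⟩ : ∃ q, p = q + 1 := ⟨p - 1, by omega⟩
      have h5 : ((m v : k)) ^ (q + 1) = m v := map_natCast (frobenius k (q + 1)) (m v)
      rw [monomial_pow, monomial_pow, X_pow_eq_monomial, monomial_mul, monomial_mul, mul_pow, h5,
        mul_one, Nat.add_sub_cancel, ← mul_assoc, ← pow_succ]
      congr 2
      ext s
      simp only [Finsupp.add_apply, Finsupp.smul_apply, smul_eq_mul, Finsupp.tsub_apply,
        Finsupp.single_apply]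
      split_ifs with h
      · subst h
        obtain ⟨t, ht⟩ : ∃ t, m v = t + 1 := ⟨m v - 1, by omega⟩
        rw [ht, Nat.add_sub_cancel]
        ring
      · rw [Nat.sub_zero]
        ring
    rw [key, car_1_mul, car_1_X, mul_one]

end aux

variable {k : Type} [Field k] (p : ℕ) [Fact p.Prime] [CharP k p] [PerfectRing k p] {n : ℕ}

theorem car_mod {q : ℕ} (hq : 0 < q) (m : ℕ) : (m + (q - 1)) % q = q - 1 ↔ m % q = 0 := by
  have h1 := Nat.mod_lt m hq
  have h2 : (m + (q - 1)) % q = (m % q + (q - 1)) % q := (Nat.mod_add_mod _ _ _).symm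
  rw [h2]
  constructor
  · intro h
    by_contra h0
    rw [show m % q + (q - 1) = (m % q - 1) + q by omega, Nat.add_mod_right,
      Nat.mod_eq_of_lt (by omega)] at h
    omega
  · intro h
    rw [h, zero_add, Nat.mod_eq_of_lt (by omega)]

theorem car_top (h : MvPolynomial (Option (Fin n)) k) :
    FT1comp p 1 (fun _ => p - 1) (h * ∏ l : Fin n, X (some l) ^ (p - 1)) = car_1 p none h := by
  classical
  have hp : 0 < p := (Fact.out : p.Prime).pos
  let γ : Option (Fin n) →₀ ℕ := Finsupp.equivFunOnFinite.symm fun s => s.elim 0 fun _ => p - 1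
  have hγ : (∏ l : Fin n, X (some l) ^ (p - 1) : MvPolynomial (Option (Fin n)) k) =
      monomial γ 1 := by
    rw [monomial_eq, C_1, one_mul, Finsupp.prod_fintype _ _ (by simp), Fintype.prod_option]
    simp [γ]
  rw [hγ]
  induction h using MvPolynomial.induction_on' with
  | add f g hf hg => rw [add_mul, map_add, map_add, hf, hg]
  | monomial m c =>
    rw [monomial_mul, mul_one, car_1]
    have key : (∀ s, (m + γ) s % p ^ 1 = p - 1) ↔
        ∀ s, m s % p ^ 1 = if s = none then p - 1 else 0 := forall_congr' fun s => by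
      cases s with
      | none => simp [γ]
      | some l => simpa [γ] using car_mod hp (m (some l))
    by_cases h : ∀ s, (m + γ) s % p ^ 1 = p - 1
    · rw [FT1comp_pos p 1 _ _ _ h, FT1comp_pos p 1 _ _ _ (fun s => (key.1 h s).trans (by congr))]
      congr 2
      ext s
      have h1 := key.1 h s
      rw [FT1quo_apply, FT1quo_apply, pow_one] at *
      cases s with
      | none => simp [γ]
      | some l =>
        have h2 : (m + γ) (some l) = m (some l) + (p - 1) := by simp [γ]
        obtain ⟨t, ht⟩ := Nat.dvd_of_mod_eq_zero (by simpa using h1 : m (some l) % p = 0)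
        rw [h2, ht, Nat.mul_add_div hp, Nat.mul_div_cancel_left _ hp,
          Nat.div_eq_of_lt (by omega), add_zero]
    · rw [FT1comp_neg p 1 _ _ _ h, FT1comp_neg p 1 _ _ _ (fun h' => h (key.2 fun s => (h' s).trans (by congr)))]

/-- The top component kills exact forms. Sketch: additive in `h`; for a monomial the exponent of
`X none` in `pderiv none h` is `m - 1` with coefficient `m`, which vanishes if `p ∣ m`. -/
theorem car_exact (h : MvPolynomial (Option (Fin n)) k) :
    FT1comp p 1 (fun _ => p - 1) (pderiv none h * ∏ l : Fin n, X (some l) ^ (p - 1)) = 0 := by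
  rw [car_top, car_1_pderiv]

/-- `C (f ^ (p - 1) df) = df`. Sketch: induction on `f` (`induction_on'`). Monomials: direct
(`FT1comp_pos`; `(m : k) ^ p = m`). Sums: in `ℤ[U, V]` write `(U + V) ^ p = U ^ p + V ^ p + p * G`
(`exists_add_pow_prime_eq` or `add_pow_prime_eq`), differentiate and cancel `p`:
`(U + V) ^ (p - 1) = U ^ (p - 1) + ∂G/∂U`, same for `V`; so
`(f + g) ^ (p - 1) d(f + g) = f ^ (p - 1) df + g ^ (p - 1) dg + d (G (f, g))` (chain rule: both sides
are derivations, or `Derivation.apply_aeval_eq`-type lemma); use `car_exact`. -/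
theorem car_one (f : MvPolynomial (Option (Fin n)) k) :
    FT1comp p 1 (fun _ => p - 1)
      (f ^ (p - 1) * (pderiv none f * ∏ l : Fin n, X (some l) ^ (p - 1))) = pderiv none f := by
  rw [← mul_assoc, car_top, car_1_log]

/-- Sketch: on monomials; `m % p ^ (e + 1) = p ^ (e + 1) - 1` iff `m % p ^ e = p ^ e - 1` and
`m / p ^ e % p = p - 1`. -/
theorem car_comp (e : ℕ) (h : MvPolynomial (Option (Fin n)) k) :
    FT1comp p (e + 1) (fun _ => p ^ (e + 1) - 1) h =
      FT1comp p 1 (fun _ => p - 1) (FT1comp p e (fun _ => p ^ e - 1) h) := by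
  have hp : 0 < p := (Fact.out : p.Prime).pos
  have hq : 0 < p ^ e := pow_pos hp e
  induction h using MvPolynomial.induction_on' with
  | add f g hf hg => simp only [map_add, hf, hg]
  | monomial m c =>
    have key : ∀ a : ℕ, a % p ^ (e + 1) = p ^ (e + 1) - 1 ↔
        a % p ^ e = p ^ e - 1 ∧ a / p ^ e % p ^ 1 = p - 1 := fun a => by
      rw [pow_one, Nat.mod_pow_succ, pow_succ]
      have h1 := Nat.mod_lt a hq
      have h2 := Nat.mod_lt (a / p ^ e) hp
      generalize a % p ^ e = u at *
      generalize a / p ^ e % p = w at *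
      generalize p ^ e = q at *
      obtain ⟨r, rfl⟩ : ∃ r, p = r + 1 := ⟨p - 1, by omega⟩
      constructor
      · intro h
        have h3 : w = r := by
          by_contra h4
          have h5 : q * (w + 1) ≤ q * r := Nat.mul_le_mul_left _ (by omega)
          rw [mul_add] at h h5
          omega
        subst h3
        rw [mul_add] at h
        omega
      · rintro ⟨h3, h4⟩
        rw [h3, h4, mul_add, Nat.add_sub_cancel]
        omega
    by_cases h : ∀ s, m s % p ^ e = p ^ e - 1
    · rw [FT1comp_pos p e _ _ _ h]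
      by_cases h' : ∀ s, FT1quo (p ^ e) m s % p ^ 1 = p - 1
      · rw [FT1comp_pos p 1 _ _ _ h', FT1comp_pos p (e + 1) _ _ _ fun s => (key _).2 ⟨h s, h' s⟩]
        congr 1
        · congr 1
          ext s
          rw [FT1quo_apply, FT1quo_apply, FT1quo_apply, Nat.div_div_eq_div_mul, ← pow_add]
        · apply (iterateFrobeniusEquiv k p (e + 1)).injective
          rw [RingEquiv.apply_symm_apply, iterateFrobeniusEquiv_def, pow_succ', pow_mul]
          have := FT1root_pow p 1 ((iterateFrobeniusEquiv k p e).symm c)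
          rw [pow_one] at this
          rw [this, FT1root_pow]
      · rw [FT1comp_neg p 1 _ _ _ h', FT1comp_neg p (e + 1) _ _ _ fun h2 =>
          h' fun s => ((key _).1 (h2 s)).2]
    · rw [FT1comp_neg p e _ _ _ h, map_zero, FT1comp_neg p (e + 1) _ _ _ fun h2 =>
        h fun s => ((key _).1 (h2 s)).1]

/-- Sketch: induction on `e`; `p ^ (e + 1) - 1 = (p - 1) * p ^ e + (p ^ e - 1)`, `FT1comp_mul`. -/
theorem car (e : ℕ) (f : MvPolynomial (Option (Fin n)) k) :
    FT1comp p e (fun _ => p ^ e - 1)
      (f ^ (p ^ e - 1) * (pderiv none f * ∏ l : Fin n, X (some l) ^ (p ^ e - 1))) =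
      pderiv none f := by
  have hp : 0 < p := (Fact.out : p.Prime).pos
  induction e with
  | zero =>
    simp only [pow_zero, Nat.sub_self, Finset.prod_const_one, one_mul, mul_one]
    generalize pderiv none f = h
    induction h using MvPolynomial.induction_on' with
    | add f g hf hg => rw [map_add, hf, hg]
    | monomial m c =>
      rw [FT1comp_pos p 0 _ _ _ fun s => by simp [Nat.mod_one]]
      congr 1
      · congr 1
        ext s
        rw [FT1quo_apply, pow_zero, Nat.div_one]
      · simp
  | succ e ih =>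
    have h5 : p ^ (e + 1) - 1 = (p - 1) * p ^ e + (p ^ e - 1) := by
      have h6 : 0 < p ^ e := pow_pos hp e
      obtain ⟨t, rfl⟩ : ∃ t, p = t + 1 := ⟨p - 1, by omega⟩
      rw [pow_succ', Nat.add_sub_cancel, add_mul, one_mul]
      omega
    have h7 : f ^ (p ^ (e + 1) - 1) *
        (pderiv none f * ∏ l : Fin n, X (some l) ^ (p ^ (e + 1) - 1)) =
        (f ^ (p - 1) * ∏ l : Fin n, X (some l) ^ (p - 1)) ^ p ^ e *
          (f ^ (p ^ e - 1) * (pderiv none f * ∏ l : Fin n, X (some l) ^ (p ^ e - 1))) := by
      rw [h5]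
      simp only [Finset.prod_pow]
      rw [pow_add, pow_add, pow_mul, pow_mul]
      ring
    rw [car_comp, h7, FT1comp_mul, ih, mul_assoc, mul_comm (∏ l : Fin n, _), car_one]

end

end Pool.Agent.Lib.MP_bc213e_ag.KBB
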