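import Pool.Agent.Lib.MP_bc213e_ag.KBB.Sheaf

/-! The first cohomology in the sequence `0 → O/(J:f) → O/J → O/(J,f) → 0`. -/

namespace Pool.Agent.Lib.MP_bc213e_ag.KBB

open Pool.Agent.Lib.MP_bc213e_ag.Hyp MvPolynomial

noncomputable section

variable {K ι : Type} [Field K] [Algebra ℂ K] {x g : ι → Kˣ}


namespace Idl

variable (J : Idl x)

theorem ext_div (f r : K) (t t₀ : ℤ) (a a₀ : ℕ) (i : ι) :
    f * r / fr x g (t + t₀) (a + a₀) i = r / fr x g t a i * (f / fr x g t₀ a₀ i) := by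
  rw [fr_add, div_mul_div_comm, mul_comm r f]

theorem ext_mono {i l j : ι} {r : K} {e : ℕ} (k : ℕ)
    (h : r * ((x l : K) / x i) ^ e * ((x j : K) / x i) ^ e ∈ J.J i) :
    r * ((x l : K) / x i) ^ (e + k) * ((x j : K) / x i) ^ (e + k) ∈ J.J i := by
  have h1 : (x l : K) / x i ∈ chart x i := Algebra.subset_adjoin ⟨l, rfl⟩
  have h2 : (x j : K) / x i ∈ chart x i := Algebra.subset_adjoin ⟨j, rfl⟩
  have h3 := J.mul i _ (mul_mem (pow_mem h1 k) (pow_mem h2 k)) _ h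
  convert h3 using 1
  ring

theorem cob_mul (hc : Cart x g) {t₀ : ℤ} {a₀ : ℕ} {f : K} (hf : Sec x g t₀ a₀ f) {t : ℤ} {a : ℕ}
    {θ : ι → ι → K} (h : (J.colon hc hf).Cob g t a θ) :
    J.Cob g (t + t₀) (a + a₀) fun i l => f * θ i l := by
  obtain ⟨η, h1, h2⟩ := h
  refine ⟨fun i => f * η i, fun i => ?_, fun i l => ?_⟩
  · rw [ext_div]
    exact mul_mem (h1 i) (hf i)
  · obtain ⟨e, -, he⟩ := h2 i l
    refine ⟨e, ?_⟩
    rw [← mul_sub, ← mul_sub, ext_div, mul_right_comm]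
    exact he

/-- Sketch: a cocycle `ξ` modulo `J` is one modulo `J + (f)`, so `ξ - ∂η = f θ` modulo `L2 J` with
`θ i l / fr i ∈ L2 O`; `f ∂θ ∈ L3 J` (`l3_of_12`, `l3_of_13`, `l3_of_23`), so `θ` is a cocycle
modulo `(J : f)`; `f θ = ∂η'` modulo `J`; take `η + η'`. -/
theorem ext (hc : Cart x g) {t₀ : ℤ} {a₀ : ℕ} {f : K} (hf : Sec x g t₀ a₀ f) {t : ℤ} {a : ℕ}
    (h1 : ∀ θ, (J.colon hc hf).Coc g t a θ →
      J.Cob g (t + t₀) (a + a₀) fun i l => f * θ i l)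
    (h2 : (J.adj hc hf).H1z g (t + t₀) (a + a₀)) : J.H1z g (t + t₀) (a + a₀) := by
  intro ξ hξ
  obtain ⟨η, hη, h3⟩ := h2 ξ ⟨hξ.1, fun i l j =>
    (hξ.2 i l j).imp fun _ he => J.le_adj hc hf i he⟩
  choose e s hs h3 using h3
  have hx : ∀ i l, ((x l : K) / x i) ^ e i l ≠ 0 := fun i l =>
    pow_ne_zero _ (div_ne_zero (x l).ne_zero (x i).ne_zero)
  let θ : ι → ι → K := fun i l => s i l / ((x l : K) / x i) ^ e i l * fr x g t a i
  have h4 : ∀ i l, θ i l / fr x g t a i * ((x l : K) / x i) ^ e i l = s i l := fun i l => by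
    simp only [θ]
    rw [mul_div_cancel_right₀ _ (fr_ne x g t a i), div_mul_cancel₀ _ (hx i l)]
  have h5 : ∀ i l, L2 x (top x).J i l (θ i l / fr x g t a i) := fun i l =>
    ⟨e i l, by rw [h4]; exact hs i l⟩
  have h6 : ∀ i l, L2 x J.J i l
      ((ξ i l - (η l - η i) - f * θ i l) / fr x g (t + t₀) (a + a₀) i) := fun i l =>
    ⟨e i l, by rw [sub_div, ext_div, sub_mul, mul_right_comm, h4]; exact h3 i l⟩
  obtain ⟨η', hη', h7⟩ := h1 θ ⟨h5, fun i l j => by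
    obtain ⟨e₁, he₁⟩ := (top x).l3_add ((top x).l3_add ((top x).l3_of_12 j (h5 i l))
      ((top x).l3_of_23 hc i (h5 l j))) ((top x).l3_neg ((top x).l3_of_13 l (h5 i j)))
    obtain ⟨e₂, he₂⟩ := J.l3_add (hξ.2 i l j) (J.l3_add (J.l3_neg (J.l3_add
      (J.l3_of_12 j (h6 i l)) (J.l3_of_23 hc i (h6 l j)))) (J.l3_of_13 l (h6 i j)))
    refine ⟨e₁ + e₂, ?_, ?_⟩
    · have h8 := (top x).ext_mono e₂ he₁
      rwa [← sub_eq_add_neg, ← add_div, ← sub_div] at h8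
    · have h8 := J.ext_mono e₁ he₂
      rw [add_comm e₂ e₁] at h8
      rw [mul_right_comm _ _ (f / _), mul_right_comm _ _ (f / _), ← ext_div]
      convert h8 using 3
      ring⟩
  refine ⟨η + η', fun i => ?_, fun i l => ?_⟩
  · rw [Pi.add_apply, add_div]
    exact add_mem (hη i) (hη' i)
  · have h8 := J.l2_add (h6 i l) (h7 i l)
    convert h8 using 1
    simp only [Pi.add_apply]
    ring

theorem h1z_of_one (h : ∀ i, (1 : K) ∈ J.J i) (t : ℤ) (a : ℕ) : J.H1z g t a := by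
  intro ξ hξ
  refine ⟨0, fun i => by simp, fun i l => (hξ.1 i l).imp fun e he => ?_⟩
  simpa using J.mul i _ he _ (h i)

theorem h0_of_one (h : ∀ i, (1 : K) ∈ J.J i) (t : ℤ) (a : ℕ) : J.H0 g t a = ⊥ := by
  rw [H0, ← LinearMap.le_ker_iff_map, Submodule.ker_mkQ]
  intro s hs i
  simpa using J.mul i _ (hs.1 i) _ (h i)

end Idl

/-- Sketch: `Z0` of the zero ideal consists of the constant families, `C0 = ⊥`. -/
theorem h0_bot [Nonempty ι] (x g : ι → Kˣ) (t : ℤ) (a : ℕ) :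
    Nonempty ((Idl.bot x).H0 g t a ≃ₗ[ℂ] SecS x g t a) := by
  obtain ⟨i₀⟩ := ‹Nonempty ι›
  let φ : SecS x g t a →ₗ[ℂ] (Idl.bot x).H0 g t a :=
    LinearMap.codRestrict _ (((Idl.bot x).C0 g t a).mkQ ∘ₗ
      (LinearMap.pi fun _ => (SecS x g t a).subtype)) fun s =>
        Submodule.mem_map_of_mem ⟨s.2, fun i l => ⟨0, by simp⟩⟩
  refine ⟨(LinearEquiv.ofBijective φ ⟨?_, ?_⟩).symm⟩
  · rw [injective_iff_map_eq_zero]
    intro s hs
    have h1 : (s : K) / fr x g t a i₀ = 0 :=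
      (Submodule.Quotient.mk_eq_zero _).1 (congrArg Subtype.val hs) i₀
    exact Subtype.ext ((div_eq_zero_iff.1 h1).resolve_right (fr_ne x g t a i₀))
  · rintro ⟨_, s, hs, rfl⟩
    have h1 : ∀ l, s l = s i₀ := fun l => by
      obtain ⟨e, he⟩ := hs.2 i₀ l
      have h2 : (s l - s i₀) / fr x g t a i₀ * ((x l : K) / x i₀) ^ e = 0 := he
      have h3 := (mul_eq_zero.1 h2).resolve_right
        (pow_ne_zero _ (div_ne_zero (x l).ne_zero (x i₀).ne_zero))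
      exact sub_eq_zero.1 ((div_eq_zero_iff.1 h3).resolve_right (fr_ne x g t a i₀))
    refine ⟨⟨s i₀, fun i => h1 i ▸ hs.1 i⟩, Subtype.ext ?_⟩
    exact congrArg ((Idl.bot x).C0 g t a).mkQ (funext fun l => (h1 l).symm)

end

end Pool.Agent.Lib.MP_bc213e_ag.KBB
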