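import Pool.Agent.Lib.MP_bc213e_ag.KBB.Defs

/-! Reduction of the data of a Cousin problem. -/

namespace Pool.Agent.Lib.MP_bc213e_ag.KBB

open Pool.Agent.Lib.MP_bc213e_ag.Hyp MvPolynomial

noncomputable section

variable {K ι κ : Type} [Field K] [Algebra ℂ K] [Fintype ι] [Fintype κ] {n : ℕ}

/-- Only finitely many coefficients are needed. (`Algebra.adjoin_induction`) -/
theorem cert_adjoin {s : Set K} {r : K} (hr : r ∈ Algebra.adjoin ℂ s) : ∃ C : Finset ℂ,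
    ∀ Λ : Subring ℂ, (∀ c ∈ C, c ∈ Λ) → r ∈ Subring.closure (algebraMap ℂ K '' Λ ∪ s) := by
  classical
  induction hr using Algebra.adjoin_induction with
  | mem x hx => exact ⟨∅, fun Λ _ => Subring.subset_closure (Or.inr hx)⟩
  | algebraMap c =>
    exact ⟨{c}, fun Λ h => Subring.subset_closure
      (Or.inl ⟨c, h c (Finset.mem_singleton_self c), rfl⟩)⟩
  | add x y _ _ hx hy =>
    obtain ⟨C, hC⟩ := hx
    obtain ⟨C', hC'⟩ := hy
    exact ⟨C ∪ C', fun Λ h => add_mem (hC Λ fun c hc => h c (Finset.mem_union_left _ hc))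
      (hC' Λ fun c hc => h c (Finset.mem_union_right _ hc))⟩
  | mul x y _ _ hx hy =>
    obtain ⟨C, hC⟩ := hx
    obtain ⟨C', hC'⟩ := hy
    exact ⟨C ∪ C', fun Λ h => mul_mem (hC Λ fun c hc => h c (Finset.mem_union_left _ hc))
      (hC' Λ fun c hc => h c (Finset.mem_union_right _ hc))⟩

section

variable {Y : Option (Fin n) → K} {P : MvPolynomial (Option (Fin n)) ℂ} {Λ : Subring ℂ}
  {k W' : Type} [Field k] [CommRing W'] [Algebra k W'] (R : Red Y P Λ k W')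

/-- `r'` is the reduction of `r`. -/
def fib0a_E (r : K) (r' : W') : Prop := r ∈ R.W ∧ r' = R.π r

/-- `u'` is the reduction of the unit `u`. -/
def fib0a_U (u : Kˣ) (u' : W'ˣ) : Prop :=
  fib0a_E R u u' ∧ fib0a_E R (u⁻¹ : Kˣ) (u'⁻¹ : W'ˣ)

theorem fib0a_one : fib0a_E R 1 1 := ⟨one_mem _, R.π_one.symm⟩

theorem fib0a_zero : fib0a_E R 0 0 := by
  have h := R.π_add 0 (zero_mem _) 0 (zero_mem _)
  rw [add_zero] at h
  exact ⟨zero_mem _, (left_eq_add.1 h).symm⟩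

theorem fib0a_c (a : Λ) : fib0a_E R (algebraMap ℂ K a) (algebraMap k W' (R.f a)) :=
  ⟨R.c_mem a, (R.π_c a).symm⟩

variable {R}

theorem fib0a_add {r s : K} {r' s' : W'} (h : fib0a_E R r r') (h' : fib0a_E R s s') :
    fib0a_E R (r + s) (r' + s') :=
  ⟨add_mem h.1 h'.1, by rw [h.2, h'.2, R.π_add _ h.1 _ h'.1]⟩

theorem fib0a_mul {r s : K} {r' s' : W'} (h : fib0a_E R r r') (h' : fib0a_E R s s') :
    fib0a_E R (r * s) (r' * s') :=
  ⟨mul_mem h.1 h'.1, by rw [h.2, h'.2, R.π_mul _ h.1 _ h'.1]⟩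

theorem fib0a_neg {r : K} {r' : W'} (h : fib0a_E R r r') : fib0a_E R (-r) (-r') := by
  have h1 := R.π_add _ h.1 _ (neg_mem h.1)
  rw [add_neg_cancel, ← (fib0a_zero R).2, ← h.2] at h1
  exact ⟨neg_mem h.1, neg_eq_of_add_eq_zero_right h1.symm⟩

theorem fib0a_sub {r s : K} {r' s' : W'} (h : fib0a_E R r r') (h' : fib0a_E R s s') :
    fib0a_E R (r - s) (r' - s') := by
  rw [sub_eq_add_neg, sub_eq_add_neg]
  exact fib0a_add h (fib0a_neg h')

theorem fib0a_sum {α : Type} (I : Finset α) {r : α → K} {r' : α → W'}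
    (h : ∀ a, fib0a_E R (r a) (r' a)) : fib0a_E R (∑ a ∈ I, r a) (∑ a ∈ I, r' a) := by
  classical
  induction I using Finset.induction_on with
  | empty => exact fib0a_zero R
  | insert a I ha ih =>
    rw [Finset.sum_insert ha, Finset.sum_insert ha]
    exact fib0a_add (h a) ih

theorem fib0a_U.mul {u v : Kˣ} {u' v' : W'ˣ} (h : fib0a_U R u u') (h' : fib0a_U R v v') :
    fib0a_U R (u * v) (u' * v') := by
  refine ⟨fib0a_mul h.1 h'.1, ?_⟩
  rw [mul_inv, mul_inv]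
  exact fib0a_mul h.2 h'.2

theorem fib0a_U.inv {u : Kˣ} {u' : W'ˣ} (h : fib0a_U R u u') : fib0a_U R u⁻¹ u'⁻¹ := ⟨h.2, h.1⟩

theorem fib0a_U.pow {u : Kˣ} {u' : W'ˣ} (h : fib0a_U R u u') (m : ℕ) :
    fib0a_U R (u ^ m) (u' ^ m) := by
  induction m with
  | zero =>
    rw [pow_zero, pow_zero]
    exact ⟨fib0a_one R, fib0a_one R⟩
  | succ m ih =>
    rw [pow_succ, pow_succ]
    exact ih.mul h

variable (R)

theorem Red.map_closure {s : Set K} (hs : ∀ r ∈ s, r ∈ R.W) {r : K}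
    (hr : r ∈ Subring.closure (algebraMap ℂ K '' Λ ∪ s)) :
    r ∈ R.W ∧ R.π r ∈ Algebra.adjoin k (R.π '' s) := by
  induction hr using Subring.closure_induction with
  | mem x hx =>
    rcases hx with ⟨c, hc, rfl⟩ | hx
    · exact ⟨R.c_mem ⟨c, hc⟩, R.π_c ⟨c, hc⟩ ▸ Subalgebra.algebraMap_mem _ _⟩
    · exact ⟨hs x hx, Algebra.subset_adjoin ⟨x, hx, rfl⟩⟩
  | zero => exact ⟨zero_mem _, (fib0a_zero R).2 ▸ zero_mem _⟩
  | one => exact ⟨one_mem _, R.π_one ▸ one_mem _⟩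
  | add x y _ _ hx hy =>
    exact ⟨add_mem hx.1 hy.1, R.π_add _ hx.1 _ hy.1 ▸ add_mem hx.2 hy.2⟩
  | neg x _ hx => exact ⟨neg_mem hx.1, (fib0a_neg ⟨hx.1, rfl⟩).2 ▸ neg_mem hx.2⟩
  | mul x y _ _ hx hy =>
    exact ⟨mul_mem hx.1 hy.1, R.π_mul _ hx.1 _ hy.1 ▸ mul_mem hx.2 hy.2⟩

theorem Red.map_aeval (q₀ : MvPolynomial (Option (Fin n)) Λ) :
    aeval Y (map Λ.subtype q₀) ∈ R.W ∧
      R.π (aeval Y (map Λ.subtype q₀)) = aeval R.Φ.Y (map R.f q₀) := by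
  have key : fib0a_E R (aeval Y (map Λ.subtype q₀)) (aeval R.Φ.Y (map R.f q₀)) := by
    induction q₀ using MvPolynomial.induction_on with
    | C a =>
      rw [map_C, map_C, aeval_C, aeval_C]
      exact fib0a_c R a
    | add p q hp hq =>
      rw [map_add, map_add, map_add, map_add]
      exact fib0a_add hp hq
    | mul_X p l hp =>
      rw [map_mul, map_mul, map_mul, map_mul, map_X, map_X, aeval_X, aeval_X]
      exact fib0a_mul hp ⟨R.Y_mem l, (R.π_Y l).symm⟩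
  exact ⟨key.1, key.2.symm⟩

/-- The reduction of a unit. -/
def Red.unit (u : Kˣ) (h : (u : K) ∈ R.W) (h' : ((u⁻¹ : Kˣ) : K) ∈ R.W) : W'ˣ where
  val := R.π u
  inv := R.π (u⁻¹ : Kˣ)
  val_inv := by rw [← R.π_mul _ h _ h', Units.mul_inv, R.π_one]
  inv_val := by rw [← R.π_mul _ h' _ h, Units.inv_mul, R.π_one]

end

omit [Fintype ι] in
theorem fib0a_cert {α : Type} [Fintype α] (x : ι → Kˣ) (i : α → ι) (r : α → K)
    (h : ∀ a, r a ∈ chartR ℂ x (i a)) : ∃ C : Finset ℂ, ∀ (Λ : Subring ℂ) (k W' : Type) [Field k]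
      [CommRing W'] [Algebra k W'] {Y : Option (Fin n) → K} {P : MvPolynomial (Option (Fin n)) ℂ}
      (R : Red Y P Λ k W'), (∀ c ∈ C, c ∈ Λ) → ∀ x' : ι → W'ˣ, (∀ i, fib0a_U R (x i) (x' i)) →
      ∀ a, r a ∈ R.W ∧ R.π (r a) ∈ chartR k x' (i a) := by
  classical
  choose C hC using fun a => cert_adjoin (h a)
  refine ⟨Finset.univ.biUnion C, fun Λ k W' _ _ _ Y P R hΛ x' hx a => ?_⟩
  have h1 := R.map_closure (by rintro _ ⟨j, rfl⟩; exact ((hx j).mul (hx (i a)).inv).1.1)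
    (hC a Λ fun c hc => hΛ c (Finset.mem_biUnion.2 ⟨a, Finset.mem_univ a, hc⟩))
  refine ⟨h1.1, Algebra.adjoin_mono ?_ h1.2⟩
  rintro _ ⟨_, ⟨j, rfl⟩, rfl⟩
  exact ⟨j, ((hx j).mul (hx (i a)).inv).1.2⟩

theorem fib0a_deg {σ k : Type} [Field k] {Λ : Subring ℂ} (f : Λ →+* k) (q : MvPolynomial σ Λ) :
    (map f q).totalDegree ≤ (map Λ.subtype q).totalDegree := by
  rw [totalDegree, totalDegree, support_map_of_injective q Λ.subtype_injective]
  exact Finset.sup_mono (support_map_subset f q)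

/-- The data can be reduced. Sketch: `S` contains `x i, (x i)⁻¹, g i, (g i)⁻¹, β l, cc i`; `C`
contains the sets from `cert_adjoin` for `cart`, `hβ`, `gen`, `hcc`, `hw`, the coefficients of the
`Y l` in terms of the `x i` and the coefficients of `E`. It is convenient to restrict `π` to a ring
homomorphism `R.W →+* W'`. `rep` in the fibre: by span induction it is enough to treat monomials
`π (∏ x)`; use `rep'` and `Red.int`. -/
theorem Dat.reduce (d : Dat ℂ K ι κ n)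
    (rep' : ∀ μ, ∀ r ∈ Vs ℂ d.x ^ μ, ∃ q : MvPolynomial (Option (Fin n)) ℂ,
      q.totalDegree ≤ μ + d.c₀ ∧ q.degreeOf none < d.P.degreeOf none ∧
      aeval d.Y q = aeval d.Y d.E * r) :
    ∃ (S : Finset K) (C : Finset ℂ), ∀ (Λ : Subring ℂ) (k W' : Type) [Field k] [CommRing W']
      [Algebra k W'] (R : Red d.Y d.P Λ k W'), (∀ c ∈ C, c ∈ Λ) → (∀ s ∈ S, s ∈ R.W) →
      ∃ (d' : Dat k W' ι κ n) (E₀ : MvPolynomial (Option (Fin n)) Λ),
        map Λ.subtype E₀ = d.E ∧ d'.E = map R.f E₀ ∧ d'.Y = R.Φ.Y ∧ d'.P = R.Φ.P ∧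
        d'.a = d.a ∧ d'.c = d.c ∧ d'.e = d.e ∧ d'.c₀ = d.c₀ ∧
        (∀ i, (d.x i : K) ∈ R.W ∧ (d'.x i : W') = R.π (d.x i)) ∧
        (∀ i, d.w i ∈ R.W ∧ d'.w i = R.π (d.w i)) ∧
        ∀ i, d.cc i ∈ R.W ∧ d'.cc i = R.π (d.cc i) := by
  classical
  choose A hA using fun l => (Submodule.mem_span_range_iff_exists_fun ℂ).1 (d.hY l)
  choose ee hee using d.cart
  choose rr hrr hrr' using d.gen
  obtain ⟨C₁, h1⟩ := fib0a_cert (n := n) d.x (fun p : ι × ι => p.2) _ fun p => hee p.1 p.2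
  obtain ⟨C₂, h2⟩ := fib0a_cert (n := n) d.x (fun p : κ × ι => p.2) _ fun p => d.hβ p.1 p.2
  obtain ⟨C₃, h3⟩ := fib0a_cert (n := n) d.x (fun p : ι × κ => p.1) _ fun p => hrr p.1 p.2
  obtain ⟨C₄, h4⟩ := fib0a_cert (n := n) d.x (fun p : ι × ι => p.1) _ fun p => d.hcc p.1 p.2
  obtain ⟨C₅, h5⟩ := fib0a_cert (n := n) d.x (fun p : ι × ι => p.2) _ fun p => d.hw p.1 p.2
  refine ⟨Finset.univ.image (fun i => (d.x i : K)) ∪ Finset.univ.image (fun i => (((d.x i)⁻¹ : Kˣ) : K)) ∪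
      Finset.univ.image (fun i => (d.g i : K)) ∪ Finset.univ.image (fun i => (((d.g i)⁻¹ : Kˣ) : K)) ∪
      Finset.univ.image d.β ∪ Finset.univ.image d.cc,
    C₁ ∪ C₂ ∪ C₃ ∪ C₄ ∪ C₅ ∪ d.E.coeffs ∪ Finset.univ.image (fun p : Option (Fin n) × ι => A p.1 p.2),
    fun Λ k W' _ _ _ R hC hS => ?_⟩
  simp only [Finset.forall_mem_union, Finset.forall_mem_image, Finset.mem_univ, forall_const] at hC hS
  obtain ⟨⟨⟨⟨⟨⟨c1, c2⟩, c3⟩, c4⟩, c5⟩, c6⟩, c7⟩ := hC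
  obtain ⟨⟨⟨⟨⟨s1, s2⟩, s3⟩, s4⟩, s5⟩, s6⟩ := hS
  obtain ⟨x', hx⟩ : ∃ x' : ι → W'ˣ, ∀ i, fib0a_U R (d.x i) (x' i) :=
    ⟨fun i => R.unit (d.x i) (@s1 i) (@s2 i), fun i => ⟨⟨@s1 i, rfl⟩, ⟨@s2 i, rfl⟩⟩⟩
  obtain ⟨g', hg⟩ : ∃ g' : ι → W'ˣ, ∀ i, fib0a_U R (d.g i) (g' i) :=
    ⟨fun i => R.unit (d.g i) (@s3 i) (@s4 i), fun i => ⟨⟨@s3 i, rfl⟩, ⟨@s4 i, rfl⟩⟩⟩
  have hβ : ∀ l, fib0a_E R (d.β l) (R.π (d.β l)) := fun l => ⟨@s5 l, rfl⟩
  have hcc : ∀ i, fib0a_E R (d.cc i) (R.π (d.cc i)) := fun i => ⟨@s6 i, rfl⟩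
  obtain ⟨E₀, hE₀⟩ : d.E ∈ Set.range (map Λ.subtype) :=
    mem_range_map_iff_coeffs_subset.2 fun c hc => ⟨⟨c, c6 c hc⟩, rfl⟩
  have hE : fib0a_E R (aeval d.Y d.E) (aeval R.Φ.Y (map R.f E₀)) := by
    rw [← hE₀]
    exact ⟨(R.map_aeval E₀).1, (R.map_aeval E₀).2.symm⟩
  open Pointwise in
  have hmon : ∀ μ : ℕ, ∀ r' ∈ (Set.range fun j => (x' j : W')) ^ μ,
      ∃ r ∈ Vs ℂ d.x ^ μ, fib0a_E R r r' := by
    intro μ
    induction μ with
    | zero =>
      intro r' hr'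
      rw [pow_zero, Set.mem_one] at hr'
      exact ⟨1, by rw [pow_zero]; exact Submodule.one_le.1 le_rfl, hr' ▸ fib0a_one R⟩
    | succ μ ih =>
      intro r' hr'
      rw [pow_succ] at hr'
      obtain ⟨a, ha, _, ⟨j, rfl⟩, rfl⟩ := hr'
      obtain ⟨r, hr, hr'⟩ := ih a ha
      exact ⟨r * d.x j, by
        rw [pow_succ]
        exact Submodule.mul_mem_mul hr (Submodule.subset_span ⟨j, rfl⟩), fib0a_mul hr' (hx j).1⟩
  refine ⟨{ x := x'
            g := g'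
            i₀ := d.i₀
            Y := R.Φ.Y
            P := R.Φ.P
            E := map R.f E₀
            β := fun l => R.π (d.β l)
            cc := fun i => R.π (d.cc i)
            c₀ := d.c₀
            N := d.N
            t := d.t
            a := d.a
            c := d.c
            e := d.e
            one := ?_
            hY := fun l => ?_
            hE := (fib0a_deg R.f E₀).trans (hE₀ ▸ d.hE)
            rep := fun μ r' hr' => ?_
            cart := fun i j => ⟨ee i j, ?_⟩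
            Npos := d.Npos
            hβ := fun l i => ?_
            gen := fun i => ⟨fun l => R.π (rr i l), fun l => (h3 Λ k W' R c3 x' hx (i, l)).2, ?_⟩
            hcc := fun i l => ?_
            hw := fun j l => ?_ }, E₀, hE₀, rfl, rfl, rfl, rfl, rfl, rfl, rfl,
    fun i => (hx i).1, fun i => (((hg i).pow d.t).inv.mul ((hx i).pow d.e)).1, hcc⟩
  · refine Units.ext ?_
    rw [(hx d.i₀).1.2, d.one, Units.val_one, R.π_one, Units.val_one]
  · have h6 := fib0a_sum Finset.univ fun i =>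
      fib0a_mul (fib0a_c R ⟨A l i, @c7 (l, i)⟩) (hx i).1
    simp only [← Algebra.smul_def] at h6
    rw [← R.π_Y, ← hA l, ← h6.2]
    exact Submodule.sum_mem _ fun i _ => Submodule.smul_mem _ _ (Submodule.subset_span ⟨i, rfl⟩)
  · rw [Vs, Submodule.span_pow] at hr'
    induction hr' using Submodule.span_induction with
    | mem r' hr' =>
      obtain ⟨r, hr, hrr⟩ := hmon μ r' hr'
      obtain ⟨q, q1, q2, q3⟩ := rep' μ r hr
      have h6 := fib0a_mul hE hrr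
      rw [← q3] at h6
      obtain ⟨q₀, rfl⟩ := R.int q q2 h6.1
      exact ⟨map R.f q₀, (fib0a_deg R.f q₀).trans q1, by rw [h6.2, (R.map_aeval q₀).2]⟩
    | zero => exact ⟨0, by simp, by simp⟩
    | add a b _ _ ha hb =>
      obtain ⟨q, q1, q2⟩ := ha
      obtain ⟨q', q1', q2'⟩ := hb
      exact ⟨q + q', (totalDegree_add _ _).trans (max_le q1 q1'), by rw [map_add, q2, q2', mul_add]⟩
    | smul c a _ ha =>
      obtain ⟨q, q1, q2⟩ := ha
      exact ⟨c • q, (totalDegree_smul_le _ _).trans q1, by rw [map_smul, q2, mul_smul_comm]⟩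
  · rw [(((hg i).mul (hg j).inv).mul (((hx i).mul (hx j).inv).pow (ee i j))).1.2]
    exact (h1 Λ k W' R c1 x' hx (i, j)).2
  · rw [(fib0a_mul (hβ l) (((hg i).pow (d.N * d.t)).mul ((hx i).pow d.N)).inv.1).2]
    exact (h2 Λ k W' R c2 x' hx (l, i)).2
  · have h6 := fib0a_sum Finset.univ fun l =>
      fib0a_mul (r' := R.π (rr i l)) ⟨(h3 Λ k W' R c3 x' hx (i, l)).1, rfl⟩ (hβ l)
    rw [h6.2, hrr' i, (((hg i).pow (d.N * d.t)).mul ((hx i).pow d.N)).1.2]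
  · rw [(fib0a_mul (fib0a_sub (hcc l) (hcc i)) (((hx l).pow d.c).mul
      (((hg i).pow d.t).mul ((hx i).pow (d.a + d.c))).inv).1).2]
    exact (h4 Λ k W' R c4 x' hx (i, l)).2
  · rw [((((hg j).pow d.t).inv.mul ((hx j).pow d.e)).mul
      (((hg l).pow d.t).inv.mul ((hx l).pow d.e)).inv).1.2]
    exact (h5 Λ k W' R c5 x' hx (j, l)).2

end

end Pool.Agent.Lib.MP_bc213e_ag.KBB
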