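import Pool.Agent.Lib.MP_bc213e_ag.KBB.Defs
import Pool.Agent.Lib.MP_bc213e_ag.Hyp.PLC

/-! Reduction modulo a prime. -/

namespace Pool.Agent.Lib.MP_bc213e_ag.KBB

open Pool.Agent.Lib.MP_bc213e_ag.Hyp MvPolynomial

noncomputable section

/-- Division by a polynomial whose leading coefficient is a unit of the subring. Sketch: strong
induction on the leading monomial of `h` for `MonomialOrder.lex` (or: if `h` has a coefficient
outside `Λ`, take the largest such monomial `m` and look at the coefficient of `m + degree D`). -/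
theorem div_sub {σ : Type} [Finite σ] (Λ : Subring ℂ) (D h : MvPolynomial σ ℂ)
    (hD : ∀ m, coeff m D ∈ Λ ∧ (coeff m D)⁻¹ ∈ Λ) (h0 : D ≠ 0) (hh : ∀ m, coeff m (D * h) ∈ Λ) :
    ∀ m, coeff m h ∈ Λ := by
  classical
  let _ : LinearOrder σ := LinearOrder.lift' (Finite.equivFin σ) (Finite.equivFin σ).injective
  have : WellFoundedGT σ := Finite.to_wellFoundedGT
  let o : MonomialOrder σ := MonomialOrder.lex
  let h₁ : MvPolynomial σ ℂ := ∑ m ∈ h.support with coeff m h ∈ Λ, monomial m (coeff m h)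
  have c₁ : ∀ m, coeff m h₁ = if coeff m h ∈ Λ then coeff m h else 0 := by
    intro m
    simp only [h₁, coeff_sum, coeff_monomial, Finset.sum_ite_eq', Finset.mem_filter,
      mem_support_iff]
    by_cases h0 : coeff m h = 0
    · simp [h0]
    · simp [h0]
  have m₁ : ∀ m, coeff m h₁ ∈ Λ := by
    intro m
    rw [c₁]
    split_ifs with hm
    · exact hm
    · exact zero_mem _
  have m₂ : ∀ m, coeff m (D * (h - h₁)) ∈ Λ := by
    intro m
    rw [mul_sub, coeff_sub]
    refine sub_mem (hh m) ?_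
    rw [coeff_mul]
    exact sum_mem fun c _ => mul_mem (hD _).1 (m₁ _)
  have hz : h - h₁ = 0 := by
    by_contra hne
    have e1 : o.leadingCoeff D * o.leadingCoeff (h - h₁) ∈ Λ := by
      rw [← MonomialOrder.leadingCoeff_mul]
      exact m₂ _
    have e2 : o.leadingCoeff D ≠ 0 := MonomialOrder.leadingCoeff_ne_zero_iff.2 h0
    have e3 : o.leadingCoeff (h - h₁) ∈ Λ := by
      have := mul_mem (hD (o.degree D)).2 e1
      rwa [← mul_assoc, show coeff (o.degree D) D = o.leadingCoeff D from rfl,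
        inv_mul_cancel₀ e2, one_mul] at this
    have e4 : o.leadingCoeff (h - h₁) ≠ 0 := MonomialOrder.leadingCoeff_ne_zero_iff.2 hne
    change coeff (o.degree (h - h₁)) (h - h₁) ∈ Λ at e3
    change coeff (o.degree (h - h₁)) (h - h₁) ≠ 0 at e4
    rw [coeff_sub, c₁] at e3 e4
    split_ifs at e3 e4 with hm
    · exact e4 (sub_self _)
    · rw [sub_zero] at e3
      exact hm e3
  intro m
  rw [sub_eq_zero.1 hz]
  exact m₁ m

theorem red_div_pow {σ : Type} [Finite σ] (Λ : Subring ℂ) (D : MvPolynomial σ ℂ)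
    (hD : ∀ m, coeff m D ∈ Λ ∧ (coeff m D)⁻¹ ∈ Λ) (h0 : D ≠ 0) (N : ℕ) (h : MvPolynomial σ ℂ)
    (hh : ∀ m, coeff m (D ^ N * h) ∈ Λ) : ∀ m, coeff m h ∈ Λ := by
  induction N with
  | zero => simpa using hh
  | succ N ih =>
    refine ih (div_sub Λ D _ hD h0 ?_)
    rwa [← mul_assoc, ← pow_succ']

theorem red_opt_map {τ R S : Type} [CommRing R] [CommRing S] (f : R →+* S)
    (q : MvPolynomial (Option τ) R) :
    optionEquivLeft S τ (map f q) = (optionEquivLeft R τ q).map (map f) := by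
  induction q using MvPolynomial.induction_on with
  | C a => simp [optionEquivLeft_C]
  | add p q hp hq => simp only [map_add, hp, hq, Polynomial.map_add]
  | mul_X p l hp =>
    rw [map_mul, map_mul, map_mul, hp, Polynomial.map_mul, map_X]
    cases l <;> simp [optionEquivLeft_X_none, optionEquivLeft_X_some]

theorem red_opt_rename {τ R : Type} [CommRing R] (ρ : MvPolynomial τ R) :
    optionEquivLeft R τ (rename some ρ) = Polynomial.C ρ := by
  induction ρ using MvPolynomial.induction_on with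
  | C a => simp [optionEquivLeft_C]
  | add p q hp hq => simp only [map_add, hp, hq]
  | mul_X p l hp => rw [map_mul, map_mul, map_mul, hp, rename_X, optionEquivLeft_X_some]

theorem red_lift {σ : Type} (Λ : Subring ℂ) (q : MvPolynomial σ ℂ) (h : ∀ m, coeff m q ∈ Λ) :
    ∃ q₀ : MvPolynomial σ Λ, map Λ.subtype q₀ = q := by
  classical
  refine mem_range_map_iff_coeffs_subset.2 fun a ha => ?_
  obtain ⟨m, -, rfl⟩ := mem_coeffs_iff.1 ha
  exact ⟨⟨_, h m⟩, rfl⟩

/-- The localisation of `k[Y] / P` away from a nonzero polynomial in the last variables. -/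
theorem red_fib {k : Type} [Field k] {n : ℕ} (P : MvPolynomial (Option (Fin n)) k)
    (hP : (optionEquivLeft k (Fin n) P).Monic) (δ : MvPolynomial (Fin n) k) (hδ : δ ≠ 0) :
    ∃ (W : Type) (_ : CommRing W) (_ : Algebra k W) (Φ : Fib k W n),
      Φ.P = P ∧ Φ.D = rename some δ := by
  let I : Ideal (MvPolynomial (Option (Fin n)) k) := Ideal.span {P}
  let d : MvPolynomial (Option (Fin n)) k ⧸ I := Ideal.Quotient.mk I (rename some δ)
  have hd : d ∈ nonZeroDivisors (MvPolynomial (Option (Fin n)) k ⧸ I) := by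
    rw [mem_nonZeroDivisors_iff_left]
    intro z hz
    obtain ⟨q, rfl⟩ := Ideal.Quotient.mk_surjective z
    rw [← map_mul, Ideal.Quotient.eq_zero_iff_mem, Ideal.mem_span_singleton,
      ← map_dvd_iff (optionEquivLeft k (Fin n)), map_mul, red_opt_rename,
      ← Polynomial.modByMonic_eq_zero_iff_dvd hP, ← Polynomial.smul_eq_C_mul,
      Polynomial.smul_modByMonic, smul_eq_zero, or_iff_right hδ,
      Polynomial.modByMonic_eq_zero_iff_dvd hP, map_dvd_iff] at hz
    rwa [Ideal.Quotient.eq_zero_iff_mem, Ideal.mem_span_singleton]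
  let W := Localization.Away d
  let Y : Option (Fin n) → W := fun l => algebraMap _ W (Ideal.Quotient.mk I (X l))
  have hY : ∀ q, aeval Y q = algebraMap _ W (Ideal.Quotient.mk I q) := by
    intro q
    induction q using MvPolynomial.induction_on with
    | C a =>
      rw [aeval_C, IsScalarTower.algebraMap_apply k (MvPolynomial (Option (Fin n)) k ⧸ I) W]
      rfl
    | add p q hp hq => simp only [map_add, hp, hq]
    | mul_X p l hp => rw [map_mul, map_mul, map_mul, hp, aeval_X]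
  have hinj : Function.Injective (algebraMap (MvPolynomial (Option (Fin n)) k ⧸ I) W) :=
    IsLocalization.injective W (M := Submonoid.powers d) (Submonoid.powers_le.2 hd)
  refine ⟨W, inferInstance, inferInstance, ⟨Y, P, rename some δ, fun q => ?_, ?_, fun w => ?_⟩,
    rfl, rfl⟩
  · rw [hY, map_eq_zero_iff _ hinj, Ideal.Quotient.eq_zero_iff_mem, Ideal.mem_span_singleton]
  · rw [hY]
    exact IsLocalization.Away.algebraMap_isUnit d
  · obtain ⟨N, a, ha⟩ := IsLocalization.Away.surj d w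
    obtain ⟨q, rfl⟩ := Ideal.Quotient.mk_surjective a
    exact ⟨q, N, by rw [hY, hY]; exact ha⟩

/-- A homomorphism that kills the kernel of `φ` and inverts `d` extends to the fractions. -/
theorem red_graph {R K W' : Type} [CommRing R] [CommRing K] [CommRing W'] (φ : R →+* K)
    (ψ : R →+* W') (d : R) (hu : IsUnit (ψ d)) (hker : ∀ r, φ r = 0 → ψ r = 0) :
    ∃ (W : Subring K) (π : K → W'), (∀ w, w ∈ W ↔ ∃ (N : ℕ) (r : R), w * φ d ^ N = φ r) ∧
      (∀ a ∈ W, ∀ b ∈ W, π (a + b) = π a + π b) ∧ (∀ a ∈ W, ∀ b ∈ W, π (a * b) = π a * π b) ∧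
      ∀ r, π (φ r) = ψ r := by
  classical
  let Γ : Subring (K × W') :=
    { carrier := {z | ∃ (N : ℕ) (r : R), z.1 * φ d ^ N = φ r ∧ z.2 * ψ d ^ N = ψ r}
      mul_mem' := by
        rintro a b ⟨N, r, h1, h2⟩ ⟨N', r', h1', h2'⟩
        refine ⟨N + N', r * r', ?_, ?_⟩
        · simp only [map_mul, ← h1, ← h1', Prod.fst_mul]
          ring
        · simp only [map_mul, ← h2, ← h2', Prod.snd_mul]
          ring
      one_mem' := ⟨0, 1, by simp, by simp⟩
      add_mem' := by
        rintro a b ⟨N, r, h1, h2⟩ ⟨N', r', h1', h2'⟩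
        refine ⟨N + N', r * d ^ N' + r' * d ^ N, ?_, ?_⟩
        · simp only [map_mul, map_add, map_pow, ← h1, ← h1', Prod.fst_add]
          ring
        · simp only [map_mul, map_add, map_pow, ← h2, ← h2', Prod.snd_add]
          ring
      zero_mem' := ⟨0, 0, by simp, by simp⟩
      neg_mem' := by
        rintro a ⟨N, r, h1, h2⟩
        refine ⟨N, -r, ?_, ?_⟩
        · simp only [map_neg, ← h1, Prod.fst_neg, neg_mul]
        · simp only [map_neg, ← h2, Prod.snd_neg, neg_mul] }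
  have uniq : ∀ w a b, (w, a) ∈ Γ → (w, b) ∈ Γ → a = b := by
    intro w a b ha hb
    obtain ⟨N, r, h1, h2⟩ := sub_mem ha hb
    simp only [Prod.mk_sub_mk, sub_self, zero_mul] at h1 h2
    rw [hker r h1.symm] at h2
    exact sub_eq_zero.1 ((hu.pow N).mul_left_eq_zero.1 h2)
  let π : K → W' := fun w => if h : ∃ a, (w, a) ∈ Γ then h.choose else 0
  have hπ : ∀ w a, (w, a) ∈ Γ → π w = a := by
    intro w a ha
    have h : ∃ a, (w, a) ∈ Γ := ⟨a, ha⟩
    simp only [π, dif_pos h]
    exact uniq w _ _ h.choose_spec ha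
  have hm : ∀ w ∈ Γ.map (RingHom.fst K W'), (w, π w) ∈ Γ := by
    rintro _ ⟨⟨w, a⟩, ha, rfl⟩
    have := hπ w a ha
    change (w, π w) ∈ Γ
    rw [this]
    exact ha
  refine ⟨Γ.map (RingHom.fst K W'), π, fun w => ⟨fun hw => ?_, ?_⟩, fun a ha b hb => ?_,
    fun a ha b hb => ?_, fun r => hπ _ _ ⟨0, r, by simp, by simp⟩⟩
  · obtain ⟨N, r, h1, -⟩ := hm w hw
    exact ⟨N, r, h1⟩
  · rintro ⟨N, r, h1⟩
    obtain ⟨u, hu'⟩ := hu.pow N
    refine ⟨(w, ψ r * ↑u⁻¹), ⟨N, r, h1, ?_⟩, rfl⟩
    rw [← hu', mul_assoc, Units.inv_mul, mul_one]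
  · exact hπ _ _ (add_mem (hm a ha) (hm b hb))
  · exact hπ _ _ (mul_mem (hm a ha) (hm b hb))

/-- A common denominator. -/
theorem red_den {K : Type} [Field K] [Algebra ℂ K] {n : ℕ} (Y : Option (Fin n) → K)
    (den : ∀ z : K, ∃ q ρ : MvPolynomial (Option (Fin n)) ℂ, ρ ≠ 0 ∧ ρ.degreeOf none = 0 ∧
      aeval Y ρ * z = aeval Y q) (S : Finset K) :
    ∃ δ : MvPolynomial (Fin n) ℂ, δ ≠ 0 ∧ ∀ s ∈ S, ∃ q : MvPolynomial (Option (Fin n)) ℂ,
      s * aeval Y (rename some δ) = aeval Y q := by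
  classical
  induction S using Finset.induction_on with
  | empty => exact ⟨1, one_ne_zero, by simp⟩
  | insert z S _ ih =>
    obtain ⟨δ, h0, hδ⟩ := ih
    obtain ⟨q, ρ, h1, h2, h3⟩ := den z
    rw [← natDegree_optionEquivLeft] at h2
    obtain ⟨δ', h4⟩ := Polynomial.natDegree_eq_zero.1 h2
    rw [← red_opt_rename] at h4
    obtain rfl := (optionEquivLeft ℂ (Fin n)).injective h4
    refine ⟨δ * δ', mul_ne_zero h0 fun h => h1 (by rw [h, map_zero]), fun s hs => ?_⟩
    rcases Finset.mem_insert.1 hs with rfl | hs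
    · refine ⟨rename some δ * q, ?_⟩
      simp only [map_mul, ← h3]
      ring
    · obtain ⟨q', h5⟩ := hδ s hs
      refine ⟨q' * rename some δ', ?_⟩
      simp only [map_mul, ← h5]
      ring

/-- Sketch: write `ρ s * s = q s` for `s ∈ S`, `D = ∏ ρ s` (`degreeOf none D = 0`, `D ≠ 0`). Apply
`exists_reduction` to `C`, all coefficients of `P, D, ρ s, q s` and their inverses. `W` = the
elements `w` with `w * D ^ N = aeval Y f₀`, `f₀` over `Λ`. `W' = Localization.Away (D : k[Y] ⧸ (P))`,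
where `D` is a nonzero divisor modulo `P` since `P` is monic in `X none` and `D ≠ 0` has degree `0`
(through `optionEquivLeft`: `Polynomial.Monic` and `C d * q = P * h` imply `P ∣ q`, use
`modByMonic`). `π w = f₀ / D ^ N`, well defined because `P ∣ f₀` over `ℂ` implies `P₀ ∣ f₀` over `Λ`
(`div_sub`, or `Polynomial.map_dvd_map`). `int`: `D ^ N q - f₀ = P h`; reduce `f₀` modulo the monic
`P₀`; compare degrees in `X none`; `div_sub`. -/
theorem exists_red {K : Type} [Field K] [Algebra ℂ K] {n : ℕ} (Y : Option (Fin n) → K)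
    (P : MvPolynomial (Option (Fin n)) ℂ) (monic : (optionEquivLeft ℂ (Fin n) P).Monic)
    (ker : ∀ q, aeval Y q = 0 ↔ P ∣ q)
    (den : ∀ z : K, ∃ q ρ : MvPolynomial (Option (Fin n)) ℂ, ρ ≠ 0 ∧ ρ.degreeOf none = 0 ∧
      aeval Y ρ * z = aeval Y q) (S : Finset K) (C : Finset ℂ) :
    ∃ (Λ : Subring ℂ) (k W' : Type) (_ : Field k) (p : ℕ) (_ : Fact p.Prime) (_ : CharP k p)
      (_ : PerfectRing k p) (_ : CommRing W') (_ : Algebra k W') (R : Red Y P Λ k W'),
      (∀ c ∈ C, c ∈ Λ) ∧ ∀ s ∈ S, s ∈ R.W := by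
  classical
  obtain ⟨δ, hδ, hq⟩ := red_den Y den S
  choose! q hq using hq
  let T : Finset ℂ := C ∪ P.coeffs ∪ δ.coeffs ∪ (rename some δ).coeffs ∪
    (rename some δ).coeffs.image (fun a => a⁻¹) ∪ S.biUnion fun s => (q s).coeffs
  obtain ⟨Λ, k, _, p, _, _, _, f, h1, h2⟩ := exists_reduction T
  have hc : ∀ {σ : Type} (Q : MvPolynomial σ ℂ), Q.coeffs ⊆ T → ∀ m, coeff m Q ∈ Λ := by
    intro σ Q hQ m
    by_cases h : coeff m Q = 0
    · rw [h]
      exact zero_mem _
    · exact h1 _ (hQ (coeff_mem_coeffs m h))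
  have sP : P.coeffs ⊆ T := fun a ha => by simp [T, ha]
  have sδ : δ.coeffs ⊆ T := fun a ha => by simp [T, ha]
  have sD : (rename some δ).coeffs ⊆ T := fun a ha => by simp [T, ha]
  have sq : ∀ s ∈ S, (q s).coeffs ⊆ T := fun s hs a ha =>
    Finset.mem_union_right _ (Finset.mem_biUnion.2 ⟨s, hs, ha⟩)
  have hD : ∀ m, coeff m (rename some δ) ∈ Λ ∧ (coeff m (rename some δ))⁻¹ ∈ Λ := by
    intro m
    refine ⟨hc _ sD m, ?_⟩
    by_cases h : coeff m (rename some δ) = 0
    · rw [h, inv_zero]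
      exact zero_mem _
    · exact h1 _ (Finset.mem_union_left _ (Finset.mem_union_right _
        (Finset.mem_image_of_mem _ (coeff_mem_coeffs m h))))
  have hD0 : rename some δ ≠ 0 := fun h =>
    hδ (rename_injective _ (Option.some_injective _) (by rw [h, map_zero]))
  obtain ⟨P₀, hP₀⟩ := red_lift Λ P (hc P sP)
  obtain ⟨δ₀, hδ₀⟩ := red_lift Λ δ (hc δ sδ)
  have hinj : Function.Injective (map Λ.subtype : MvPolynomial (Fin n) Λ → _) :=
    map_injective _ Λ.subtype_injective
  have hm : (optionEquivLeft Λ (Fin n) P₀).Monic :=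
    Polynomial.monic_of_injective hinj (by rwa [← red_opt_map, hP₀])
  have hm' : (optionEquivLeft k (Fin n) (map f P₀)).Monic := by
    rw [red_opt_map]
    exact hm.map _
  have hδk : map f δ₀ ≠ 0 := by
    obtain ⟨m, hm⟩ := exists_coeff_ne_zero hδ
    have e : ((coeff m δ₀ : Λ) : ℂ) = coeff m δ := by
      rw [← hδ₀, coeff_map]
      rfl
    intro h
    refine h2 (coeff m δ₀) ?_ (fun h0 => hm ?_) ?_
    · rw [e]
      exact sδ (coeff_mem_coeffs m hm)
    · rw [← e, h0]
      rfl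
    · rw [← coeff_map, h, coeff_zero]
  obtain ⟨W', _, _, Φ, hΦP, hΦD⟩ := red_fib (map f P₀) hm' (map f δ₀) hδk
  let φ : MvPolynomial (Option (Fin n)) Λ →+* K := (aeval Y).toRingHom.comp (map Λ.subtype)
  let ψ : MvPolynomial (Option (Fin n)) Λ →+* W' := (aeval Φ.Y).toRingHom.comp (map f)
  have hφ : ∀ r, φ r = aeval Y (map Λ.subtype r) := fun _ => rfl
  have hψ : ∀ r, ψ r = aeval Φ.Y (map f r) := fun _ => rfl
  have hφd : φ (rename some δ₀) = aeval Y (rename some δ) := by rw [hφ, map_rename, hδ₀]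
  obtain ⟨W, π, hW, hadd, hmul, hπ⟩ := red_graph φ ψ (rename some δ₀)
    (by rw [hψ, map_rename, ← hΦD]; exact Φ.unit) (by
      intro r hr
      rw [hφ, ker, ← hP₀, ← map_dvd_iff (optionEquivLeft ℂ (Fin n)), red_opt_map, red_opt_map,
        Polynomial.map_dvd_map _ hinj hm, map_dvd_iff] at hr
      rw [hψ, Φ.ker, hΦP]
      exact map_dvd _ hr)
  have hmem : ∀ r, φ r ∈ W := fun r => (hW _).2 ⟨0, r, by simp⟩
  have eC : ∀ a : Λ, algebraMap ℂ K a = φ (MvPolynomial.C a) := fun a => by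
    rw [hφ, map_C, aeval_C]
    rfl
  have eX : ∀ l, Y l = φ (X l) := fun l => by rw [hφ, map_X, aeval_X]
  refine ⟨Λ, k, W', inferInstance, p, inferInstance, inferInstance, inferInstance, inferInstance,
    inferInstance,
    { f := f
      W := W
      π := π
      Φ := Φ
      P₀ := P₀
      π_one := by rw [← φ.map_one, hπ, map_one]
      π_add := hadd
      π_mul := hmul
      c_mem := fun a => by rw [eC]; exact hmem _
      π_c := fun a => by rw [eC, hπ, hψ, map_C, aeval_C]
      Y_mem := fun l => by rw [eX]; exact hmem _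
      π_Y := fun l => by rw [eX, hπ, hψ, map_X, aeval_X]
      map_P := hP₀
      Φ_P := hΦP
      P_ne := fun h => hm'.ne_zero (by rw [← hΦP, h, map_zero])
      int := fun Q hQ hQW => ?_ }, fun c hcC => h1 c (by simp [T, hcC]), fun s hs => ?_⟩
  · obtain ⟨N, r, hr⟩ := (hW _).1 hQW
    rw [hφd, hφ, ← map_pow, ← map_mul, ← sub_eq_zero, ← map_sub, ker,
      ← map_dvd_iff (optionEquivLeft ℂ (Fin n)), ← Polynomial.modByMonic_eq_zero_iff_dvd monic,
      map_sub, Polynomial.sub_modByMonic, sub_eq_zero, mul_comm, map_mul, map_pow, red_opt_rename,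
      ← Polynomial.C_pow, ← Polynomial.smul_eq_C_mul, Polynomial.smul_modByMonic,
      (Polynomial.modByMonic_eq_self_iff monic).2 (Polynomial.degree_lt_degree (by
        rwa [natDegree_optionEquivLeft, natDegree_optionEquivLeft])), ← hP₀, red_opt_map,
      red_opt_map, ← Polynomial.map_modByMonic _ hm, Polynomial.smul_eq_C_mul, Polynomial.C_pow,
      ← red_opt_rename, ← map_pow, ← map_mul] at hr
    obtain ⟨g, hg⟩ := (optionEquivLeft Λ (Fin n)).surjective
      (optionEquivLeft Λ (Fin n) r %ₘ optionEquivLeft Λ (Fin n) P₀)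
    rw [← hg, ← red_opt_map] at hr
    have e := (optionEquivLeft ℂ (Fin n)).injective hr
    refine red_lift Λ Q (red_div_pow Λ _ hD hD0 N Q fun m => ?_)
    rw [e, coeff_map]
    exact (coeff m g).2
  · obtain ⟨q₀, hq₀⟩ := red_lift Λ (q s) (hc _ (sq s hs))
    exact (hW s).2 ⟨1, q₀, by rw [pow_one, hφd, hφ, hq₀, hq s hs]⟩

end

end Pool.Agent.Lib.MP_bc213e_ag.KBB
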