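import Pool.Agent.Lib.MP_bc213e_ag.KBB.Defs
import Pool.Agent.Lib.MP_bc213e_ag.Hyp.PLC

/-! A certificate for the unsolvability of a linear system. -/

namespace Pool.Agent.Lib.MP_bc213e_ag.KBB

open Pool.Agent.Lib.MP_bc213e_ag.Hyp MvPolynomial

noncomputable section

/-- A linear functional with finitely many coefficients certifies that `b` is not a combination of
the vectors `v i`, also after reduction. -/
theorem trf_cert {σ I κ : Type} [Fintype I] [Fintype κ] (v : I → κ → MvPolynomial σ ℂ)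
    (b : κ → MvPolynomial σ ℂ) (h : ¬ ∃ ξ : I → ℂ, ∀ l, ∑ i, ξ i • v i l = b l) :
    ∃ C : Finset ℂ, ∀ Λ : Subring ℂ, (∀ c ∈ C, c ∈ Λ) → ∀ (k : Type) [Field k] (f : Λ →+* k)
      (v₀ : I → κ → MvPolynomial σ Λ) (b₀ : κ → MvPolynomial σ Λ),
      (∀ i l, map Λ.subtype (v₀ i l) = v i l) → (∀ l, map Λ.subtype (b₀ l) = b l) →
      ¬ ∃ ξ : I → k, ∀ l, ∑ i, ξ i • map f (v₀ i l) = map f (b₀ l) := by
  classical
  have hb : b ∉ Submodule.span ℂ (Set.range v) := by
    intro hb
    obtain ⟨ξ, hξ⟩ := (Submodule.mem_span_range_iff_exists_fun ℂ).1 hb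
    exact h ⟨ξ, fun l => by rw [← hξ, Finset.sum_apply]; rfl⟩
  obtain ⟨φ₀, h0, h1⟩ := Submodule.exists_dual_map_eq_bot_of_notMem hb inferInstance
  let φ : (κ → MvPolynomial σ ℂ) →ₗ[ℂ] ℂ := (φ₀ b)⁻¹ • φ₀
  have hφb : φ b = 1 := inv_mul_cancel₀ h0
  have hφv : ∀ i, φ (v i) = 0 := fun i => by
    have h2 : φ₀ (v i) ∈ (Submodule.span ℂ (Set.range v)).map φ₀ :=
      Submodule.mem_map_of_mem (Submodule.subset_span ⟨i, rfl⟩)
    rw [h1, Submodule.mem_bot] at h2
    change (φ₀ b)⁻¹ * φ₀ (v i) = 0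
    rw [h2, mul_zero]
  let M : Finset (σ →₀ ℕ) := Finset.univ.biUnion fun l =>
    (b l).support ∪ Finset.univ.biUnion fun i => (v i l).support
  let c : κ → (σ →₀ ℕ) → ℂ := fun l m => φ (Pi.single l (monomial m 1))
  have hφ : ∀ w : κ → MvPolynomial σ ℂ, (∀ l, (w l).support ⊆ M) →
      φ w = ∑ l, ∑ m ∈ M, coeff m (w l) * c l m := fun w hw => by
    conv_lhs => rw [← Finset.univ_sum_single w, map_sum]
    refine Finset.sum_congr rfl fun l _ => ?_
    have e : w l = ∑ m ∈ M, coeff m (w l) • monomial m (1 : ℂ) := by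
      conv_lhs => rw [(w l).as_sum]
      rw [Finset.sum_subset (hw l) fun m _ hm => by rw [notMem_support_iff.1 hm, map_zero]]
      exact Finset.sum_congr rfl fun m _ => by rw [smul_monomial, smul_eq_mul, mul_one]
    have e' : φ (Pi.single l (w l)) =
        (φ ∘ₗ LinearMap.single ℂ (fun _ : κ => MvPolynomial σ ℂ) l) (w l) := rfl
    rw [e']
    conv_lhs => rw [e, map_sum]
    exact Finset.sum_congr rfl fun m _ => by rw [map_smul]; rfl
  refine ⟨(Finset.univ ×ˢ M).image fun p => c p.1 p.2, ?_⟩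
  rintro Λ hΛ k _ f v₀ b₀ hv hb₀ ⟨ξ, hξ⟩
  let c₀ : κ → M → Λ := fun l m =>
    ⟨c l m, hΛ _ (Finset.mem_image.2 ⟨(l, m), Finset.mem_product.2 ⟨Finset.mem_univ _, m.2⟩, rfl⟩)⟩
  have key : ∀ (w₀ : κ → MvPolynomial σ Λ) (r : Λ), (∀ l, (map Λ.subtype (w₀ l)).support ⊆ M) →
      φ (fun l => map Λ.subtype (w₀ l)) = r →
      ∑ l, ∑ m : M, coeff m.1 (map f (w₀ l)) * f (c₀ l m) = f r := fun w₀ r hw hr => by
    have e : ∑ l, ∑ m : M, coeff m.1 (w₀ l) * c₀ l m = r := by
      apply Λ.subtype_injective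
      rw [hφ _ hw] at hr
      rw [map_sum]
      refine Eq.trans (Finset.sum_congr rfl fun l _ => ?_) hr
      rw [map_sum, ← Finset.sum_coe_sort M]
      exact Finset.sum_congr rfl fun m _ => by rw [map_mul, coeff_map]; rfl
    rw [← e]
    simp only [map_sum, map_mul, coeff_map]
  have kb := key b₀ 1 (fun l => by
    rw [hb₀]
    exact fun m hm => Finset.mem_biUnion.2 ⟨l, Finset.mem_univ _, Finset.mem_union_left _ hm⟩)
    (by simp only [hb₀]; exact hφb)
  have kv := fun i => key (v₀ i) 0 (fun l => by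
    rw [hv]
    exact fun m hm => Finset.mem_biUnion.2 ⟨l, Finset.mem_univ _, Finset.mem_union_right _
      (Finset.mem_biUnion.2 ⟨i, Finset.mem_univ _, hm⟩)⟩) (by simp only [hv]; exact hφv i)
  rw [map_one] at kb
  refine one_ne_zero (kb.symm.trans ?_)
  simp only [← hξ, coeff_sum, coeff_smul, smul_eq_mul, Finset.sum_mul, mul_assoc]
  have e : ∀ l, ∑ m : M, ∑ i, ξ i * (coeff m.1 (map f (v₀ i l)) * f (c₀ l m)) =
      ∑ i, ξ i * ∑ m : M, coeff m.1 (map f (v₀ i l)) * f (c₀ l m) := fun l => by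
    rw [Finset.sum_comm]
    simp only [Finset.mul_sum]
  simp only [e]
  rw [Finset.sum_comm]
  refine Finset.sum_eq_zero fun i _ => ?_
  rw [← Finset.mul_sum, kv, map_zero, mul_zero]

/-- The vectors of the linear system. -/
def trf_V {σ J κ R : Type} [CommRing R] [DecidableEq κ] (s s' : Finset (σ →₀ ℕ))
    (P : MvPolynomial σ R) (a : J → κ → MvPolynomial σ R) :
    (J × s) ⊕ (κ × s') → κ → MvPolynomial σ R :=
  Sum.elim (fun p l => a p.1 l * monomial p.2.1 1)
    fun p l => if p.1 = l then P * monomial p.2.1 1 else 0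

theorem trf_V_map {σ J κ R R' : Type} [CommRing R] [CommRing R'] [DecidableEq κ] (φ : R →+* R')
    (s s' : Finset (σ →₀ ℕ)) (P : MvPolynomial σ R) (a : J → κ → MvPolynomial σ R)
    (i : (J × s) ⊕ (κ × s')) (l : κ) :
    map φ (trf_V s s' P a i l) = trf_V s s' (map φ P) (fun ε l => map φ (a ε l)) i l := by
  rcases i with p | p
  · simp [trf_V]
  · simp only [trf_V, Sum.elim_inr]
    split_ifs <;> simp

theorem trf_V_sum {σ J κ R : Type} [CommRing R] [Fintype J] [Fintype κ] [DecidableEq κ]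
    (s s' : Finset (σ →₀ ℕ)) (P : MvPolynomial σ R) (a : J → κ → MvPolynomial σ R)
    (ξ : (J × s) ⊕ (κ × s') → R) (l : κ) :
    ∑ i, ξ i • trf_V s s' P a i l = ∑ ε, a ε l * ∑ m : s, monomial m.1 (ξ (.inl (ε, m))) +
      P * ∑ m : s', monomial m.1 (ξ (.inr (l, m))) := by
  rw [Fintype.sum_sum_type, Fintype.sum_prod_type, Fintype.sum_prod_type,
    Finset.sum_eq_single l (fun l' _ hl => by simp [trf_V, hl]) (by simp)]
  simp only [trf_V, Sum.elim_inl, Sum.elim_inr, if_true, Finset.mul_sum, ← mul_smul_comm,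
    smul_monomial, smul_eq_mul, mul_one]

theorem trf_coeff {σ R : Type} [CommRing R] {s : Finset (σ →₀ ℕ)} {u : MvPolynomial σ R}
    (h : u.support ⊆ s) : ∑ m : s, monomial m.1 (coeff m.1 u) = u := by
  rw [Finset.sum_coe_sort s fun m => monomial m (coeff m u)]
  conv_rhs => rw [u.as_sum]
  exact (Finset.sum_subset h fun m _ hm => by rw [notMem_support_iff.1 hm, map_zero]).symm

theorem trf_deg {σ k : Type} [Field k] {Λ : Subring ℂ} (f : Λ →+* k) (q : MvPolynomial σ Λ) :
    (map f q).totalDegree ≤ (map Λ.subtype q).totalDegree := by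
  rw [totalDegree, totalDegree, support_map_of_injective q Λ.subtype_injective]
  exact Finset.sup_mono (support_map_subset f q)

/-- Sketch: let `M = sup (deg (a ε l) + N, deg (b l))`. The unknowns are the coefficients of the
`u ε` (degree `≤ N`) and of the quotients `h l` (degree `≤ M`). The `ℂ`-span `S` of the finitely many
vectors `l ↦ a ε l * monomial m 1` and `Pi.single l (P * monomial m 1)` does not contain `b`, and
everything lies in the finite dimensional space of vectors with exponents in a finite set; so there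
are finitely many `c l m : ℂ` such that `φ v = ∑ c l m * coeff m (v l)` kills these vectors and
`φ b = 1` (`Submodule.exists_dual_map_eq_bot_of_notMem` or `exists_cert`). `C` = the `c l m`. These
identities hold in `Λ`, hence in `k`; over `k` the quotients have degree `≤ M`
(`totalDegree_mul_of_isDomain`, degrees do not increase under `map`). See `Hyp/FT2.lean`. -/
theorem trf {σ J κ : Type} [Fintype σ] [Fintype J] [Fintype κ] (P : MvPolynomial σ ℂ) (N : ℕ)
    (a : J → κ → MvPolynomial σ ℂ) (b : κ → MvPolynomial σ ℂ)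
    (h : ¬ ∃ u : J → MvPolynomial σ ℂ, (∀ ε, (u ε).totalDegree ≤ N) ∧
      ∀ l, P ∣ ∑ ε, a ε l * u ε - b l) :
    ∃ C : Finset ℂ, ∀ Λ : Subring ℂ, (∀ c ∈ C, c ∈ Λ) → ∀ (k : Type) [Field k] (f : Λ →+* k)
      (P₀ : MvPolynomial σ Λ) (a₀ : J → κ → MvPolynomial σ Λ) (b₀ : κ → MvPolynomial σ Λ),
      map Λ.subtype P₀ = P → (∀ ε l, map Λ.subtype (a₀ ε l) = a ε l) →
      (∀ l, map Λ.subtype (b₀ l) = b l) → map f P₀ ≠ 0 →
      ¬ ∃ u : J → MvPolynomial σ k, (∀ ε, (u ε).totalDegree ≤ N) ∧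
        ∀ l, map f P₀ ∣ ∑ ε, map f (a₀ ε l) * u ε - map f (b₀ l) := by
  classical
  let D : ℕ := (Finset.univ.sup fun l => Finset.univ.sup fun ε => (a ε l).totalDegree + N) ⊔
    Finset.univ.sup fun l => (b l).totalDegree
  let s : Finset (σ →₀ ℕ) := (Finsupp.finite_of_degree_le N).toFinset
  let s' : Finset (σ →₀ ℕ) := (Finsupp.finite_of_degree_le D).toFinset
  obtain ⟨C, hC⟩ := trf_cert (trf_V s s' P a) b (by
    rintro ⟨ξ, hξ⟩
    refine h ⟨fun ε => ∑ m : s, monomial m.1 (ξ (.inl (ε, m))), fun ε => ?_, fun l => ?_⟩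
    · exact totalDegree_finsetSum_le fun m _ => (totalDegree_monomial_le _ _).trans
        ((Finsupp.finite_of_degree_le N).mem_toFinset.1 m.2)
    · rw [← hξ l, trf_V_sum, sub_add_cancel_left]
      exact (dvd_neg.2 (Dvd.intro _ rfl)))
  refine ⟨C, ?_⟩
  rintro Λ hΛ k _ f P₀ a₀ b₀ hP ha hb hP0 ⟨u, hu, hd⟩
  choose w hw using hd
  refine hC Λ hΛ k f (trf_V s s' P₀ a₀) b₀ (fun i l => by simp only [trf_V_map, hP, ha]) hb
    ⟨Sum.elim (fun p => coeff p.2.1 (u p.1)) fun p => coeff p.2.1 (-w p.1), fun l => ?_⟩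
  have h1 : ∀ ε, (u ε).support ⊆ s := fun ε m hm =>
    (Set.Finite.mem_toFinset _).2 ((le_totalDegree hm).trans (hu ε))
  have h2 : (-w l).support ⊆ s' := by
    intro m hm
    refine (Set.Finite.mem_toFinset _).2 ((le_totalDegree hm).trans ?_)
    rw [totalDegree_neg]
    by_cases h0 : w l = 0
    · simp [h0]
    refine (totalDegree_le_of_dvd_of_isDomain (Dvd.intro_left _ rfl) (mul_ne_zero hP0 h0)).trans ?_
    rw [← hw]
    refine (totalDegree_sub _ _).trans (max_le_max ?_ ?_)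
    · refine totalDegree_finsetSum_le fun ε _ => (totalDegree_mul _ _).trans ?_
      refine (add_le_add ((trf_deg f _).trans_eq (by rw [ha])) (hu ε)).trans ?_
      exact (Finset.le_sup (f := fun ε => (a ε l).totalDegree + N) (Finset.mem_univ ε)).trans
        (Finset.le_sup (f := fun l => Finset.univ.sup fun ε => (a ε l).totalDegree + N)
          (Finset.mem_univ l))
    · exact ((trf_deg f _).trans_eq (by rw [hb])).trans
        (Finset.le_sup (f := fun l => (b l).totalDegree) (Finset.mem_univ l))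
  simp only [trf_V_map]
  rw [trf_V_sum]
  simp only [Sum.elim_inl, Sum.elim_inr, trf_coeff (h1 _), trf_coeff h2]
  rw [mul_neg, ← hw]
  ring

end

end Pool.Agent.Lib.MP_bc213e_ag.KBB
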