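import Pool.Agent.Lib.MP_bc213e_ag.KBB.FibP
import Pool.Agent.Lib.MP_bc213e_ag.KBB.Trf
import Pool.Agent.Lib.MP_bc213e_ag.KBB.Red
import Pool.Agent.Lib.MP_bc213e_ag.KBB.Fib0a

/-! Transfer to characteristic zero. -/

namespace Pool.Agent.Lib.MP_bc213e_ag.KBB

open Pool.Agent.Lib.MP_bc213e_ag.Hyp MvPolynomial

noncomputable section

section sys

variable {ι R R' : Type} [DecidableEq ι] [CommRing R] [CommRing R']

/-- The matrix of the linear system. -/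
def fib0_a (Q : ι ⊕ ι ⊕ ι × ι × ι → R) (ε : ι × ι) : (ι × ι × ι) ⊕ (ι × ι × ι) → R
  | .inl (i, j, j') => (if ε = (i, j) then Q (.inr (.inl j')) else 0) -
      if ε = (i, j') then Q (.inr (.inl j)) else 0
  | .inr (i, l, j) => (if ε = (l, j) then Q (.inl i) else 0) - if ε = (i, j) then Q (.inl l) else 0

/-- The right hand side of the linear system. -/
def fib0_b (G : R) (Q : ι ⊕ ι ⊕ ι × ι × ι → R) : (ι × ι × ι) ⊕ (ι × ι × ι) → R
  | .inl _ => 0
  | .inr p => G * Q (.inr (.inr p))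

theorem fib0_map_a (φ : R →+* R') (Q : ι ⊕ ι ⊕ ι × ι × ι → R) (ε : ι × ι)
    (l : (ι × ι × ι) ⊕ (ι × ι × ι)) : φ (fib0_a Q ε l) = fib0_a (fun z => φ (Q z)) ε l := by
  rcases l with ⟨i, j, j'⟩ | ⟨i, l, j⟩ <;> simp only [fib0_a, map_sub, apply_ite φ, map_zero]

omit [DecidableEq ι] in
theorem fib0_map_b (φ : R →+* R') (G : R) (Q : ι ⊕ ι ⊕ ι × ι × ι → R)
    (l : (ι × ι × ι) ⊕ (ι × ι × ι)) : φ (fib0_b G Q l) = fib0_b (φ G) (fun z => φ (Q z)) l := by
  rcases l with p | p <;> simp only [fib0_b, map_mul, map_zero]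

variable {k W κ : Type} [Field k] [CommRing W] [Algebra k W] [Fintype κ] {n : ℕ}

/-- The elements that need a common denominator. -/
def fib0_z (d : Dat k W ι κ n) : ι ⊕ ι ⊕ ι × ι × ι → W
  | .inl i => (d.x i : W) ^ d.c
  | .inr (.inl j) => d.w j
  | .inr (.inr (i, l, j)) => ((d.x i : W) * d.x l) ^ d.c * (d.cc l - d.cc i) * d.w j

theorem fib0_iff [Fintype ι] (d : Dat k W ι κ n) (ker : ∀ q, aeval d.Y q = 0 ↔ d.P ∣ q) {D : W}
    {Q : ι ⊕ ι ⊕ ι × ι × ι → MvPolynomial (Option (Fin n)) k}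
    (hQ : ∀ z, aeval d.Y (Q z) = D * fib0_z d z) (u : ι × ι → MvPolynomial (Option (Fin n)) k) :
    (∀ l, d.P ∣ ∑ ε, fib0_a Q ε l * u ε - fib0_b (d.E * pderiv none d.P) Q l) ↔
      (∀ i j j', D * (d.w j' * aeval d.Y (u (i, j)) - d.w j * aeval d.Y (u (i, j'))) = 0) ∧
      ∀ i l j, D * ((d.x i : W) ^ d.c * aeval d.Y (u (l, j)) -
        (d.x l : W) ^ d.c * aeval d.Y (u (i, j)) - aeval d.Y (d.E * pderiv none d.P) *
          (((d.x i : W) * d.x l) ^ d.c * (d.cc l - d.cc i) * d.w j)) = 0 := by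
  simp only [Sum.forall, Prod.forall, ← ker, fib0_a, fib0_b, sub_mul, ite_mul, zero_mul,
    Finset.sum_sub_distrib, Finset.sum_ite_eq', Finset.mem_univ, if_true, map_sub, map_zero,
    sub_zero, map_mul (aeval d.Y) (Q _), map_mul (aeval d.Y) _ (Q _), hQ, fib0_z]
  refine and_congr (forall₃_congr fun i j j' => ?_) (forall₃_congr fun i l j => ?_) <;>
    exact Eq.congr_left (by ring)

end sys

variable {K ι κ : Type} [Field K] [Algebra ℂ K] [Fintype ι] [Fintype κ] {n : ℕ}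

theorem fib0_den {Z : Type} [Fintype Z] {Y : Option (Fin n) → K}
    {P : MvPolynomial (Option (Fin n)) ℂ} (monic : (optionEquivLeft ℂ (Fin n) P).Monic)
    (ker : ∀ q, aeval Y q = 0 ↔ P ∣ q)
    (den : ∀ z : K, ∃ q ρ : MvPolynomial (Option (Fin n)) ℂ, ρ ≠ 0 ∧ ρ.degreeOf none = 0 ∧
      aeval Y ρ * z = aeval Y q) (z : Z → K) :
    ∃ (D : MvPolynomial (Option (Fin n)) ℂ) (Q : Z → MvPolynomial (Option (Fin n)) ℂ),
      aeval Y D ≠ 0 ∧ ∀ i, aeval Y (Q i) = aeval Y D * z i := by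
  classical
  choose q ρ h0 h1 h2 using fun i => den (z i)
  refine ⟨∏ i, ρ i, fun i => (∏ j ∈ Finset.univ.erase i, ρ j) * q i, ?_, fun i => ?_⟩
  · rw [map_prod, Finset.prod_ne_zero_iff]
    intro i _ h
    have h3 := Polynomial.natDegree_le_of_dvd (map_dvd (optionEquivLeft ℂ (Fin n)) ((ker _).1 h))
      ((map_ne_zero_iff _ (optionEquivLeft ℂ (Fin n)).injective).2 (h0 i))
    rw [natDegree_optionEquivLeft _ (ρ i), h1, Nat.le_zero, monic.natDegree_eq_zero,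
      map_eq_one_iff _ (optionEquivLeft ℂ (Fin n)).injective] at h3
    have h4 := (ker 1).2 (h3 ▸ dvd_rfl)
    rw [map_one] at h4
    exact one_ne_zero h4
  · rw [map_mul, ← h2, ← mul_assoc, ← map_mul, Finset.prod_erase_mul _ _ (Finset.mem_univ i)]

section red

variable {Y : Option (Fin n) → K} {P : MvPolynomial (Option (Fin n)) ℂ} {Λ : Subring ℂ}
  {k W' : Type} [Field k] [CommRing W'] [Algebra k W'] (R : Red Y P Λ k W')

/-- The reduction as a ring homomorphism. -/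
def fib0_hom : R.W →+* W' where
  toFun w := R.π w
  map_one' := R.π_one
  map_mul' a b := R.π_mul a a.2 b b.2
  map_zero' := by
    have h := R.π_add 0 (zero_mem _) 0 (zero_mem _)
    rw [add_zero, left_eq_add] at h
    exact h
  map_add' a b := R.π_add a a.2 b b.2

theorem fib0_pow {a : K} (ha : a ∈ R.W) (c : ℕ) : R.π (a ^ c) = R.π a ^ c :=
  map_pow (fib0_hom R) ⟨a, ha⟩ c

theorem fib0_sub {a b : K} (ha : a ∈ R.W) (hb : b ∈ R.W) : R.π (a - b) = R.π a - R.π b :=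
  map_sub (fib0_hom R) ⟨a, ha⟩ ⟨b, hb⟩

end red

theorem fib0_lift {σ : Type} {Λ : Subring ℂ} {q : MvPolynomial σ ℂ} (h : ∀ c ∈ q.coeffs, c ∈ Λ) :
    ∃ q₀ : MvPolynomial σ Λ, map Λ.subtype q₀ = q :=
  mem_range_map_iff_coeffs_subset.2 fun c hc => ⟨⟨c, h c hc⟩, rfl⟩

/-- Sketch: by contradiction. Choose a common denominator `D₁ ≠ 0` (`den`) and polynomials with
values `D₁ * x i ^ c`, `D₁ * w j`, `D₁ * (x i x l) ^ c (cc l - cc i) w j`; `Sol` is equivalent to a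
system as in `trf` with unknowns `ι × ι` and equations `(ι × ι × ι) ⊕ (ι × ι × ι)` (`ker`;
`aeval Y D₁ ≠ 0`). Apply `trf`, `Dat.reduce`, `exists_red` (put all coefficients into `C`), `fib`,
and multiply the equations in the fibre by the reduction of `D₁` (`Red.map_aeval`, `Fib.ker`). The
degree of `P` does not increase under reduction. -/
theorem fib0 (d : Dat ℂ K ι κ n) (monic : (optionEquivLeft ℂ (Fin n) d.P).Monic)
    (ker : ∀ q, aeval d.Y q = 0 ↔ d.P ∣ q)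
    (rep' : ∀ μ, ∀ r ∈ Vs ℂ d.x ^ μ, ∃ q : MvPolynomial (Option (Fin n)) ℂ,
      q.totalDegree ≤ μ + d.c₀ ∧ q.degreeOf none < d.P.degreeOf none ∧
      aeval d.Y q = aeval d.Y d.E * r)
    (den : ∀ z : K, ∃ q ρ : MvPolynomial (Option (Fin n)) ℂ, ρ ≠ 0 ∧ ρ.degreeOf none = 0 ∧
      aeval d.Y ρ * z = aeval d.Y q) : d.Sol := by
  classical
  by_contra hcon
  obtain ⟨D, Q, hD, hQ⟩ := fib0_den monic ker den (fib0_z d)
  obtain ⟨C₁, hC₁⟩ := trf d.P (d.a + d.c + d.e + (n + 2 * d.c₀ + 2 * d.P.totalDegree + 2))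
    (fib0_a Q) (fib0_b (d.E * pderiv none d.P) Q) fun ⟨u, h1, h2⟩ => by
      obtain ⟨h3, h4⟩ := (fib0_iff d ker hQ u).1 h2
      exact hcon ⟨fun i j => u (i, j), fun i j => h1 _,
        fun i j j' => sub_eq_zero.1 ((mul_eq_zero.1 (h3 i j j')).resolve_left hD),
        fun i l j => sub_eq_zero.1 ((mul_eq_zero.1 (h4 i l j)).resolve_left hD)⟩
  obtain ⟨S, C₂, hC₂⟩ := d.reduce rep'
  obtain ⟨Λ, k, W', _, p, _, _, _, _, _, R, hC, hS⟩ := exists_red d.Y d.P monic ker den S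
    (C₁ ∪ C₂ ∪ D.coeffs ∪ Finset.univ.biUnion fun z => (Q z).coeffs)
  simp only [Finset.mem_union, Finset.mem_biUnion, Finset.mem_univ, true_and] at hC
  obtain ⟨d', E₀, hE, hE', hY, hP, ha, hc, he, hc₀, hx, hw, hcc⟩ :=
    hC₂ Λ k W' R (fun c h => hC c (.inl (.inl (.inr h)))) hS
  obtain ⟨D₀, rfl⟩ := fib0_lift (Λ := Λ) fun c h => hC c (.inl (.inr h))
  choose Q₀ hQ₀ using fun z => fib0_lift (Λ := Λ) fun c h => hC c (.inr ⟨z, h⟩)
  obtain ⟨σ, h1, h2, h3⟩ := fib p d' R.Φ hY.symm hP.symm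
  have hz : ∀ z, fib0_z d z ∈ R.W ∧ fib0_z d' z = R.π (fib0_z d z) := by
    rintro (i | j | ⟨i, l, j⟩)
    · exact ⟨pow_mem (hx i).1 _, by
        simp only [fib0_z]
        rw [fib0_pow R (hx i).1, (hx i).2, hc]⟩
    · exact hw j
    · have m1 := mul_mem (hx i).1 (hx l).1
      have m2 := sub_mem (hcc l).1 (hcc i).1
      have m3 := mul_mem (pow_mem m1 d.c) m2
      refine ⟨mul_mem m3 (hw j).1, ?_⟩
      simp only [fib0_z]
      rw [R.π_mul _ m3 _ (hw j).1, R.π_mul _ (pow_mem m1 _) _ m2, fib0_pow R m1,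
        R.π_mul _ (hx i).1 _ (hx l).1, fib0_sub R (hcc l).1 (hcc i).1, (hx i).2, (hx l).2,
        (hcc i).2, (hcc l).2, (hw j).2, hc]
  have hQ' : ∀ z, aeval d'.Y (map R.f (Q₀ z)) =
      R.π (aeval d.Y (map Λ.subtype D₀)) * fib0_z d' z := fun z => by
    rw [hY, ← (R.map_aeval _).2, hQ₀, hQ, R.π_mul _ (R.map_aeval _).1 _ (hz z).1, (hz z).2]
  have hdeg : d'.P.totalDegree ≤ d.P.totalDegree := by
    rw [hP, R.Φ_P, ← congrArg totalDegree R.map_P, totalDegree, totalDegree,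
      support_map_of_injective _ Λ.subtype_injective]
    exact Finset.sup_mono (support_map_subset _ _)
  refine hC₁ Λ (fun c h => hC c (.inl (.inl (.inl h)))) k R.f R.P₀ (fib0_a Q₀)
    (fib0_b (E₀ * pderiv none R.P₀) Q₀) R.map_P (fun ε l => ?_) (fun l => ?_) (R.Φ_P ▸ R.P_ne)
    ⟨fun ε => σ ε.1 ε.2, fun ε => (h1 _ _).trans (by omega), fun l => ?_⟩
  · rw [fib0_map_a, funext hQ₀]
  · rw [fib0_map_b, funext hQ₀, map_mul, hE, ← pderiv_map, R.map_P]
  · have h4 := (fib0_iff d' (fun q => by rw [hY, hP, R.Φ.ker]) hQ' fun ε => σ ε.1 ε.2).2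
      ⟨fun i j j' => by rw [h2 i j j', sub_self, mul_zero],
        fun i l j => by rw [h3 i l j, sub_self, mul_zero]⟩ l
    simp only [fib0_map_a, fib0_map_b, map_mul, ← pderiv_map, ← hE', ← R.Φ_P, ← hP]
    exact h4

end

end Pool.Agent.Lib.MP_bc213e_ag.KBB
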