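import Pool.Agent.Lib.MP_bc213e_ag.KBB.Defs
import Pool.Agent.Lib.MP_4287a9_ag.SerC

/-! Serre vanishing, uniform along a globally generated line bundle. -/

namespace Pool.Agent.Lib.MP_bc213e_ag.KBB

open Pool.Agent.Lib.MP_bc213e_ag.Hyp MvPolynomial

noncomputable section

variable {k W ι : Type} [Field k] [CommRing W] [Algebra k W] [Fintype ι]

/-- Polynomials whose coefficients are local sections of the powers of a line bundle. -/
def uvf_S (R : Subalgebra k W) (γ : Wˣ) : Subalgebra k (Polynomial W) where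
  carrier := {p | ∀ u, p.coeff u * (((γ ^ u)⁻¹ : Wˣ) : W) ∈ R}
  add_mem' := fun ha hb u => by
    rw [Polynomial.coeff_add, add_mul]
    exact add_mem (ha u) (hb u)
  mul_mem' := fun {a b} ha hb u => by
    rw [Polynomial.coeff_mul, Finset.sum_mul]
    refine sum_mem fun p hp => ?_
    rw [← Finset.HasAntidiagonal.mem_antidiagonal.1 hp, pow_add, mul_inv, Units.val_mul, mul_mul_mul_comm]
    exact mul_mem (ha _) (hb _)
  algebraMap_mem' := fun c u => by
    rw [Polynomial.algebraMap_apply, Polynomial.coeff_C]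
    split_ifs with h
    · rw [h, pow_zero, inv_one, Units.val_one, mul_one]
      exact R.algebraMap_mem c
    · rw [zero_mul]
      exact zero_mem _

theorem uvf_C_mem {R : Subalgebra k W} (γ : Wˣ) {r : W} (hr : r ∈ R) :
    Polynomial.C r ∈ uvf_S R γ := fun u => by
  rw [Polynomial.coeff_C]
  split_ifs with h
  · rwa [h, pow_zero, inv_one, Units.val_one, mul_one]
  · rw [zero_mul]
    exact zero_mem _

theorem uvf_CX_mem {R : Subalgebra k W} {γ : Wˣ} {r : W} (hr : r * ((γ⁻¹ : Wˣ) : W) ∈ R) :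
    Polynomial.C r * Polynomial.X ∈ uvf_S R γ := fun u => by
  rw [Polynomial.coeff_C_mul_X]
  split_ifs with h
  · rwa [h, pow_one]
  · rw [zero_mul]
    exact zero_mem _

/-- A twist of a subalgebra. -/
def uvf_N {T S : Subalgebra k (Polynomial W)} (h : T ≤ S) (w : Wˣ) :
    Submodule T (Polynomial W) where
  carrier := {p | Polynomial.C ((w⁻¹ : Wˣ) : W) * p ∈ S}
  add_mem' := fun ha hb => by
    rw [Set.mem_ofPred_eq, mul_add]
    exact add_mem ha hb
  zero_mem' := by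
    rw [Set.mem_ofPred_eq, mul_zero]
    exact zero_mem _
  smul_mem' := fun c p hp => by
    rw [Set.mem_ofPred_eq, Subalgebra.smul_def, smul_eq_mul, mul_left_comm]
    exact mul_mem (h c.2) hp

theorem uvf_N_mul {T S : Subalgebra k (Polynomial W)} (h : T ≤ S) {w w' : Wˣ}
    {P P' : Submodule T (Polynomial W)} (h1 : P ≤ uvf_N h w) (h2 : P' ≤ uvf_N h w') :
    P * P' ≤ uvf_N h (w * w') := by
  refine Submodule.mul_le.2 fun a ha b hb => ?_
  change _ * _ ∈ S
  rw [mul_inv, Units.val_mul, map_mul, mul_mul_mul_comm]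
  exact mul_mem (h1 ha) (h2 hb)

theorem uvf_N_pow {T S : Subalgebra k (Polynomial W)} (h : T ≤ S) {w : Wˣ}
    {P : Submodule T (Polynomial W)} (h1 : P ≤ uvf_N h w) (n : ℕ) : P ^ n ≤ uvf_N h (w ^ n) := by
  induction n with
  | zero =>
    rw [pow_zero, pow_zero, Submodule.one_le]
    change _ * _ ∈ S
    simp
  | succ n ih =>
    rw [pow_succ, pow_succ]
    exact uvf_N_mul h ih h1

/-- The degree zero part of a localisation. -/
def uvf_Q {T : Subalgebra k (Polynomial W)} {V : Submodule T (Polynomial W)} {z : Polynomial W}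
    (hz : z ∈ V) : Subalgebra k (Polynomial W) where
  carrier := {p | ∃ n : ℕ, z ^ n * p ∈ V ^ n}
  add_mem' := by
    rintro a b ⟨n, hn⟩ ⟨m, hm⟩
    refine ⟨n + m, ?_⟩
    have h1 := Submodule.mul_mem_mul hn (Submodule.pow_mem_pow V hz m)
    have h2 := Submodule.mul_mem_mul (Submodule.pow_mem_pow V hz n) hm
    rw [← pow_add] at h1 h2
    convert add_mem h1 h2 using 1
    ring
  mul_mem' := by
    rintro a b ⟨n, hn⟩ ⟨m, hm⟩
    refine ⟨n + m, ?_⟩
    have h1 := Submodule.mul_mem_mul hn hm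
    rwa [← pow_add, mul_mul_mul_comm, ← pow_add] at h1
  algebraMap_mem' := fun c => ⟨0, by
    rw [pow_zero, pow_zero, one_mul]
    exact Submodule.mem_one.2 ⟨⟨_, T.algebraMap_mem c⟩, rfl⟩⟩

omit [Fintype ι] in
theorem uvf_mono (x : ι → Wˣ) (i l : ι) {w : Wˣ} {e e' : ℕ} (h : e ≤ e')
    (hw : ((w * (x l * (x i)⁻¹) ^ e : Wˣ) : W) ∈ chartR k x i) :
    ((w * (x l * (x i)⁻¹) ^ e' : Wˣ) : W) ∈ chartR k x i := by
  obtain ⟨n, rfl⟩ := Nat.exists_eq_add_of_le h
  have h1 : ((x l * (x i)⁻¹ : Wˣ) : W) ∈ chartR k x i := Algebra.subset_adjoin ⟨l, rfl⟩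
  rw [pow_add, ← mul_assoc, Units.val_mul, Units.val_pow_eq_pow_val]
  exact mul_mem hw (pow_mem h1 n)

theorem uvf_fin {κ : Type} [Fintype κ] {m : ℕ} (x γ γ' : Fin m → Wˣ) (β : κ → W)
    (cart : ∀ i j, ∃ e : ℕ, ((γ' i * (γ' j)⁻¹ * (x i * (x j)⁻¹) ^ e : Wˣ) : W) ∈ chartR k x j)
    (hβ : ∀ l i, β l * (((γ i)⁻¹ : Wˣ) : W) ∈ chartR k x i)
    (gen : ∀ i, ∃ r : κ → W, (∀ l, r l ∈ chartR k x i) ∧ ∑ l, r l * β l = γ i) :
    ∃ j₀ : ℕ, ∀ u j : ℕ, j₀ ≤ j → ∀ c : Fin m → W,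
      (∀ i l, ∃ e : ℕ, (c l - c i) *
        (((γ i ^ u * γ' i * x i ^ j)⁻¹ * (x l * (x i)⁻¹) ^ e : Wˣ) : W) ∈ chartR k x i) →
      ∃ b : W, ∀ i, (c i - b) * (((γ i ^ u * γ' i * x i ^ j)⁻¹ : Wˣ) : W) ∈ chartR k x i := by
  classical
  choose e₀ he₀ using cart
  obtain ⟨e, he⟩ : ∃ e, ∀ i j, e₀ i j ≤ e :=
    ⟨∑ i, ∑ j, e₀ i j, fun i j => (Finset.single_le_sum (f := e₀ i) (fun _ _ => Nat.zero_le _)
      (Finset.mem_univ j)).trans (Finset.single_le_sum (f := fun i => ∑ j, e₀ i j)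
        (fun _ _ => Nat.zero_le _) (Finset.mem_univ i))⟩
  obtain ⟨T, hT⟩ : ∃ T : Subalgebra k (Polynomial W),
    T = Algebra.adjoin k (Set.range fun l => Polynomial.C (β l) * Polynomial.X) := ⟨_, rfl⟩
  have : IsNoetherianRing T :=
    isNoetherianRing_of_fg (Subalgebra.fg_def.2 ⟨_, Set.finite_range _, hT.symm⟩)
  have hTS : ∀ i, T ≤ uvf_S (chartR k x i) (γ i) := fun i => by
    rw [hT]
    refine Algebra.adjoin_le ?_
    rintro _ ⟨l, rfl⟩
    exact uvf_CX_mem (hβ l i)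
  obtain ⟨V, hV⟩ : ∃ V : Submodule T (Polynomial W),
    V = Submodule.span T (Set.range fun i => Polynomial.C (x i : W)) := ⟨_, rfl⟩
  obtain ⟨M₀, hM₀⟩ : ∃ M₀ : Submodule T (Polynomial W), M₀ = Submodule.span T
    (Set.range fun i => Polynomial.C ((γ' i * x i ^ e : Wˣ) : W)) := ⟨_, rfl⟩
  have hxV : ∀ i, Polynomial.C (x i : W) ∈ V := fun i => hV ▸ Submodule.subset_span ⟨i, rfl⟩
  have hM : ∀ i, Polynomial.C ((γ' i * x i ^ e : Wˣ) : W) ∈ M₀ := fun i =>
    hM₀ ▸ Submodule.subset_span ⟨i, rfl⟩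
  have hup : ∀ i n j, ∀ v ∈ V ^ j * M₀, Polynomial.C (x i : W) ^ n * v ∈ V ^ (j + n) * M₀ :=
    fun i n j v hv => by
      rw [add_comm, pow_add, mul_assoc]
      exact Submodule.mul_mem_mul (Submodule.pow_mem_pow V (hxV i) n) hv
  have hA : ∀ i j, V ^ j * M₀ ≤ uvf_N (hTS i) (x i ^ j * (γ' i * x i ^ e)) := fun i j => by
    refine uvf_N_mul _ (uvf_N_pow _ ?_ j) ?_
    · rw [hV, Submodule.span_le]
      rintro _ ⟨l, rfl⟩
      change _ * _ ∈ uvf_S _ _
      rw [← map_mul, mul_comm]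
      exact uvf_C_mem _ (Algebra.subset_adjoin ⟨l, rfl⟩)
    · rw [hM₀, Submodule.span_le]
      rintro _ ⟨l, rfl⟩
      change _ * _ ∈ uvf_S _ _
      rw [← map_mul, ← Units.val_mul]
      refine uvf_C_mem _ ?_
      convert uvf_mono x i l (he l i) (he₀ l i) using 2
      apply Additive.ofMul.injective
      simp only [ofMul_mul, ofMul_inv, ofMul_pow]
      module
  have hB : ∀ i j u (v : W), v * (((γ i ^ u * γ' i * x i ^ (j + e))⁻¹ : Wˣ) : W) ∈ chartR k x i →
      ∃ n, Polynomial.C (x i : W) ^ n * Polynomial.monomial u v ∈ V ^ (j + n) * M₀ := by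
    intro i j u v hv
    have h1 : ∀ r ∈ chartR k x i, Polynomial.C r ∈ uvf_Q (hxV i) := by
      intro r hr
      refine Algebra.adjoin_le (S := (uvf_Q (hxV i)).comap Polynomial.CAlgHom)
        ?_ hr
      rintro _ ⟨l, rfl⟩
      refine ⟨1, ?_⟩
      change _ * Polynomial.C _ ∈ _
      rw [pow_one, pow_one, ← map_mul, ← Units.val_mul, mul_comm (x l), mul_inv_cancel_left]
      exact hxV l
    have h2 : Polynomial.C (γ i : W) * Polynomial.X ∈ uvf_Q (hxV i) := by
      obtain ⟨r, hr, hr'⟩ := gen i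
      rw [← hr', map_sum, Finset.sum_mul]
      refine sum_mem fun l _ => ?_
      rw [map_mul, mul_assoc]
      refine mul_mem (h1 _ (hr l)) ⟨0, ?_⟩
      rw [pow_zero, pow_zero, one_mul]
      exact Submodule.mem_one.2 ⟨⟨_, hT ▸ Algebra.subset_adjoin ⟨l, rfl⟩⟩, rfl⟩
    obtain ⟨n, hn⟩ := mul_mem (h1 _ hv) (pow_mem h2 u)
    refine ⟨n, ?_⟩
    have h3 := hup i j n _ (Submodule.mul_mem_mul hn (hM i))
    rw [add_comm n j] at h3
    convert h3 using 1
    have h4 : (γ i ^ u * γ' i * x i ^ (j + e))⁻¹ * (γ i ^ u * (x i ^ j * (γ' i * x i ^ e))) = 1 := by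
      apply Additive.ofMul.injective
      simp only [ofMul_mul, ofMul_inv, ofMul_pow, ofMul_one]
      module
    have h5 := congrArg (fun w : Wˣ => Polynomial.C (w : W)) h4
    simp only [Units.val_mul _⁻¹, Units.val_mul (γ i ^ u), Units.val_mul (x i ^ j),
      Units.val_pow_eq_pow_val, map_mul, map_pow, Units.val_one, map_one] at h5
    rw [← Polynomial.C_mul_X_pow_eq_monomial, map_mul, mul_pow]
    linear_combination
      (-(Polynomial.C (x i : W) ^ n * Polynomial.C v * Polynomial.X ^ u)) * h5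
  obtain ⟨G, hG⟩ : ∃ G : Fin m → (Polynomial W)ˣ, ∀ a, (G a : Polynomial W) = Polynomial.C (x a : W) :=
    ⟨fun a => Units.map (Polynomial.C : W →+* Polynomial W).toMonoidHom (x a), fun _ => rfl⟩
  obtain ⟨j₀, hj₀⟩ := MP_4287a9_ag.serre G (fun j => V ^ j * M₀)
    (fun a j v hv => by simpa only [hG, smul_eq_mul, pow_one] using hup a 1 j v hv)
    (fun j => Submodule.FG.mul (Submodule.FG.pow (hV ▸ Submodule.fg_span (Set.finite_range _)) j)
      (hM₀ ▸ Submodule.fg_span (Set.finite_range _)))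
    ⟨0, fun j _ v hv => by
      rw [pow_succ', mul_assoc] at hv
      refine Submodule.mul_induction_on hv (fun a ha b hb => ?_) ?_
      · rw [hV] at ha
        obtain ⟨t, rfl⟩ := (Submodule.mem_span_range_iff_exists_fun T).1 ha
        refine ⟨fun a => t a • b, fun a => Submodule.smul_mem _ _ hb, ?_⟩
        rw [Finset.sum_mul]
        exact Finset.sum_congr rfl fun a _ => by
          rw [hG, smul_eq_mul, smul_mul_assoc, mul_smul_comm]
      · rintro _ _ ⟨w, h1, rfl⟩ ⟨w', h2, rfl⟩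
        exact ⟨w + w', fun a => add_mem (h1 a) (h2 a), by
          simp only [Pi.add_apply, smul_add, Finset.sum_add_distrib]⟩⟩
  refine ⟨j₀ + e, fun u j hj c hc => ?_⟩
  obtain ⟨j, rfl⟩ : ∃ j', j = j' + e := ⟨j - e, by omega⟩
  have hpair : ∀ σ : Finset (Fin m), σ.card = 1 + 1 → ∃ a b, a < b ∧ σ = {a, b} := fun σ hσ => by
    obtain ⟨a, b, hab, rfl⟩ := Finset.card_eq_two.1 hσ
    rcases lt_or_gt_of_ne hab with h | h
    · exact ⟨a, b, h, rfl⟩
    · exact ⟨b, a, h, Finset.pair_comm _ _⟩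
  obtain ⟨b, hb1, hb2⟩ := hj₀ j (by omega) 1
    (MP_4287a9_ag.cdel fun σ => ∑ a ∈ σ, Polynomial.monomial u (c a))
    (fun σ hσ => by
      obtain ⟨a, b, hab, rfl⟩ := hpair σ hσ
      obtain ⟨e', he'⟩ := hc a b
      obtain ⟨n, hn⟩ := hB a (j + e') u ((c b - c a) * (x b : W) ^ e') (by
        convert he' using 1
        rw [mul_assoc, ← Units.val_pow_eq_pow_val, ← Units.val_mul]
        congr 2
        apply Additive.ofMul.injective
        simp only [ofMul_mul, ofMul_inv, ofMul_pow]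
        module)
      refine ⟨n + e', ?_⟩
      have h1 := hup a e' _ _ (hup b n _ _ hn)
      rw [MP_4287a9_ag.cdel_pair _ hab, Finset.sum_singleton, Finset.sum_singleton, hσ,
        Finset.prod_pair hab.ne, Units.val_pow_eq_pow_val, Units.val_mul, hG, hG, smul_eq_mul,
        show j + (n + e') * (1 + 1) = j + e' + n + n + e' by ring]
      convert h1 using 1
      simp only [← Polynomial.C_mul_X_pow_eq_monomial, map_mul, map_sub, map_pow]
      ring)
    (fun σ _ => by rw [MP_4287a9_ag.cdel_cdel, Pi.zero_apply])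
  have h1 : ∀ a a', a < a' → c a - (b {a}).coeff u = c a' - (b {a'}).coeff u := fun a a' h => by
    have h2 := hb2 {a, a'} (Finset.card_pair h.ne)
    rw [MP_4287a9_ag.cdel_pair _ h, MP_4287a9_ag.cdel_pair _ h, Finset.sum_singleton,
      Finset.sum_singleton] at h2
    have h3 := congrArg (fun p => Polynomial.coeff p u) h2
    simp only [Polynomial.coeff_sub, Polynomial.coeff_monomial, if_true] at h3
    linear_combination h3
  have h2 : ∀ a a', c a - (b {a}).coeff u = c a' - (b {a'}).coeff u := fun a a' => by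
    rcases lt_trichotomy a a' with h | h | h
    · exact h1 a a' h
    · rw [h]
    · exact (h1 a' a h).symm
  rcases isEmpty_or_nonempty (Fin m) with hm | ⟨⟨a₀⟩⟩
  · exact ⟨0, fun i => hm.elim i⟩
  refine ⟨c a₀ - (b {a₀}).coeff u, fun i => ?_⟩
  obtain ⟨n, hn⟩ := hb1 {i} (Finset.card_singleton i)
  have h3 := hA i _ hn u
  rw [Finset.prod_singleton, Units.val_pow_eq_pow_val, hG, smul_eq_mul, ← map_pow, ← mul_assoc,
    ← map_mul, Polynomial.coeff_C_mul, Finset.card_singleton, mul_one] at h3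
  rw [h2 a₀ i, sub_sub_cancel]
  convert h3 using 1
  rw [mul_comm _ ((b {i}).coeff u), mul_assoc ((b {i}).coeff u), ← Units.val_pow_eq_pow_val,
    ← Units.val_mul, ← Units.val_mul]
  congr 2
  apply Additive.ofMul.injective
  simp only [ofMul_mul, ofMul_inv, ofMul_pow]
  module

/-- The Cousin problem for `u A + G + j H` is solvable for all `u` and `j ≥ j₀`; `A` has local
generators `γ i` and is generated by the sections `β l`, `G` has local generators `γ' i`.
Sketch: `MP_4287a9_ag.serre` with `T = MvPolynomial κ k` acting on `A = N = Polynomial W` through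
`X l ↦ C (β l) * X`, `G i = C (x i)`; fix `e` that works for all pairs in `cart`;
`M j` = the `T`-span of the `C (r * γ' i * x i ^ e)`, `r ∈ Vs ^ (j - e)`, for `j ≥ e` (shift the
index: use `M j` for the degree `j + e`). Then `monomial u v ∈ secM G M j σ` for `i ∈ σ` if
`v * (γ i ^ u * γ' i * x i ^ (j + e))⁻¹ * (∏ x l / x i) ^ e' ∈ chartR i` (`γ i ^ u` is a combination of
monomials in `β`), and conversely every coefficient of an element of `secM G M j {i}` is a local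
section. Apply `CExact` at `s = 1` to `cdel` of the 0-cochain `{i} ↦ monomial u (c i)`
(`cdel_cdel`, `cdel_pair`) and take the coefficient of `X ^ u`. -/
theorem uvf {κ : Type} [Fintype κ] (x γ γ' : ι → Wˣ) (β : κ → W)
    (cart : ∀ i j, ∃ e : ℕ, ((γ' i * (γ' j)⁻¹ * (x i * (x j)⁻¹) ^ e : Wˣ) : W) ∈ chartR k x j)
    (hβ : ∀ l i, β l * (((γ i)⁻¹ : Wˣ) : W) ∈ chartR k x i)
    (gen : ∀ i, ∃ r : κ → W, (∀ l, r l ∈ chartR k x i) ∧ ∑ l, r l * β l = γ i) :
    ∃ j₀ : ℕ, ∀ u j : ℕ, j₀ ≤ j → ∀ c : ι → W,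
      (∀ i l, ∃ e : ℕ, (c l - c i) *
        (((γ i ^ u * γ' i * x i ^ j)⁻¹ * (x l * (x i)⁻¹) ^ e : Wˣ) : W) ∈ chartR k x i) →
      ∃ b : W, ∀ i, (c i - b) * (((γ i ^ u * γ' i * x i ^ j)⁻¹ : Wˣ) : W) ∈ chartR k x i := by
  let ε := (Fintype.equivFin ι).symm
  have hc : ∀ a, chartR k (fun a => x (ε a)) a = chartR k x (ε a) := fun a => by
    unfold chartR
    rw [← ε.surjective.range_comp fun j => ((x j * (x (ε a))⁻¹ : Wˣ) : W)]
    rfl
  obtain ⟨j₀, h⟩ := uvf_fin (k := k) (fun a => x (ε a)) (fun a => γ (ε a)) (fun a => γ' (ε a)) β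
    (fun a b => hc b ▸ cart (ε a) (ε b)) (fun l a => hc a ▸ hβ l (ε a))
    (fun a => hc a ▸ gen (ε a))
  refine ⟨j₀, fun u j hj c hcc => ?_⟩
  obtain ⟨b, hb⟩ := h u j hj (fun a => c (ε a)) fun a b => hc a ▸ hcc (ε a) (ε b)
  refine ⟨b, fun i => ?_⟩
  obtain ⟨a, rfl⟩ := ε.surjective i
  exact hc a ▸ hb a

end

end Pool.Agent.Lib.MP_bc213e_ag.KBB
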