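import Pool.Agent.Lib.MP_bc213e_ag.KBB.Defs
import Pool.Agent.Lib.MP_4287a9_ag.SerC

/-! Global sections of large multiples of the hyperplane bundle. -/

namespace Pool.Agent.Lib.MP_bc213e_ag.KBB

open Pool.Agent.Lib.MP_bc213e_ag.Hyp MvPolynomial

noncomputable section

variable {k W ι : Type} [Field k] [CommRing W] [Algebra k W] [Fintype ι]

omit [Fintype ι] in
theorem uvf0_x (x : ι → Wˣ) (i : ι) : (x i : W) ∈ Vs k x := Submodule.subset_span ⟨i, rfl⟩

omit [Fintype ι] in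
theorem uvf0_chart (x : ι → Wˣ) (i : ι) {r : W} (hr : r ∈ chartR k x i) :
    ∃ e : ℕ, (x i : W) ^ e * r ∈ Vs k x ^ e := by
  have hp : ∀ e : ℕ, (x i : W) ^ e ∈ Vs k x ^ e := fun e =>
    Submodule.pow_mem_pow _ (uvf0_x x i) e
  induction hr using Algebra.adjoin_induction with
  | mem r hr =>
    obtain ⟨j, rfl⟩ := hr
    refine ⟨1, ?_⟩
    beta_reduce
    rw [pow_one, pow_one, Units.val_mul, mul_comm, Units.inv_mul_cancel_right]
    exact uvf0_x x j
  | algebraMap c => exact ⟨0, by rw [pow_zero, pow_zero, one_mul]; exact Submodule.algebraMap_mem c⟩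
  | add a b _ _ ha hb =>
    obtain ⟨e, he⟩ := ha
    obtain ⟨e', he'⟩ := hb
    refine ⟨e + e', ?_⟩
    have e1 : (x i : W) ^ (e + e') * (a + b) =
        (x i : W) ^ e * a * (x i : W) ^ e' + (x i : W) ^ e * ((x i : W) ^ e' * b) := by ring
    rw [e1, pow_add]
    exact add_mem (Submodule.mul_mem_mul he (hp e')) (Submodule.mul_mem_mul (hp e) he')
  | mul a b _ _ ha hb =>
    obtain ⟨e, he⟩ := ha
    obtain ⟨e', he'⟩ := hb
    refine ⟨e + e', ?_⟩
    rw [pow_add, pow_add, mul_mul_mul_comm]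
    exact Submodule.mul_mem_mul he he'

/-- Sketch: `MP_4287a9_ag.serre` with `T = k`, `A = N = W`, `G = x ∘ (Fintype.equivFin ι).symm`,
`M j = Vs k x ^ j`, at `s = 0` for the cochain that is `w` on all singletons (`cdel_pair`,
`cdel_single`). `w * (x i ^ μ)⁻¹ ∈ chartR i` gives `x i ^ e * w ∈ Vs ^ (μ + e)`. -/
theorem sec_zero [Nonempty ι] (x : ι → Wˣ) : ∃ μ₀ : ℕ, ∀ μ, μ₀ ≤ μ → ∀ w : W,
    (∀ i, w * (((x i ^ μ)⁻¹ : Wˣ) : W) ∈ chartR k x i) → w ∈ Vs k x ^ μ := by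
  let ε := (Fintype.equivFin ι).symm
  obtain ⟨μ₀, h⟩ := MP_4287a9_ag.serre (T := k) (A := W) (N := W) (fun a => x (ε a))
    (fun j => Vs k x ^ j) (fun a j v hv => by
      rw [pow_succ']
      exact Submodule.mul_mem_mul (uvf0_x x _) hv)
    (fun j => (Submodule.fg_span (Set.finite_range _)).pow j) ⟨0, fun j _ v hv => by
      rw [pow_succ'] at hv
      refine Submodule.mul_induction_on hv (fun m hm n hn => ?_) ?_
      · obtain ⟨c, rfl⟩ := (Submodule.mem_span_range_iff_exists_fun k).1 hm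
        refine ⟨fun a => c (ε a) • n, fun a => Submodule.smul_mem _ _ hn, ?_⟩
        rw [Finset.sum_mul, ← ε.sum_comp]
        exact Finset.sum_congr rfl fun a _ => by rw [smul_eq_mul, smul_mul_assoc, mul_smul_comm]
      · rintro _ _ ⟨w, hw, rfl⟩ ⟨w', hw', rfl⟩
        refine ⟨w + w', fun a => add_mem (hw a) (hw' a), ?_⟩
        simp only [Pi.add_apply, smul_add, Finset.sum_add_distrib]⟩
  refine ⟨μ₀, fun μ hμ w hw => ?_⟩
  obtain ⟨b, hb, hb'⟩ := h μ hμ 0 (fun _ => w) (fun σ hσ => by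
    obtain ⟨a, rfl⟩ := Finset.card_eq_one.1 hσ
    obtain ⟨e, he⟩ := uvf0_chart x _ (hw (ε a))
    refine ⟨e, ?_⟩
    have h1 := Submodule.mul_mem_mul (Submodule.pow_mem_pow _ (uvf0_x (k := k) x (ε a)) μ) he
    rw [← pow_add, mul_left_comm, ← Units.val_pow_eq_pow_val (x (ε a)) μ, mul_comm w,
      Units.mul_inv_cancel_left] at h1
    simpa using h1) (fun σ hσ => by
    obtain ⟨a, a', hne, rfl⟩ := Finset.card_eq_two.1 hσ
    rcases lt_or_gt_of_ne hne with h1 | h1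
    · rw [MP_4287a9_ag.cdel_pair _ h1, sub_self]
    · rw [Finset.pair_comm, MP_4287a9_ag.cdel_pair _ h1, sub_self])
  obtain ⟨i⟩ := ‹Nonempty ι›
  have h1 := hb' {ε.symm i} (Finset.card_singleton _)
  rw [MP_4287a9_ag.cdel_single] at h1
  obtain ⟨e, he⟩ := hb ∅ rfl
  simpa [h1] using he

end

end Pool.Agent.Lib.MP_bc213e_ag.KBB
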