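import Pool.Agent.Lib.MP_bc213e_ag.KBB.Psi
import Pool.Agent.Lib.MP_bc213e_ag.KBB.Uvf
import Pool.Agent.Lib.MP_bc213e_ag.KBB.Uvf0

/-! The Frobenius argument in one fibre. -/

namespace Pool.Agent.Lib.MP_bc213e_ag.KBB

open Pool.Agent.Lib.MP_bc213e_ag.Hyp MvPolynomial

noncomputable section

section aux

variable {k W ι : Type} [Field k] [CommRing W] [Algebra k W]

/-- `r` is a section on the chart `l` of the line bundle with local generator `m`. -/
def fibp_S (k : Type) [Field k] [Algebra k W] (x : ι → Wˣ) (l : ι) (m : Wˣ) (r : W) : Prop :=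
  r * ((m⁻¹ : Wˣ) : W) ∈ chartR k x l

variable {x : ι → Wˣ} {l : ι} {m m' : Wˣ} {r r' : W}

theorem fibp_mul (h : fibp_S k x l m r) (h' : fibp_S k x l m' r') :
    fibp_S k x l (m * m') (r * r') := by
  have := mul_mem h h'
  rwa [mul_mul_mul_comm, ← Units.val_mul, ← mul_inv] at this

theorem fibp_add (h : fibp_S k x l m r) (h' : fibp_S k x l m r') : fibp_S k x l m (r + r') := by
  have := add_mem h h'
  rwa [← add_mul] at this

theorem fibp_pow (h : fibp_S k x l m r) (N : ℕ) : fibp_S k x l (m ^ N) (r ^ N) := by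
  have := pow_mem h N
  rwa [mul_pow, ← Units.val_pow_eq_pow_val, inv_pow] at this

theorem fibp_x (i : ι) : fibp_S k x l (x l) (x i) :=
  Algebra.subset_adjoin ⟨i, Units.val_mul _ _⟩

theorem fibp_vs {μ : ℕ} (h : r ∈ Vs k x ^ μ) : fibp_S k x l (x l ^ μ) r := by
  induction h using Submodule.pow_induction_on_left' with
  | algebraMap c =>
    rw [fibp_S, pow_zero, inv_one, Units.val_one, mul_one]
    exact Subalgebra.algebraMap_mem _ c
  | add a b i _ _ ha hb => exact fibp_add ha hb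
  | mem_mul a ha i b _ hb =>
    rw [pow_succ']
    refine fibp_mul ?_ hb
    induction ha using Submodule.span_induction with
    | mem y hy =>
      obtain ⟨j, rfl⟩ := hy
      exact fibp_x j
    | zero =>
      rw [fibp_S, zero_mul]
      exact zero_mem _
    | add y z _ _ hy hz => exact fibp_add hy hz
    | smul c y _ hy =>
      rw [fibp_S, smul_mul_assoc]
      exact Subalgebra.smul_mem _ hy c

theorem fibp_aeval {σ : Type} (V : Submodule k W) (h1 : (1 : W) ∈ V) (Y : σ → W)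
    (hY : ∀ l, Y l ∈ V) (q : MvPolynomial σ k) {d : ℕ} (hq : q.totalDegree ≤ d) :
    aeval Y q ∈ V ^ d := by
  have key : ∀ (m : σ →₀ ℕ) (s : Finset σ), ∏ i ∈ s, Y i ^ m i ∈ V ^ ∑ i ∈ s, m i := by
    intro m s
    classical
    induction s using Finset.induction_on with
    | empty => simpa using ⟨1, map_one _⟩
    | insert i s hi ih =>
      rw [Finset.prod_insert hi, Finset.sum_insert hi, pow_add]
      exact Submodule.mul_mem_mul (Submodule.pow_mem_pow V (hY i) _) ih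
  rw [q.as_sum, map_sum]
  refine Submodule.sum_mem _ fun m hm => ?_
  rw [aeval_monomial, ← Algebra.smul_def]
  refine Submodule.smul_mem _ _ ?_
  obtain ⟨c, rfl⟩ := Nat.exists_eq_add_of_le ((le_totalDegree hm).trans hq)
  have h2 := Submodule.mul_mem_mul (key m m.support) (Submodule.pow_mem_pow V h1 c)
  rwa [one_pow, mul_one, ← pow_add] at h2

theorem fibp_pderiv {σ : Type} (a : σ) (P : MvPolynomial σ k) :
    (pderiv a P).totalDegree ≤ P.totalDegree := by
  classical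
  refine Finset.sup_le fun μ hμ => ?_
  have h1 := mem_support_iff.1 hμ
  rw [coeff_pderiv] at h1
  have h2 := le_totalDegree (mem_support_iff.2 (left_ne_zero_of_mul h1))
  have h3 : ((μ + Finsupp.single a 1).sum fun _ e => e) = (μ + Finsupp.single a 1).degree := rfl
  have h4 : (μ.sum fun _ e => e) = μ.degree := rfl
  rw [h3, map_add] at h2
  rw [h4]
  omega

theorem fibp_deg {n : ℕ} (P E : MvPolynomial (Option (Fin n)) k) {c₀ : ℕ} (hE : E.totalDegree ≤ c₀)
    {q : ℕ} (hq : 1 ≤ q) :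
    (pderiv none P * (∏ l : Fin n, X (some l) ^ (q - 1)) * E ^ (q - 1)).totalDegree ≤
      q * (n + P.totalDegree + c₀ + 2) := by
  have h1 : (∏ l : Fin n, X (some l) ^ (q - 1) : MvPolynomial (Option (Fin n)) k).totalDegree ≤
      n * (q - 1) := by
    refine (totalDegree_finsetProd _ _).trans (le_of_eq ?_)
    simp
  have h2 : (E ^ (q - 1)).totalDegree ≤ (q - 1) * c₀ :=
    (totalDegree_pow _ _).trans (Nat.mul_le_mul_left _ hE)
  have h3 := fibp_pderiv none P
  refine (totalDegree_mul _ _).trans ((add_le_add ((totalDegree_mul _ _).trans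
    (add_le_add h3 h1)) h2).trans ?_)
  obtain ⟨r, rfl⟩ := Nat.exists_eq_add_of_le hq
  rw [Nat.add_sub_cancel_left]
  nlinarith [Nat.zero_le (r * P.totalDegree), Nat.zero_le r]

variable {G : Type} [CommGroup G]

theorem fibp_u0 (g x : G) {N t u s j M : ℕ} (h : M = N * u + j) :
    (g ^ (N * t) * x ^ N) ^ u * g ^ (s * t) * x ^ j = g ^ (t * (N * u + s)) * x ^ M := by
  subst h
  apply Additive.ofMul.injective
  simp only [ofMul_mul, ofMul_pow]
  module

theorem fibp_u1 (g x y : G) (t a c q c₂ : ℕ) :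
    (g ^ (t * q) * x ^ (q * (a + c₂)))⁻¹ * (y * x⁻¹) ^ (c * q) =
      y ^ (c * q) * ((g ^ t * x ^ (a + c)) ^ q * x ^ (q * c₂))⁻¹ := by
  apply Additive.ofMul.injective
  simp only [ofMul_mul, ofMul_pow, ofMul_inv]
  module

theorem fibp_u2 (g x : G) (t a c e q c₂ : ℕ) : x ^ (q * (a + c₂ + c + e)) =
    (x ^ c) ^ q * (g ^ (t * q) * x ^ (q * (a + c₂))) * ((g ^ t)⁻¹ * x ^ e) ^ q := by
  apply Additive.ofMul.injective
  simp only [ofMul_mul, ofMul_pow, ofMul_inv]
  module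

theorem fibp_u3 (g x : G) (t a c e q c₂ : ℕ) : x ^ (q * (a + c₂ + c + e)) =
    (g ^ t * x ^ (a + c)) ^ q * x ^ (q * c₂) * ((g ^ t)⁻¹ * x ^ e) ^ q := by
  apply Additive.ofMul.injective
  simp only [ofMul_mul, ofMul_pow, ofMul_inv]
  module

theorem fibp_u4 (g g' x x' : G) (e N : ℕ) :
    g ^ N * (g' ^ N)⁻¹ * (x * x'⁻¹) ^ (e * N) = (g * g'⁻¹ * (x * x'⁻¹) ^ e) ^ N := by
  apply Additive.ofMul.injective
  simp only [ofMul_mul, ofMul_pow, ofMul_inv]
  module

end aux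

variable {k W ι κ : Type} [Field k] (p : ℕ) [Fact p.Prime] [CharP k p] [PerfectRing k p]
  [CommRing W] [Algebra k W] [Fintype ι] [Fintype κ] {n : ℕ}

include p in
/-- Sketch: if `W` is trivial take `σ = 0`; else `W` has characteristic `p`. Let `j₀` be a bound for
`uvf` with `γ i = g i ^ (N t) x i ^ N`, `γ' i = g i ^ (s t)`, all `s < N`, and `μ₀` from `sec_zero`;
`q = p ^ e ≥ j₀, μ₀`, `q = N u + s`, `c₂ = n + deg P + c₀ + 2`,
`τ = ∂P * ∏ Y l ^ (q - 1) * E ^ (q - 1) ∈ Vs ^ (q c₂)` (as `1 ∈ Vs`; prove the analogue of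
`aeval_mem_pow`), `ζ i = cc i ^ q * τ`, `j = q (a + c₂) - N u ≥ q`. `ζ l - ζ i = (cc l - cc i) ^ q τ`,
so `uvf` gives `b`; `η i = ζ i - b`, `v i = x i ^ (q c) * η i`. On the chart `l`,
`v i = x i ^ (q c) η l + ((cc i - cc l) x i ^ c) ^ q τ`, so `v i * w j ^ q` is a global section of
`q (a + c₂ + c + e) H` (`hcc`, `hw`), hence in `Vs ^ _`; `rep` gives `f i j` with value
`E * v i * w j ^ q`; `σ i j` is the representative of `Ψ (f i j)`. -/
theorem fib (d : Dat k W ι κ n) (Φ : Fib k W n) (hY : Φ.Y = d.Y) (hP : Φ.P = d.P) : d.Sol := by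
  rcases subsingleton_or_nontrivial W with hW | hW
  · exact ⟨fun _ _ => 0, fun _ _ => by simp, fun _ _ _ => Subsingleton.elim _ _,
      fun _ _ _ => Subsingleton.elim _ _⟩
  have : CharP W p := charP_of_injective_algebraMap (algebraMap k W).injective p
  have : Nonempty ι := ⟨d.i₀⟩
  have h1 : (1 : W) ∈ Vs k d.x := Submodule.subset_span ⟨d.i₀, by simp [d.one]⟩
  choose j₀ hj₀ using fun s : ℕ => uvf (k := k) d.x (fun i => d.g i ^ (d.N * d.t) * d.x i ^ d.N)
    (fun i => d.g i ^ (s * d.t)) d.β (fun i j => by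
      obtain ⟨e, he⟩ := d.cart i j
      refine ⟨e * (s * d.t), ?_⟩
      rw [fibp_u4, Units.val_pow_eq_pow_val]
      exact pow_mem he _) d.hβ d.gen
  obtain ⟨μ₀, hμ₀⟩ := sec_zero (k := k) d.x
  obtain ⟨e, he⟩ : ∃ e, e = μ₀ + ∑ s ∈ Finset.range d.N, j₀ s := ⟨_, rfl⟩
  obtain ⟨Ψ, Ψ1, Ψ2, Ψ3⟩ := exists_psi p Φ e
  rw [hY, hP] at Ψ2 Ψ3
  have hsub : ∀ a b : W, (a - b) ^ p ^ e = a ^ p ^ e - b ^ p ^ e := fun a b => sub_pow_char_pow a b e
  have hqe : e < p ^ e := Nat.lt_pow_self (Fact.out : p.Prime).one_lt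
  generalize p ^ e = q at *
  have hq1 : 1 ≤ q := by omega
  obtain ⟨c₂, hc₂⟩ : ∃ c₂, c₂ = n + d.P.totalDegree + d.c₀ + 2 := ⟨_, rfl⟩
  obtain ⟨τ, hτ⟩ : ∃ τ, τ = aeval d.Y (pderiv none d.P) * (∏ l : Fin n, d.Y (some l) ^ (q - 1)) *
      aeval d.Y d.E ^ (q - 1) := ⟨_, rfl⟩
  have hτV : τ ∈ Vs k d.x ^ (q * c₂) := by
    have := fibp_aeval _ h1 d.Y d.hY _ (fibp_deg d.P d.E d.hE hq1)
    simp only [map_mul, map_prod, map_pow, aeval_X] at this
    rwa [hτ, hc₂]
  have hdiv : q = d.N * (q / d.N) + q % d.N := (Nat.div_add_mod q d.N).symm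
  have hs : q % d.N < d.N := Nat.mod_lt _ d.Npos
  generalize q / d.N = u at hdiv
  generalize q % d.N = s at hdiv hs
  have hbig : q + q ≤ q * (d.a + c₂) := by
    rw [← mul_two]
    exact Nat.mul_le_mul_left _ (by omega)
  obtain ⟨j, hj⟩ : ∃ j, q * (d.a + c₂) = d.N * u + j := Nat.exists_eq_add_of_le (by omega)
  have hjs : j₀ s ≤ j := by
    have := Finset.single_le_sum (f := j₀) (fun _ _ => Nat.zero_le _) (Finset.mem_range.2 hs)
    omega
  have hγ : ∀ i, (d.g i ^ (d.N * d.t) * d.x i ^ d.N) ^ u * d.g i ^ (s * d.t) * d.x i ^ j =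
      d.g i ^ (d.t * q) * d.x i ^ (q * (d.a + c₂)) := fun i => by
    rw [fibp_u0 _ _ hj, ← hdiv]
  have hcc : ∀ i l, fibp_S k d.x i (d.g i ^ d.t * d.x i ^ (d.a + d.c))
      ((d.cc l - d.cc i) * (d.x l : W) ^ d.c) := fun i l => by
    have := d.hcc i l
    rwa [Units.val_mul, ← mul_assoc, Units.val_pow_eq_pow_val] at this
  have hw : ∀ j l, fibp_S k d.x l ((d.g l ^ d.t)⁻¹ * d.x l ^ d.e) (d.w j) := fun j l => by
    have := d.hw j l
    rwa [Units.val_mul] at this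
  obtain ⟨b, hb⟩ := hj₀ s u j hjs (fun i => d.cc i ^ q * τ) fun i l => ⟨d.c * q, by
    have := fibp_mul (fibp_pow (hcc i l) q) (fibp_vs (l := i) hτV)
    rw [mul_pow (d.cc l - d.cc i), hsub, ← pow_mul, fibp_S] at this
    rw [hγ, fibp_u1, Units.val_mul, Units.val_pow_eq_pow_val]
    convert this using 1
    ring⟩
  simp only [hγ] at hb
  have hv : ∀ i j, ((d.x i : W) ^ d.c) ^ q * (d.cc i ^ q * τ - b) * d.w j ^ q ∈
      Vs k d.x ^ (q * (d.a + c₂ + d.c + d.e)) := fun i j => by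
    refine hμ₀ _ ?_ _ fun l => ?_
    · have : q * (d.a + c₂) ≤ q * (d.a + c₂ + d.c + d.e) := Nat.mul_le_mul_left _ (by omega)
      omega
    · have a1 := fibp_mul (fibp_mul (fibp_pow (fibp_pow (fibp_x (k := k) (x := d.x) (l := l) i)
        d.c) q) (hb l)) (fibp_pow (hw j l) q)
      have a2 := fibp_mul (fibp_mul (fibp_pow (hcc l i) q) (fibp_vs (l := l) hτV))
        (fibp_pow (hw j l) q)
      rw [← fibp_u2] at a1
      rw [← fibp_u3] at a2
      have a3 := fibp_add a1 a2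
      rw [mul_pow (d.cc i - d.cc l), hsub] at a3
      change fibp_S k d.x l _ _
      convert a3 using 1
      ring
  choose f hf hf' using fun i j => d.rep _ _ (hv i j)
  choose σ hσ hσ' using fun i j => Ψ2 (f i j)
  refine ⟨σ, fun i j => ?_, fun i j j' => ?_, fun i l j => ?_⟩
  · refine Nat.le_of_mul_le_mul_left ((hσ' i j).trans ?_) hq1
    have h2 := hf i j
    have h3 : d.c₀ ≤ q * d.c₀ := Nat.le_mul_of_pos_left _ hq1
    rw [hc₂] at h2
    nlinarith
  · rw [hσ, hσ, hf', hf', ← Ψ1, ← Ψ1]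
    congr 1
    ring
  · rw [hσ, hσ, hf', hf', ← Ψ1, ← Ψ1, ← map_sub, map_mul]
    have h2 : aeval d.Y d.E * aeval d.Y d.E ^ (q - 1) = aeval d.Y d.E ^ q := by
      rw [← pow_succ', Nat.sub_add_cancel hq1]
    have h3 := Ψ1 (aeval d.Y d.E * (((d.x i : W) * d.x l) ^ d.c * (d.cc l - d.cc i) * d.w j))
      (aeval d.Y (pderiv none d.P) * ∏ l : Fin n, d.Y (some l) ^ (q - 1))
    rw [Ψ3] at h3
    rw [mul_right_comm (aeval d.Y d.E), ← h3]
    congr 1
    rw [mul_pow, mul_pow, mul_pow, mul_pow, mul_pow, hsub, ← h2, hτ]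
    ring

end

end Pool.Agent.Lib.MP_bc213e_ag.KBB
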