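import Pool.Agent.Lib.MP_bc213e_ag.KBB.Defs
import Pool.Agent.Lib.MP_bc213e_ag.Hyp.CDb

/-! The monic hypersurface model. -/

namespace Pool.Agent.Lib.MP_bc213e_ag.KBB

open Pool.Agent.Lib.MP_bc213e_ag.Hyp MvPolynomial

noncomputable section

theorem hyp_pderiv {τ R : Type} [CommRing R] (q : MvPolynomial (Option τ) R) :
    optionEquivLeft R τ (pderiv none q) = Polynomial.derivative (optionEquivLeft R τ q) := by
  induction q using MvPolynomial.induction_on with
  | C a => simp [optionEquivLeft_C]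
  | add p q hp hq => simp only [map_add, hp, hq]
  | mul_X p l hp =>
    rw [pderiv_mul, map_add, map_mul, map_mul, map_mul, hp, Polynomial.derivative_mul]
    cases l <;> simp [optionEquivLeft_X_none, optionEquivLeft_X_some]

theorem hyp_rename {τ R : Type} [CommRing R] (p : MvPolynomial τ R) :
    optionEquivLeft R τ (rename some p) = Polynomial.C p := by
  induction p using MvPolynomial.induction_on with
  | C a => simp [optionEquivLeft_C]
  | add p q hp hq => simp only [map_add, hp, hq]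
  | mul_X p l hp => simp [hp, optionEquivLeft_X_some]

theorem hyp_trdeg {K : Type} [Field K] [Algebra ℂ K] {κ : Type} [Finite κ] (x : κ → K)
    (gen : IntermediateField.adjoin ℂ (Set.range x) = ⊤) : ∃ n : ℕ, Algebra.trdeg ℂ K = n := by
  have : FinTrdeg ℂ K := ⟨⊤, gen ▸ IntermediateField.fg_adjoin_of_finite (Set.finite_range x),
    inferInstance⟩
  exact Cardinal.lt_aleph0.1 (trdeg_lt_aleph0 ℂ K)

/-- The hypersurface model with a monic equation. -/
theorem hyp {K κ : Type} [Field K] [Algebra ℂ K] [Fintype κ] (x : κ → K)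
    (gen : IntermediateField.adjoin ℂ (Set.range x) = ⊤) :
    ∃ (n : ℕ) (Y : Option (Fin n) → K) (P E : MvPolynomial (Option (Fin n)) ℂ) (c₀ : ℕ),
      (∀ l, Y l ∈ Submodule.span ℂ (Set.range x)) ∧ (optionEquivLeft ℂ (Fin n) P).Monic ∧
      (∀ q, aeval Y q = 0 ↔ P ∣ q) ∧ E.totalDegree ≤ c₀ ∧ aeval Y (E * pderiv none P) ≠ 0 ∧
      (∀ μ, ∀ r ∈ Bd x μ, ∃ q : MvPolynomial (Option (Fin n)) ℂ, q.totalDegree ≤ μ + c₀ ∧
        q.degreeOf none < P.degreeOf none ∧ aeval Y q = aeval Y E * r) ∧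
      ∀ z : K, ∃ q ρ : MvPolynomial (Option (Fin n)) ℂ, ρ ≠ 0 ∧ ρ.degreeOf none = 0 ∧
        aeval Y ρ * z = aeval Y q := by
  obtain ⟨n, dim⟩ := hyp_trdeg x gen
  obtain ⟨y, z, e, δ, c₀, hy, hz, htb, hzB, he, -, h⟩ := cd x gen dim
  let _ : Algebra (MvPolynomial (Fin n) ℂ) K := (aeval y).toRingHom.toAlgebra
  have hal : ∀ p : MvPolynomial (Fin n) ℂ, algebraMap (MvPolynomial (Fin n) ℂ) K p = aeval y p :=
    fun _ => rfl
  have hinj : Function.Injective (algebraMap (MvPolynomial (Fin n) ℂ) K) := htb.1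
  have : FaithfulSMul (MvPolynomial (Fin n) ℂ) K :=
    (faithfulSMul_iff_algebraMap_injective _ _).2 hinj
  have hint : IsIntegral (MvPolynomial (Fin n) ℂ) z :=
    IsIntegral.map_of_comp_eq (htb.1.aevalEquiv.symm : _ →+* _) (RingHom.id K) (by
      ext a
      obtain ⟨p, rfl⟩ := htb.1.aevalEquiv.surjective a
      simp [hal]) (isIntegral_of_Bd y hzB)
  let Y : Option (Fin n) → K := fun l => l.elim z y
  have hY : ∀ q, aeval Y q = Polynomial.aeval z (optionEquivLeft ℂ (Fin n) q) := by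
    intro q
    induction q using MvPolynomial.induction_on with
    | C a => simp [optionEquivLeft_C, hal]
    | add p q hp hq => rw [map_add, map_add, map_add, hp, hq]
    | mul_X p l hp =>
      rw [map_mul, map_mul, map_mul, hp]
      cases l <;> simp [optionEquivLeft_X_none, optionEquivLeft_X_some, hal, Y]
  have hP : ∀ q, aeval Y q = 0 ↔
      (optionEquivLeft ℂ (Fin n)).symm (minpoly (MvPolynomial (Fin n) ℂ) z) ∣ q := by
    intro q
    rw [hY, minpoly.isIntegrallyClosed_dvd_iff hint, ← map_dvd_iff (optionEquivLeft ℂ (Fin n)),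
      AlgEquiv.apply_symm_apply]
  have hYV : ∀ l, Y l ∈ Submodule.span ℂ (Set.range x) := fun l => by
    cases l
    exacts [hz, hy _]
  have hm := minpoly.monic hint
  have hd := minpoly.natDegree_pos hint
  let R : Fin δ → Polynomial (MvPolynomial (Fin n) ℂ) := fun j =>
    Polynomial.X ^ (j : ℕ) %ₘ minpoly (MvPolynomial (Fin n) ℂ) z
  obtain ⟨c₁, hc₁⟩ := Finite.exists_le fun j => ((optionEquivLeft ℂ (Fin n)).symm (R j)).totalDegree
  have hq : ∀ μ, ∀ r ∈ Bd x μ, ∃ q : MvPolynomial (Option (Fin n)) ℂ,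
      q.totalDegree ≤ μ + (c₀ + c₁) ∧
      q.degreeOf none < (minpoly (MvPolynomial (Fin n) ℂ) z).natDegree ∧
      aeval Y q = e * r := fun μ r hr => by
    obtain ⟨p, hp, hr⟩ := h μ r hr
    refine ⟨∑ j, rename some (p j) * (optionEquivLeft ℂ (Fin n)).symm (R j), ?_, ?_, ?_⟩
    · refine totalDegree_finsetSum_le fun j _ => (totalDegree_mul _ _).trans ?_
      have h1 := (totalDegree_rename_le some (p j)).trans (hp j)
      have h2 := hc₁ j
      omega
    · simp only [← natDegree_optionEquivLeft, map_sum, map_mul, hyp_rename,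
        AlgEquiv.apply_symm_apply]
      refine (Polynomial.natDegree_sum_le_of_forall_le _ _ fun j _ => ?_).trans_lt
        (Nat.sub_lt hd one_pos)
      exact (Polynomial.natDegree_C_mul_le _ _).trans (Nat.le_sub_one_of_lt
        (Polynomial.natDegree_modByMonic_lt _ hm fun h1 => by simp [h1] at hd))
    · rw [hr, map_sum]
      refine Finset.sum_congr rfl fun j _ => ?_
      rw [map_mul, aeval_rename, hY, AlgEquiv.apply_symm_apply,
        Polynomial.aeval_modByMonic_eq_self_of_root (minpoly.aeval _ _), map_pow,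
        Polynomial.aeval_X]
      rfl
  obtain ⟨ε, hε0, -, hε⟩ := hq 0 1 (span_pow_le_Bd x 0 (by simp))
  rw [mul_one] at hε
  have hρ : ∀ ρ : MvPolynomial (Fin n) ℂ, aeval Y (rename some ρ) = aeval y ρ := fun ρ => by
    rw [aeval_rename]
    rfl
  let Rep : K → Prop := fun r => ∃ (ρ : MvPolynomial (Fin n) ℂ)
    (q : MvPolynomial (Option (Fin n)) ℂ), ρ ≠ 0 ∧ r * aeval Y (rename some ρ) = aeval Y q
  have r0 : ∀ q, Rep (aeval Y q) := fun q => ⟨1, q, one_ne_zero, by simp⟩
  have r1 : ∀ a b, Rep a → Rep b → Rep (a * b) := by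
    rintro a b ⟨ρ, q, k1, k2⟩ ⟨ρ', q', k1', k2'⟩
    refine ⟨ρ * ρ', q * q', mul_ne_zero k1 k1', ?_⟩
    rw [map_mul, map_mul, map_mul, ← k2, ← k2']
    ring
  have r2 : ∀ a, Rep a → Rep a⁻¹ := by
    rintro a ⟨ρ, q, k1, k2⟩
    by_cases ha : a = 0
    · rw [ha, inv_zero]
      simpa using r0 0
    have hq : aeval Y q ≠ 0 := by
      rw [← k2, hρ]
      exact mul_ne_zero ha ((map_ne_zero_iff _ hinj).2 k1)
    rw [hY] at hq
    have hw : IsIntegral (MvPolynomial (Fin n) ℂ)
        (Polynomial.aeval z (optionEquivLeft ℂ (Fin n) q)) :=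
      IsIntegral.of_mem_of_fg _ hint.fg_adjoin_singleton _ (Polynomial.aeval_mem_adjoin_singleton _ _)
    obtain ⟨m, hm0, hm⟩ := hw.isAlgebraic.exists_nonzero_coeff_and_aeval_eq_zero
      (mem_nonZeroDivisors_of_ne_zero hq)
    refine ⟨m.coeff 0, rename some ρ *
      (optionEquivLeft ℂ (Fin n)).symm (-m.divX.comp (optionEquivLeft ℂ (Fin n) q)), hm0, ?_⟩
    rw [map_mul, hY ((optionEquivLeft ℂ (Fin n)).symm _), AlgEquiv.apply_symm_apply, map_neg,
      Polynomial.aeval_comp, hρ (m.coeff 0), inv_mul_eq_iff_eq_mul₀ ha, ← mul_assoc, k2, hY q]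
    rw [← m.divX_mul_X_add, map_add, map_mul, Polynomial.aeval_X, Polynomial.aeval_C, hal] at hm
    linear_combination hm
  have r3 : ∀ r, Rep r := fun r => by
    have hr : r ∈ IntermediateField.adjoin ℂ (Set.range x) := gen ▸ IntermediateField.mem_top
    induction hr using IntermediateField.adjoin_induction with
    | mem a ha =>
      obtain ⟨q, -, -, k⟩ := hq 1 a
        (span_pow_le_Bd x 1 (by rw [pow_one]; exact Submodule.subset_span ha))
      have := r1 _ _ (r2 _ (r0 ε)) (r0 q)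
      rwa [k, hε, inv_mul_cancel_left₀ he] at this
    | algebraMap c => simpa using r0 (C c)
    | add a b _ _ ha hb =>
      obtain ⟨ρ, q, k1, k2⟩ := ha
      obtain ⟨ρ', q', k1', k2'⟩ := hb
      refine ⟨ρ * ρ', q * rename some ρ' + q' * rename some ρ, mul_ne_zero k1 k1', ?_⟩
      rw [map_mul, map_mul, map_add, map_mul, map_mul, ← k2, ← k2']
      ring
    | inv a _ ha => exact r2 a ha
    | mul a b _ _ ha hb => exact r1 a b ha hb

  refine ⟨n, Y, _, ε, c₀ + c₁, hYV, ?_, hP, by simpa using hε0, ?_, ?_, fun r => ?_⟩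
  · rwa [AlgEquiv.apply_symm_apply]
  · rw [map_mul, hε]
    refine mul_ne_zero he ?_
    rw [hY, hyp_pderiv, AlgEquiv.apply_symm_apply, Ne, minpoly.isIntegrallyClosed_dvd_iff hint]
    intro hd
    have k1 := minpoly.natDegree_pos hint
    have k2 := Polynomial.natDegree_le_of_dvd hd
      fun h0 => k1.ne' (Polynomial.derivative_eq_zero.1 h0)
    have k3 := Polynomial.natDegree_derivative_lt k1.ne'
    omega
  · rwa [← natDegree_optionEquivLeft (p := (optionEquivLeft ℂ (Fin n)).symm _),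
      AlgEquiv.apply_symm_apply, hε]
  · obtain ⟨ρ, q, k1, k2⟩ := r3 r
    refine ⟨q, rename some ρ, (map_ne_zero_iff _ (rename_injective _ (Option.some_injective _))).2 k1,
      ?_, (mul_comm _ _).trans k2⟩
    rw [← natDegree_optionEquivLeft, hyp_rename, Polynomial.natDegree_C]

end

end Pool.Agent.Lib.MP_bc213e_ag.KBB
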