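import Pool.Agent.Lib.MP_bc213e_ag.KBB.Sheaf

/-! Transfer of the data to the subvariety. -/

namespace Pool.Agent.Lib.MP_bc213e_ag.KBB

open Pool.Agent.Lib.MP_bc213e_ag.Hyp MvPolynomial

noncomputable section

variable {K ι : Type} [Field K] [Algebra ℂ K] {x g : ι → Kˣ}


namespace Rd

variable {J : Idl x} {F : Type} [Field F] [Algebra ℂ F] (R : Rd x g J F)

theorem ρ_div {a b : K} (ha : a ∈ R.O) (hb : b ∈ R.O) (h : R.ρ b ≠ 0) :
    a / b ∈ R.O ∧ R.ρ (a / b) = R.ρ a / R.ρ b := by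
  have hb0 : b ≠ 0 := fun h0 => h (by rw [h0, map_zero])
  have h1 : a / b ∈ R.O := by
    rw [div_eq_mul_inv]
    exact mul_mem ha (R.inv b hb h)
  refine ⟨h1, eq_div_of_mul_eq h ?_⟩
  rw [← R.ρ_mul _ h1 _ hb, div_mul_cancel₀ _ hb0]

theorem ρ_pow {a : K} (ha : a ∈ R.O) (e : ℕ) : R.ρ (a ^ e) = R.ρ a ^ e := by
  induction e with
  | zero => rw [pow_zero, pow_zero, R.ρ_one]
  | succ e ih => rw [pow_succ, pow_succ, R.ρ_mul _ (pow_mem ha e) _ ha, ih]

theorem res2_zpow {a : K} (ha : a ∈ R.O) (h : R.ρ a ≠ 0) (t : ℤ) :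
    a ^ t ∈ R.O ∧ R.ρ (a ^ t) = R.ρ a ^ t := by
  obtain ⟨n, rfl | rfl⟩ := t.eq_nat_or_neg
  · rw [zpow_natCast, zpow_natCast]
    exact ⟨pow_mem ha n, R.ρ_pow ha n⟩
  · have h1 := R.ρ_div (one_mem _) (pow_mem ha n) (by rw [R.ρ_pow ha]; exact pow_ne_zero n h)
    rwa [R.ρ_one, R.ρ_pow ha, one_div, one_div, ← zpow_natCast, ← zpow_natCast, ← zpow_neg,
      ← zpow_neg] at h1

theorem res2_x (l : ι) : (x l : K) / x R.i₀ ∈ R.O := R.le R.i₀ _ (Basic_mem x R.i₀ l)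

theorem res2_xx (i : {i // (1 : K) ∉ J.J i}) (l : ι) :
    R.ρ ((x l : K) / x i) = R.ρ ((x l : K) / x R.i₀) / R.x' i := by
  have h := (R.ρ_div (R.res2_x l) (R.res2_x i) (by rw [R.ρ_x]; exact Units.ne_zero _)).2
  rwa [div_div_div_cancel_right₀ (Units.ne_zero _), R.ρ_x i] at h

theorem res2_c (c : ℂ) : R.ρ (algebraMap ℂ K c) = algebraMap ℂ F c := by
  rw [Algebra.algebraMap_eq_smul_one, map_smul, R.ρ_one, Algebra.algebraMap_eq_smul_one]

theorem ρ_xx (i l : {i // (1 : K) ∉ J.J i}) :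
    R.ρ ((x l : K) / x i) = (R.x' l : F) / R.x' i := by
  rw [R.res2_xx, R.ρ_x]

theorem ρ_fr (t : ℤ) (a : ℕ) (i : {i // (1 : K) ∉ J.J i}) :
    fr x g t a i / fr x g t a R.i₀ ∈ R.O ∧
      R.ρ (fr x g t a i / fr x g t a R.i₀) = fr R.x' R.g' t a i := by
  obtain ⟨h1, h2⟩ := R.res2_zpow (R.g_mem i) (by rw [R.ρ_g]; exact Units.ne_zero _) t
  have h3 := pow_mem (R.res2_x i) a
  rw [fr, fr, mul_div_mul_comm, ← div_zpow, ← div_pow]
  exact ⟨mul_mem h1 h3, by rw [R.ρ_mul _ h1 _ h3, h2, R.ρ_pow (R.res2_x i), R.ρ_g, R.ρ_x, fr]⟩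

theorem g'_one : R.g' R.i₀ = 1 := by
  apply Units.ext
  rw [← R.ρ_g, div_self (Units.ne_zero _), R.ρ_one, Units.val_one]

/-- Sketch: `Algebra.adjoin_induction`; the generators `x l / x i` with `1 ∈ J l` go to `0`. -/
theorem map_chart (i : {i // (1 : K) ∉ J.J i}) {r : K} (hr : r ∈ chart x i) :
    R.ρ r ∈ chart R.x' i := by
  induction hr using Algebra.adjoin_induction with
  | mem r hr =>
    obtain ⟨l, rfl⟩ := hr
    by_cases hl : (1 : K) ∈ J.J l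
    · rw [R.res2_xx, R.ρ_x0 l hl, zero_div]
      exact zero_mem _
    · rw [R.ρ_xx i ⟨l, hl⟩]
      exact Basic_mem _ _ _
  | algebraMap c =>
    rw [R.res2_c]
    exact Subalgebra.algebraMap_mem _ c
  | add a b _ _ ha hb =>
    rw [map_add]
    exact add_mem ha hb
  | mul a b ha' hb' ha hb =>
    rw [R.ρ_mul _ (R.le i _ ha') _ (R.le i _ hb')]
    exact mul_mem ha hb

theorem surj_chart (i : {i // (1 : K) ∉ J.J i}) {r' : F} (hr : r' ∈ chart R.x' i) :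
    ∃ r ∈ chart x i, R.ρ r = r' := by
  induction hr using Algebra.adjoin_induction with
  | mem r hr =>
    obtain ⟨l, rfl⟩ := hr
    exact ⟨_, Basic_mem x i l, R.ρ_xx i l⟩
  | algebraMap c => exact ⟨_, Subalgebra.algebraMap_mem _ c, R.res2_c c⟩
  | add a b _ _ ha hb =>
    obtain ⟨a, ha, rfl⟩ := ha
    obtain ⟨b, hb, rfl⟩ := hb
    exact ⟨a + b, add_mem ha hb, map_add _ _ _⟩
  | mul a b _ _ ha hb =>
    obtain ⟨a, ha, rfl⟩ := ha
    obtain ⟨b, hb, rfl⟩ := hb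
    exact ⟨a * b, mul_mem ha hb, R.ρ_mul _ (R.le i _ ha) _ (R.le i _ hb)⟩

/-- A local section on the chart `i` restricts to a local section. -/
theorem map_sec {t : ℤ} {a : ℕ} (i : {i // (1 : K) ∉ J.J i}) {s : K}
    (hs : s / fr x g t a i ∈ chart x i) :
    s / fr x g t a R.i₀ ∈ R.O ∧
      R.ρ (s / fr x g t a R.i₀) / fr R.x' R.g' t a i = R.ρ (s / fr x g t a i) := by
  obtain ⟨h1, h2⟩ := R.ρ_fr t a i
  rw [← div_mul_div_cancel₀ (fr_ne x g t a i) (a := s) (c := fr x g t a R.i₀)]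
  exact ⟨mul_mem (R.le i _ hs) h1, by
    rw [R.ρ_mul _ (R.le i _ hs) _ h1, h2, mul_div_cancel_right₀ _ (fr_ne _ _ _ _ _)]⟩

theorem cart (hc : Cart x g) : Cart R.x' R.g' := by
  intro i j
  obtain ⟨e, he⟩ := hc i j
  obtain ⟨h1, h2⟩ := R.ρ_div (R.g_mem i) (R.g_mem j) (by rw [R.ρ_g]; exact Units.ne_zero _)
  rw [div_div_div_cancel_right₀ (Units.ne_zero _)] at h1 h2
  have h3 := R.le j _ (Basic_mem x j i)
  have h4 := R.map_chart j he
  rw [R.ρ_mul _ h1 _ (pow_mem h3 e), h2, R.ρ_pow h3, R.ρ_xx, R.ρ_g, R.ρ_g] at h4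
  exact ⟨e, h4⟩

theorem res2_sec {t : ℤ} {a : ℕ} {s : K} (hs : Sec x g t a s) :
    Sec R.x' R.g' t a (R.ρ (s / fr x g t a R.i₀)) := fun j => by
  have h := R.map_chart j (hs j)
  rwa [← show _ = R.ρ (s / (_ * _)) from (R.map_sec j (hs j)).2] at h

theorem res2_free {t : ℤ} {a : ℕ} (h : Free x g t a) : Free R.x' R.g' t a := by
  intro i
  have key : ∀ y ∈ Submodule.span (chart x i) {s | Sec x g t a s}, y / fr x g t a i ∈ chart x i ∧
      R.ρ (y / fr x g t a R.i₀) ∈ Submodule.span (chart R.x' i) {s | Sec R.x' R.g' t a s} := by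
    intro y hy
    induction hy using Submodule.span_induction with
    | mem s hs => exact ⟨hs i, Submodule.subset_span (R.res2_sec hs)⟩
    | zero =>
      rw [zero_div, zero_div, map_zero]
      exact ⟨zero_mem _, zero_mem _⟩
    | add y z _ _ hy hz =>
      rw [add_div, add_div, map_add]
      exact ⟨add_mem hy.1 hz.1, add_mem hy.2 hz.2⟩
    | smul r y _ hy =>
      rw [Subalgebra.smul_def, smul_eq_mul, mul_div_assoc, mul_div_assoc,
        R.ρ_mul _ (R.le i _ r.2) _ (R.map_sec i hy.1).1]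
      exact ⟨mul_mem r.2 hy.1, Submodule.smul_mem _ (⟨_, R.map_chart i r.2⟩ : chart R.x' i) hy.2⟩
  have h1 := (key _ (h i)).2
  rwa [show R.ρ (_ * _ / _) = _ from (R.ρ_fr t a i).2] at h1

/-- Sketch: apply `s ↦ ρ (s / fr i₀)` to `fr i = ∑ r s` (span induction on the statement
`s / fr i ∈ chart i ∧ ρ (s / fr i₀) ∈ span`). -/
theorem nef (hn : Nef x g) : Nef R.x' R.g' := by
  intro t
  obtain ⟨N, hN, h⟩ := hn t
  exact ⟨N, hN, R.res2_free h⟩

/-- Sketch: induction on `μ` (`Submodule.pow_induction_on_left'` or `mul_induction_on`). -/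
theorem lift (μ : ℕ) {d' : F} (hd : d' ∈ Submodule.span ℂ (Set.range fun i => (R.x' i : F)) ^ μ) :
    ∃ d, Sec x g 0 μ d ∧ R.ρ (d / (x R.i₀ : K) ^ μ) = d' := by
  have h1 : ∀ b ∈ Submodule.span ℂ (Set.range fun i => (R.x' i : F)),
      ∃ d, (∀ i, d / (x i : K) ∈ chart x i) ∧ R.ρ (d / (x R.i₀ : K)) = b := fun b hb => by
    induction hb using Submodule.span_induction with
    | mem r hr =>
      obtain ⟨l, rfl⟩ := hr
      exact ⟨x l, fun i => Basic_mem x i l, R.ρ_x l⟩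
    | zero => exact ⟨0, fun i => by rw [zero_div]; exact zero_mem _, by rw [zero_div, map_zero]⟩
    | add a b _ _ ha hb =>
      obtain ⟨a, ha, rfl⟩ := ha
      obtain ⟨b, hb, rfl⟩ := hb
      exact ⟨a + b, fun i => by rw [add_div]; exact add_mem (ha i) (hb i), by rw [add_div, map_add]⟩
    | smul c a _ ha =>
      obtain ⟨a, ha, rfl⟩ := ha
      exact ⟨c • a, fun i => by rw [smul_div_assoc]; exact Subalgebra.smul_mem _ (ha i) c,
        by rw [smul_div_assoc, map_smul]⟩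
  simp only [Sec, zpow_zero, one_mul]
  induction μ generalizing d' with
  | zero =>
    rw [pow_zero, Submodule.mem_one] at hd
    obtain ⟨c, rfl⟩ := hd
    simp only [pow_zero, div_one]
    exact ⟨_, fun i => Subalgebra.algebraMap_mem _ c, R.res2_c c⟩
  | succ μ ih =>
    rw [pow_succ] at hd
    refine Submodule.mul_induction_on hd (fun a ha b hb => ?_) fun a b ha hb => ?_
    · obtain ⟨a, ha', rfl⟩ := ih ha
      obtain ⟨b, hb', rfl⟩ := h1 b hb
      refine ⟨a * b, fun i => ?_, ?_⟩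
      · rw [pow_succ, mul_div_mul_comm]
        exact mul_mem (ha' i) (hb' i)
      · rw [pow_succ, mul_div_mul_comm, R.ρ_mul _ (R.le _ _ (ha' _)) _ (R.le _ _ (hb' _))]
    · obtain ⟨a, ha, rfl⟩ := ha
      obtain ⟨b, hb, rfl⟩ := hb
      exact ⟨a + b, fun i => by rw [add_div]; exact add_mem (ha i) (hb i), by rw [add_div, map_add]⟩

/-- On an integral subvariety a section that vanishes on one chart vanishes everywhere. -/
theorem has_iff {t : ℤ} {a : ℕ} {f : K} (hf : Sec x g t a f) :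
    J.Has g t a f ↔ R.ρ (f / fr x g t a R.i₀) = 0 := by
  refine ⟨fun h => (R.ker R.i₀ _ (hf _)).2 (h _), fun h i => ?_⟩
  by_cases hi : (1 : K) ∈ J.J i
  · simpa only [mul_one] using J.mul i (f / fr x g t a i) (hf i) _ hi
  · refine (R.ker ⟨i, hi⟩ _ (hf i)).1 ?_
    rw [← show _ = R.ρ (f / (_ * _)) from (R.map_sec ⟨i, hi⟩ (hf i)).2, h, zero_div]

include R in
theorem colon_le (hc : Cart x g) {t : ℤ} {a : ℕ} {f : K} (hf : Sec x g t a f)
    (h : ¬ J.Has g t a f) (i : ι) : (J.colon hc hf).J i ≤ J.J i := by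
  rintro r ⟨h1, h2⟩
  by_cases hi : (1 : K) ∈ J.J i
  · simpa only [mul_one] using J.mul i _ h1 _ hi
  have h3 := (R.ker ⟨i, hi⟩ _ (J.le i _ h2)).2 h2
  rw [R.ρ_mul _ (R.le ⟨i, hi⟩ _ h1) _ (R.le ⟨i, hi⟩ (f / fr x g t a i) (hf i)),
    ← (R.map_sec ⟨i, hi⟩ (hf i)).2] at h3
  exact (R.ker ⟨i, hi⟩ _ h1).1 ((mul_eq_zero.1 h3).resolve_right
    (div_ne_zero (fun h0 => h ((R.has_iff hf).2 h0)) (fr_ne _ _ _ _ _)))

theorem res2_z0 {t : ℤ} {a : ℕ} {s : ι → K} (hs : s ∈ J.Z0 g t a) (i : {i // (1 : K) ∉ J.J i}) :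
    R.ρ (s R.i₀ / fr x g t a R.i₀) / fr R.x' R.g' t a i = R.ρ (s i / fr x g t a i) := by
  obtain ⟨e, he⟩ := hs.2 R.i₀ i
  obtain ⟨h1, h2⟩ := R.map_sec i (hs.1 i)
  have h3 := (R.ker R.i₀ _ (J.le _ _ he)).2 he
  rw [sub_div, R.ρ_mul _ (sub_mem h1 (R.le _ _ (hs.1 _))) _ (pow_mem (R.res2_x i) e),
    R.ρ_pow (R.res2_x i), R.ρ_x, map_sub] at h3
  rw [← h2, sub_eq_zero.1 ((mul_eq_zero.1 h3).resolve_right (pow_ne_zero e (Units.ne_zero _)))]

theorem res2_fd [Fintype ι] (hc : Cart x g) (t : ℤ) (a : ℕ) :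
    FiniteDimensional ℂ (SecS R.x' R.g' t a) := by
  classical
  have hfin : Algebra.trdeg ℂ F < Cardinal.aleph0 := by
    have : Algebra.EssFiniteType ℂ F := IntermediateField.fg_top_iff.mp
      (R.gen ▸ IntermediateField.fg_adjoin_of_finite (Set.finite_range _))
    exact trdeg_lt_aleph0 ℂ F
  obtain ⟨n, hn⟩ := Cardinal.lt_aleph0.mp hfin
  obtain ⟨B, hB⟩ := cd_dim _ R.gen hn
  choose e he using fun i => fr_trans (R.cart hc) (-t) 0 R.i₀ i
  have := (hB (a + Finset.univ.sup e)).1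
  refine Submodule.finiteDimensional_of_le
    (S₂ := Bd (fun i => (R.x' i : F)) (a + Finset.univ.sup e)) ?_
  intro s hs O c h1 h2 _ h4
  have : Nonempty {i // (1 : K) ∉ J.J i} := ⟨R.i₀⟩
  obtain ⟨i, hi⟩ := Finite.exists_max fun i => O.valuation (R.x' i)
  obtain ⟨m, hm⟩ := Nat.exists_eq_add_of_le (Finset.le_sup (f := e) (Finset.mem_univ i))
  have h3 : s / (R.x' i : F) ^ (a + Finset.univ.sup e) ∈ chart R.x' i := by
    have h5 := mul_mem (mul_mem (hs i) (he i)) (pow_mem (Basic_mem R.x' i R.i₀) m)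
    convert h5 using 1
    have h6 : (R.g' i : F) ^ t ≠ 0 := zpow_ne_zero t (Units.ne_zero _)
    have h7 : (R.x' i : F) ≠ 0 := Units.ne_zero _
    simp only [fr, hm, R.one, R.g'_one, Units.val_one, one_zpow, pow_zero, mul_one, zpow_neg,
      pow_add, div_pow, one_pow]
    field_simp
  have h5 := Basic_le O.valuation (fun z => (O.valuation_le_one_iff _).2 (h1 z)) R.x' i hi _ h3
  rw [O.valuation_le_one_iff] at h5
  have h6 := O.mul_mem _ _ h5 (pow_mem (h4 i) (a + Finset.univ.sup e))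
  rwa [div_pow, div_mul_div_cancel₀ (pow_ne_zero _ (R.x' i).ne_zero)] at h6

include R in
/-- Sketch: `s ↦ ρ (s i₀ / fr i₀)` maps `Z0` to `SecS x' g' t a` with kernel `C0`; a section `s'`
times `(g' i₀ ^ t)⁻¹ * x' i₀ ^ e = 1` is a section of `(a + e) H` (`fr_trans` for `-t`), hence lies in
`Bd x' (a + e)` (as in `Su.Γ_le_Bd`), which is finite dimensional (`cd_dim`; the transcendence
degree of a finitely generated field is a natural number). -/
theorem fd [Fintype ι] (hc : Cart x g) (t : ℤ) (a : ℕ) : FiniteDimensional ℂ (J.H0 g t a) := by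
  have := R.res2_fd hc t a
  let φ : (ι → K) →ₗ[ℂ] F :=
    R.ρ ∘ₗ LinearMap.mulRight ℂ (fr x g t a R.i₀)⁻¹ ∘ₗ LinearMap.proj (R.i₀ : ι)
  have hφ : ∀ s, φ s = R.ρ (s R.i₀ / fr x g t a R.i₀) := fun s => by
    rw [div_eq_mul_inv]
    rfl
  let ψ : J.Z0 g t a →ₗ[ℂ] SecS R.x' R.g' t a :=
    (φ ∘ₗ (J.Z0 g t a).subtype).codRestrict _ fun s i => by
      have h := R.map_chart i (s.2.1 i)
      rwa [← R.res2_z0 s.2 i, ← hφ] at h
  have hle : LinearMap.ker ψ ≤ LinearMap.ker ((J.C0 g t a).mkQ ∘ₗ (J.Z0 g t a).subtype) := by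
    intro s hs
    have h0 : φ s = 0 := congrArg Subtype.val (LinearMap.mem_ker.1 hs)
    refine (Submodule.Quotient.mk_eq_zero _).2 fun i => ?_
    by_cases hi : (1 : K) ∈ J.J i
    · exact mul_one (s.1 i / fr x g t a i) ▸ J.mul i _ (s.2.1 i) _ hi
    · refine (R.ker ⟨i, hi⟩ _ (s.2.1 i)).1 ?_
      rw [← R.res2_z0 s.2 ⟨i, hi⟩, ← hφ, h0, zero_div]
  have : Module.Finite ℂ (J.Z0 g t a ⧸ LinearMap.ker ψ) :=
    Module.Finite.equiv ψ.quotKerEquivRange.symm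
  have h : J.H0 g t a = LinearMap.range ((LinearMap.ker ψ).liftQ _ hle) := by
    rw [Submodule.range_liftQ, LinearMap.range_comp, Submodule.range_subtype, Idl.H0]
  rw [h]
  infer_instance

end Rd

end

end Pool.Agent.Lib.MP_bc213e_ag.KBB
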