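import Pool.Agent.Lib.MP_bc213e_ag.KBB.Ua
import Pool.Agent.Lib.MP_bc213e_ag.KBB.Res2

/-! The killing section for a prime ideal sheaf. -/

namespace Pool.Agent.Lib.MP_bc213e_ag.KBB

open Pool.Agent.Lib.MP_bc213e_ag.Hyp MvPolynomial

noncomputable section

variable {K ι : Type} [Field K] [Algebra ℂ K] {x g : ι → Kˣ}


section aux

variable {J : Idl x} {F : Type} [Field F] [Algebra ℂ F] (R : Rd x g J F)

theorem kill_u (i l : {i // (1 : K) ∉ J.J i}) (e : ℕ) : ((x l : K) / x i) ^ e ∈ R.O ∧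
    R.ρ (((x l : K) / x i) ^ e) = ((R.x' l : F) / R.x' i) ^ e ∧
      ((R.x' l : F) / R.x' i) ^ e ≠ 0 := by
  have h : (x l : K) / x i ∈ R.O := R.le i _ (Algebra.subset_adjoin ⟨l, rfl⟩)
  exact ⟨pow_mem h e, by rw [R.ρ_pow h, R.ρ_xx],
    pow_ne_zero _ (div_ne_zero (Units.ne_zero _) (Units.ne_zero _))⟩

theorem kill_l2 (i l : {i // (1 : K) ∉ J.J i}) {r : K} (h : L2 x (OX x) i l r) :
    r ∈ R.O ∧ L2 R.x' (OX R.x') i l (R.ρ r) ∧ (R.ρ r = 0 → L2 x J.J i l r) := by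
  obtain ⟨e, he⟩ := h
  obtain ⟨h1, h2, h3⟩ := kill_u R i l e
  have h4 : r ∈ R.O := by
    have h5 := (R.ρ_div (R.le i _ he) h1 (by rw [h2]; exact h3)).1
    rwa [mul_div_cancel_right₀ _
      (pow_ne_zero _ (div_ne_zero (Units.ne_zero _) (Units.ne_zero _)))] at h5
  have h5 := R.ρ_mul r h4 _ h1
  refine ⟨h4, ⟨e, ?_⟩, fun h0 => ⟨e, (R.ker i _ he).1 (by rw [h5, h0, zero_mul])⟩⟩
  rw [← h2, ← h5]
  exact R.map_chart i he

theorem kill_l3 (i l j : {i // (1 : K) ∉ J.J i}) {r : K} (hr : r ∈ R.O)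
    (h : L3 x J.J i l j r) : R.ρ r = 0 := by
  obtain ⟨e, he⟩ := h
  obtain ⟨h1, h2, h3⟩ := kill_u R i l e
  obtain ⟨h4, h5, h6⟩ := kill_u R i j e
  have h7 := (R.ker i _ (J.le i _ he)).2 he
  rw [R.ρ_mul _ (mul_mem hr h1) _ h4, R.ρ_mul _ hr _ h1, h2, h5] at h7
  exact (mul_eq_zero.1 ((mul_eq_zero.1 h7).resolve_right h6)).resolve_right h3

theorem kill_fr {t : ℤ} {a : ℕ} (i : {i // (1 : K) ∉ J.J i}) {r : K}
    (h : r / fr x g t a i ∈ R.O) : r / fr x g t a R.i₀ ∈ R.O ∧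
      R.ρ (r / fr x g t a R.i₀) = R.ρ (r / fr x g t a i) * fr R.x' R.g' t a i := by
  obtain ⟨h1, h2⟩ := R.ρ_fr t a i
  have e : r / fr x g t a R.i₀ = r / fr x g t a i * (fr x g t a i / fr x g t a R.i₀) := by
    rw [div_mul_div_cancel₀ (fr_ne x g t a i)]
  rw [e]
  exact ⟨mul_mem h h1, by rw [R.ρ_mul _ h _ h1, h2]⟩

theorem kill_coc {t : ℤ} {a : ℕ} {θ : ι → ι → K} (h : J.Coc g t a θ)
    (i l : {i // (1 : K) ∉ J.J i}) :
    R.ρ (θ R.i₀ l / fr x g t a R.i₀) - R.ρ (θ R.i₀ i / fr x g t a R.i₀) =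
      R.ρ (θ i l / fr x g t a R.i₀) := by
  have h1 : ∀ i l : {i // (1 : K) ∉ J.J i}, θ i l / fr x g t a R.i₀ ∈ R.O := fun i l =>
    (kill_fr R i (kill_l2 R i l (h.1 i l)).1).1
  have h2 := h.2 R.i₀ i l
  rw [sub_div, add_div] at h2
  have h3 := kill_l3 R R.i₀ i l (sub_mem (add_mem (h1 _ _) (h1 _ _)) (h1 _ _)) h2
  rw [map_sub, map_add] at h3
  linear_combination -h3

end aux

/-- Sketch: `ua0` for `(F, x', g')`, `Rd.lift` for `d`. For a cocycle `θ` modulo `J` put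
`c l = ρ (θ i₀ l / fr i₀)` for `l` with `1 ∉ J l`; the cocycle condition gives
`c l - c i = ρ (θ i l / fr i₀)`. Lift `(d' c i - b) / fr' i` by `surj_chart` to `r i`, put
`η i = r i * fr i` (and `η i = 0` if `1 ∈ J i`; then `L2 J i l` and `L2 J l i` contain `L2 O`, use
`glue`, `l2_symm`, `l2_fr`). An element of `L2 O i l` with `ρ = 0` lies in `L2 J i l` (`ker`). -/
theorem Rd.kill [Fintype ι] {J : Idl x} {F : Type} [Field F] [Algebra ℂ F] (R : Rd x g J F)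
    (hc : Cart x g) (hn : Nef x g) : ∃ (δ : ℕ) (d : K), Sec x g 0 δ d ∧ ¬ J.Has g 0 δ d ∧
      ∀ (t a : ℕ) (θ : ι → ι → K), J.Coc g t a θ →
        J.Cob g t (a + δ) fun i l => d * θ i l := by
  classical
  obtain ⟨δ, d', hd0, hd', H⟩ := ua0 R.x' R.g' R.i₀ R.one R.gen (R.cart hc) (R.nef hn)
  obtain ⟨d, hd, hρ⟩ := R.lift δ hd'
  refine ⟨δ, d, hd, fun h => hd0 ?_, fun t a θ hθ => ?_⟩
  · rw [← hρ, ← fr_zero x g]
    exact (R.has_iff hd).1 h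
  have hfr : ∀ i, fr x g t (a + δ) i = fr x g 0 δ i * fr x g t a i := fun i => by
    rw [← fr_add, zero_add, add_comm]
  obtain ⟨b, hb⟩ := H t a (fun l => R.ρ (θ R.i₀ l / fr x g t a R.i₀)) fun i l => by
    obtain ⟨h1, h2, -⟩ := kill_l2 R i l (hθ.1 i l)
    rwa [kill_coc R hθ, (kill_fr R i h1).2, mul_div_cancel_right₀ _ (fr_ne _ _ _ _ _)]
  choose r hr hr' using fun i => R.surj_chart i (hb i)
  obtain ⟨η, hη, hη'⟩ : ∃ η : ι → K, (∀ i, η i / fr x g t (a + δ) i ∈ chart x i) ∧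
      ∀ i : {i // (1 : K) ∉ J.J i}, η i / fr x g t (a + δ) i = r i := by
    refine ⟨fun i => if h : (1 : K) ∉ J.J i then r ⟨i, h⟩ * fr x g t (a + δ) i else 0,
      fun i => ?_, fun i => ?_⟩
    · dsimp only
      split_ifs with h
      · rw [zero_div]
        exact zero_mem _
      · rw [mul_div_cancel_right₀ _ (fr_ne _ _ _ _ _)]
        exact hr ⟨i, h⟩
    · dsimp only
      rw [dif_pos i.2, mul_div_cancel_right₀ _ (fr_ne _ _ _ _ _)]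
  refine ⟨η, hη, fun i l => ?_⟩
  have h1 : L2 x (OX x) i l ((d * θ i l - (η l - η i)) / fr x g t (a + δ) i) := by
    have a1 : L2 x (OX x) i l (d * θ i l / fr x g t (a + δ) i) := by
      rw [hfr, ← div_mul_div_comm]
      exact (Idl.top x).l2_mul ((Idl.top x).l2_of_mem l (hd i)) (hθ.1 i l)
    have a2 : L2 x (OX x) i l (η i / fr x g t (a + δ) i) := (Idl.top x).l2_of_mem l (hη i)
    have a3 : L2 x (OX x) i l (η l / fr x g t (a + δ) i) :=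
      (Idl.top x).l2_fr hc ((Idl.top x).l2_of_mem i (hη l))
    have e : (d * θ i l - (η l - η i)) / fr x g t (a + δ) i = d * θ i l / fr x g t (a + δ) i +
        (-(η l / fr x g t (a + δ) i) + η i / fr x g t (a + δ) i) := by ring
    rw [e]
    exact (Idl.top x).l2_add a1 ((Idl.top x).l2_add ((Idl.top x).l2_neg a3) a2)
  by_cases hi : (1 : K) ∈ J.J i
  · have h2 := J.l2_mul h1 (J.l2_of_mem l hi)
    rwa [mul_one] at h2
  by_cases hl : (1 : K) ∈ J.J l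
  · have h2 := J.l2_mul h1 (J.l2_symm (J.l2_of_mem i hl))
    rwa [mul_one] at h2
  obtain ⟨h2, -, h3⟩ := kill_l2 R ⟨i, hi⟩ ⟨l, hl⟩ h1
  refine h3 ((mul_eq_zero.1 ?_).resolve_right (fr_ne R.x' R.g' t (a + δ) ⟨i, hi⟩))
  have h4 : ∀ j : {i // (1 : K) ∉ J.J i}, R.ρ (η j / fr x g t (a + δ) R.i₀) =
      d' * R.ρ (θ R.i₀ j / fr x g t a R.i₀) - b := fun j => by
    rw [(kill_fr R j (R.le j _ (hη j))).2, hη', hr', div_mul_cancel₀ _ (fr_ne _ _ _ _ _)]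
  have h5 : R.ρ (d * θ i l / fr x g t (a + δ) R.i₀) = d' * R.ρ (θ i l / fr x g t a R.i₀) := by
    rw [hfr, ← div_mul_div_comm, R.ρ_mul _ (R.le R.i₀ _ (sec_iff_fr.1 hd R.i₀)) _
      (kill_fr R ⟨i, hi⟩ (kill_l2 R ⟨i, hi⟩ ⟨l, hl⟩ (hθ.1 i l)).1).1, fr_zero, hρ]
  rw [← (kill_fr R ⟨i, hi⟩ h2).2, sub_div, sub_div, map_sub, map_sub, h5, h4 ⟨l, hl⟩, h4 ⟨i, hi⟩,
    ← kill_coc R hθ ⟨i, hi⟩ ⟨l, hl⟩]
  ring

end

end Pool.Agent.Lib.MP_bc213e_ag.KBB
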