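import Pool.Agent.Lib.MP_bc213e_ag.KBB.Main

/-! Exact solvability of Cousin problems and lifting of sections from closed subschemes. -/

namespace Pool.Agent.Lib.MP_bc213e_ag.KBB

open Pool.Agent.Lib.MP_bc213e_ag.Hyp

noncomputable section

variable {K ι : Type} [Field K] [Algebra ℂ K] {x g : ι → Kˣ}

theorem lift_l2_bot {i l : ι} {r : K} (h : L2 x (Idl.bot x).J i l r) : r = 0 := by
  obtain ⟨e, he⟩ := h
  have h1 : r * ((x l : K) / x i) ^ e = 0 := he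
  exact (mul_eq_zero.1 h1).resolve_right (pow_ne_zero _ (div_ne_zero (x l).ne_zero (x i).ne_zero))

/-- Cousin problems for `t L + a H` are solvable for `a ≥ a₀`, uniformly in `t`. -/
theorem cousin [Fintype ι] [Nonempty ι] (hc : Cart x g) (hn : Nef x g) :
    ∃ a₀ : ℕ, ∀ t a : ℕ, a₀ ≤ a → ∀ c : ι → K,
      (∀ i l, L2 x (OX x) i l ((c l - c i) / fr x g t a i)) →
        ∃ b : K, ∀ i, (c i - b) / fr x g t a i ∈ chart x i := by
  obtain ⟨⟨a₀, h⟩, -⟩ := good hc hn (Idl.bot x)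
  refine ⟨a₀, fun t a ha c hcc => ?_⟩
  obtain ⟨i₀⟩ := ‹Nonempty ι›
  obtain ⟨η, h1, h2⟩ := (h t a ha).1 (fun i l => c l - c i) ⟨hcc, fun i l j => ⟨0, by
    rw [show c l - c i + (c j - c l) - (c j - c i) = 0 by ring]
    simp⟩⟩
  refine ⟨c i₀ - η i₀, fun i => ?_⟩
  have h3 := (div_eq_zero_iff.1 (lift_l2_bot (h2 i₀ i))).resolve_right (fr_ne x g t a i₀)
  rw [show c i - (c i₀ - η i₀) = η i by linear_combination h3]
  exact h1 i

/-- Sections of `(O / J)(t L + a H)` lift for `a ≥ a₀`, uniformly in `t`. -/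
def LiftP (g : ι → Kˣ) (J : Idl x) : Prop :=
  ∃ a₀ : ℕ, ∀ t a : ℕ, a₀ ≤ a → ∀ s ∈ J.Z0 g t a,
    ∃ s' : K, Sec x g t a s' ∧ ∀ i, (s i - s') / fr x g t a i ∈ J.J i

theorem lift_bot [Nonempty ι] : LiftP g (Idl.bot x) := by
  obtain ⟨i₀⟩ := ‹Nonempty ι›
  refine ⟨0, fun t a _ s hs => ?_⟩
  have h : ∀ i, s i = s i₀ := fun i => sub_eq_zero.1
    ((div_eq_zero_iff.1 (lift_l2_bot (hs.2 i₀ i))).resolve_right (fr_ne x g t a i₀))
  refine ⟨s i₀, fun i => ?_, fun i => ?_⟩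
  · rw [← h i]
    exact hs.1 i
  · rw [h i, sub_self, zero_div]
    exact zero_mem _

theorem lift_adj [Fintype ι] (hc : Cart x g) (hn : Nef x g) {J : Idl x} (hJ : LiftP g J) {c : ℕ}
    {f : K} (hf : Sec x g 0 c f) : LiftP g (J.adj hc hf) := by
  obtain ⟨a₀, h0⟩ := hJ
  obtain ⟨⟨a₁, h1⟩, -⟩ := good hc hn (J.colon hc hf)
  refine ⟨a₀ + a₁ + c, fun t a ha s hs => ?_⟩
  obtain ⟨a', rfl⟩ : ∃ a', a = a' + c := ⟨a - c, by omega⟩
  have e1 := J.add_lift hc hf (h1 t a' (by omega)).1 (s := s)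
  rw [add_zero] at e1
  obtain ⟨s', hs', h2⟩ := e1 hs
  obtain ⟨u, hu, h3⟩ := h0 t _ (by omega) s' hs'
  refine ⟨u, hu, fun i => ?_⟩
  have h4 := sub_mem (J.le_adj hc hf i (h3 i)) (h2 i)
  rwa [← sub_div, Pi.sub_apply, show s' i - u - (s' i - s i) = s i - u by ring] at h4

/-- Lifting of sections from an arbitrary closed subscheme. -/
theorem lift [Fintype ι] [Nonempty ι] (hc : Cart x g) (hn : Nef x g) (J : Idl x) : LiftP g J := by
  refine Idl.induction (fun J' => (∀ i, J'.J i ≤ J.J i) → LiftP g J' → LiftP g J)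
    (fun J' ih hle hJ' => ?_) (Idl.bot x) (fun i => bot_le) lift_bot
  by_cases h : ∀ i, J.J i ≤ J'.J i
  · rwa [main_ext fun i => le_antisymm (h i) (hle i)]
  obtain ⟨i, hi⟩ := not_forall.1 h
  obtain ⟨r, hr, hr'⟩ := SetLike.not_le_iff_exists.1 hi
  obtain ⟨c, h1⟩ := res_unif (g := g) J.mul fun l => J.glue i l r hr
  have hf : Sec x g 0 c (r * (x i : K) ^ c) := fun l => J.le l _ (h1 c le_rfl l)
  refine ih (J'.adj hc hf) (J'.le_adj hc hf) ⟨i, _, J'.self_mem_adj hc hf i, ?_⟩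
    (fun l u hu => ?_) (lift_adj hc hn hJ' hf)
  · rwa [res_fr, div_self (x i).ne_zero, one_pow, mul_one]
  · obtain ⟨s, hs, h2⟩ := (J'.mem_adj hc hf).1 hu
    have h3 := add_mem (hle l h2) (J.mul l _ hs _ (h1 c le_rfl l))
    rwa [sub_add_cancel] at h3

end

end Pool.Agent.Lib.MP_bc213e_ag.KBB
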