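import Pool.Agent.Lib.MP_bc213e_ag.KBB.Defs

/-! Functions that are eventually polynomial. -/

namespace Pool.Agent.Lib.MP_bc213e_ag.KBB

open Pool.Agent.Lib.MP_bc213e_ag.Hyp MvPolynomial

noncomputable section

/-- Functions that are polynomial everywhere. -/
def poly_PF (f : ℕ → ℕ → ℚ) : Prop :=
  ∃ P : MvPolynomial (Fin 2) ℚ, ∀ t a : ℕ, f t a = eval ![(t : ℚ), (a : ℚ)] P

theorem poly_eval_bind (x : Fin 2 → ℚ) (U V P : MvPolynomial (Fin 2) ℚ) :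
    eval x (bind₁ ![U, V] P) = eval ![eval x U, eval x V] P := by
  have h : (fun i => eval x (![U, V] i)) = ![eval x U, eval x V] := by
    funext i
    fin_cases i <;> rfl
  rw [← h]
  exact eval₂Hom_bind₁ (RingHom.id ℚ) x ![U, V] P

theorem poly_const (c : ℚ) : poly_PF fun _ _ => c := ⟨C c, fun _ _ => (eval_C c).symm⟩

theorem poly_add {f g : ℕ → ℕ → ℚ} (hf : poly_PF f) (hg : poly_PF g) :
    poly_PF fun t a => f t a + g t a := by
  obtain ⟨P, hP⟩ := hf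
  obtain ⟨Q, hQ⟩ := hg
  exact ⟨P + Q, fun t a => by beta_reduce; rw [map_add, hP, hQ]⟩

theorem poly_sub {f g : ℕ → ℕ → ℚ} (hf : poly_PF f) (hg : poly_PF g) :
    poly_PF fun t a => f t a - g t a := by
  obtain ⟨P, hP⟩ := hf
  obtain ⟨Q, hQ⟩ := hg
  exact ⟨P - Q, fun t a => by beta_reduce; rw [map_sub, hP, hQ]⟩

theorem poly_shift {f : ℕ → ℕ → ℚ} (hf : poly_PF f) (c : ℕ) :
    poly_PF fun t a => f t (c + a + 1) := by
  obtain ⟨P, hP⟩ := hf
  refine ⟨bind₁ ![X 0, C (c : ℚ) + X 1 + 1] P, fun t a => ?_⟩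
  beta_reduce
  rw [poly_eval_bind, hP]
  simp

theorem poly_line {f : ℕ → ℕ → ℚ} (hf : poly_PF f) (c : ℕ) :
    poly_PF fun _ a => f (a + 1) c := by
  obtain ⟨P, hP⟩ := hf
  refine ⟨bind₁ ![X 1 + 1, C (c : ℚ)] P, fun t a => ?_⟩
  beta_reduce
  rw [poly_eval_bind, hP]
  simp

theorem poly_swap {f : ℕ → ℕ → ℚ} (hf : poly_PF f) : poly_PF fun t _ => f 0 t := by
  obtain ⟨P, hP⟩ := hf
  refine ⟨bind₁ ![0, X 0] P, fun t a => ?_⟩
  beta_reduce
  rw [poly_eval_bind, hP]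
  simp

theorem poly_sum {f : ℕ → ℕ → ℚ} (hf : poly_PF f) :
    poly_PF fun t a => ∑ j ∈ Finset.range a, f t j := by
  obtain ⟨P, hP⟩ := hf
  simp only [hP]
  clear hP
  induction P using MvPolynomial.induction_on' with
  | monomial m c =>
    refine ⟨C c * X 0 ^ m 0 * ∑ i ∈ Finset.range (m 1 + 1),
      C (bernoulli i * ((m 1 + 1).choose i) / (m 1 + 1) : ℚ) * X 1 ^ (m 1 + 1 - i), fun t a => ?_⟩
    have h : ∀ j : ℕ, eval ![(t : ℚ), (j : ℚ)] (monomial m c) =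
        c * (t : ℚ) ^ m 0 * (j : ℚ) ^ m 1 := fun j => by
      rw [eval_monomial, Finsupp.prod_fintype _ _ fun _ => pow_zero _, Fin.prod_univ_two,
        mul_assoc]
      rfl
    simp only [h, ← Finset.mul_sum, map_mul, map_sum, map_pow, eval_C, eval_X,
      Matrix.cons_val_zero, Matrix.cons_val_one]
    rw [sum_range_pow]
    congr 1
    exact Finset.sum_congr rfl fun i _ => by ring
  | add p q hp hq =>
    simp only [map_add, Finset.sum_add_distrib]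
    exact poly_add hp hq

theorem IsP.congr {h h' : ℕ → ℕ → ℚ} (H : IsP h) (a₁ : ℕ) (e : ∀ t a, a₁ ≤ a → h' t a = h t a) :
    IsP h' := by
  obtain ⟨P, a₀, hP⟩ := H
  exact ⟨P, max a₀ a₁, fun t a ha => by
    rw [e t a ((le_max_right _ _).trans ha), hP t a ((le_max_left _ _).trans ha)]⟩

theorem IsP.zero : IsP fun _ _ => 0 := by
  exact ⟨0, 0, fun _ _ _ => (map_zero _).symm⟩

theorem IsP.add {h h' : ℕ → ℕ → ℚ} (H : IsP h) (H' : IsP h') : IsP fun t a => h t a + h' t a := by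
  obtain ⟨P, a₀, hP⟩ := H
  obtain ⟨Q, a₁, hQ⟩ := H'
  exact ⟨P + Q, max a₀ a₁, fun t a ha => by
    beta_reduce
    rw [map_add, hP t a ((le_max_left _ _).trans ha), hQ t a ((le_max_right _ _).trans ha)]⟩

/-- Sketch: substitute `X 1 - C δ` for `X 1` (`bind₁` or `aeval`). -/
theorem IsP.sub_shift {h : ℕ → ℕ → ℚ} (H : IsP h) (δ : ℕ) : IsP fun t a => h t (a - δ) := by
  obtain ⟨P, a₀, hP⟩ := H
  refine ⟨bind₁ ![X 0, X 1 - C (δ : ℚ)] P, a₀ + δ, fun t a ha => ?_⟩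
  beta_reduce
  rw [poly_eval_bind, hP t (a - δ) (by omega), Nat.cast_sub (by omega)]
  simp

/-- Sketch: for every `Q` there is `R` with `R (t, a + 1) - R (t, a) = Q (t, a + 1)` (enough for
monomials; `Polynomial.sum_range_pow_eq_bernoulli_sub` or induction on the degree in `a`). Then
`h t a = h t a₂ + R (t, a) - R (t, a₂)` for `a ≥ a₂`, and `t ↦ h t (a₂ + e)` has polynomial first
differences. -/
theorem IsP.step {h h₁ h₂ : ℕ → ℕ → ℚ} (H₁ : IsP h₁) (H₂ : IsP h₂) (a₁ e : ℕ)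
    (e₁ : ∀ t a, a₁ ≤ a → h t (a + 1) = h t a + h₁ t (a + 1))
    (e₂ : ∀ t a, a₁ ≤ a → h (t + 1) (a + e) = h t a + h₂ (t + 1) (a + e)) : IsP h := by
  obtain ⟨P₁, b₁, hP₁⟩ := H₁
  obtain ⟨P₂, b₂, hP₂⟩ := H₂
  obtain ⟨c, hc⟩ : ∃ c, c = a₁ + b₁ + b₂ := ⟨_, rfl⟩
  obtain ⟨q₁, hq₁⟩ : ∃ q : ℕ → ℕ → ℚ, ∀ t a, q t a = eval ![(t : ℚ), (a : ℚ)] P₁ :=
    ⟨_, fun _ _ => rfl⟩
  obtain ⟨q₂, hq₂⟩ : ∃ q : ℕ → ℕ → ℚ, ∀ t a, q t a = eval ![(t : ℚ), (a : ℚ)] P₂ :=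
    ⟨_, fun _ _ => rfl⟩
  obtain ⟨S, hS⟩ : ∃ S : ℕ → ℕ → ℚ, S = fun t b => ∑ j ∈ Finset.range b, q₁ t (c + j + 1) :=
    ⟨_, rfl⟩
  have pS : poly_PF S := hS ▸ poly_sum (poly_shift ⟨P₁, hq₁⟩ c)
  have hA : ∀ t b, h t (c + b) = h t c + S t b := by
    intro t b
    subst hS
    induction b with
    | zero => simp
    | succ b ih =>
      simp only [Finset.sum_range_succ] at ih ⊢
      rw [← add_assoc c, e₁ t (c + b) (by omega), ih, hP₁ t _ (by omega), hq₁, add_assoc]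
  have hB : ∀ t, h t c =
      h 0 c + ∑ j ∈ Finset.range t, (q₂ (j + 1) (c + e) - S (j + 1) e) := by
    intro t
    induction t with
    | zero => simp
    | succ t ih =>
      have h1 := e₂ t c (by omega)
      rw [hA, hP₂ _ _ (by omega), ← hq₂, ih] at h1
      rw [Finset.sum_range_succ]
      linear_combination h1
  obtain ⟨G, hG⟩ := poly_add (poly_add (poly_const (h 0 c))
    (poly_swap (poly_sum (poly_sub (poly_line ⟨P₂, hq₂⟩ (c + e)) (poly_line pS e))))) pS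
  have hI : IsP fun t b => h t (c + b) := ⟨G, 0, fun t b _ => by
    rw [← hG]
    beta_reduce
    rw [hA, hB]⟩
  refine (hI.sub_shift c).congr c fun t a ha => ?_
  rw [Nat.add_sub_cancel' ha]

end

end Pool.Agent.Lib.MP_bc213e_ag.KBB
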