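import Pool.Agent.Lib.MP_bc213e_ag.KBB.Sheaf

/-! The function field of the subvariety defined by a prime ideal sheaf. -/

namespace Pool.Agent.Lib.MP_bc213e_ag.KBB

open Pool.Agent.Lib.MP_bc213e_ag.Hyp MvPolynomial

noncomputable section

variable {K ι : Type} [Field K] [Algebra ℂ K] {x g : ι → Kˣ}


omit [Algebra ℂ K] in
theorem res_fr (a : ℕ) (r : K) (i l : ι) :
    r * (x i : K) ^ a / fr x g 0 a l = r * ((x i : K) / x l) ^ a := by
  rw [fr, zpow_zero, one_mul, div_pow, mul_div_assoc]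

theorem res_unif [Fintype ι] {M : ι → Submodule ℂ K}
    (hM : ∀ i, ∀ s ∈ chart x i, ∀ r ∈ M i, s * r ∈ M i) {i : ι} {r : K}
    (h : ∀ l, ∃ e : ℕ, r * ((x i : K) / x l) ^ e ∈ M l) :
    ∃ c : ℕ, ∀ a, c ≤ a → ∀ l, r * (x i : K) ^ a / fr x g 0 a l ∈ M l := by
  choose e he using h
  refine ⟨Finset.univ.sup e, fun a ha l => ?_⟩
  obtain ⟨d, rfl⟩ := Nat.exists_eq_add_of_le ((Finset.le_sup (Finset.mem_univ l)).trans ha)
  rw [res_fr, pow_add, ← mul_assoc, mul_comm]
  exact hM l _ (pow_mem (Basic_mem x l i) _) _ (he l)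

theorem res_prime [Fintype ι] {J : Idl x} (hp : J.Prime g) {i : ι} {r r' : K}
    (hr : r ∈ chart x i) (hr' : r' ∈ chart x i) (h : r * r' ∈ J.J i) : r ∈ J.J i ∨ r' ∈ J.J i := by
  obtain ⟨a, ha⟩ := res_unif (g := g) (M := OX x) (fun i _ hs _ hr => (chart x i).mul_mem hs hr)
    fun l => chart_trans x i l hr
  obtain ⟨b, hb⟩ := res_unif (g := g) (M := OX x) (fun i _ hs _ hr => (chart x i).mul_mem hs hr)
    fun l => chart_trans x i l hr'
  obtain ⟨c, hc⟩ := res_unif (g := g) J.mul fun l => J.glue i l _ h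
  have h1 := hp (a + c) b _ _ (ha (a + c) (by omega)) (hb b le_rfl) fun l => by
    have h2 := hc (a + c + b) (by omega) l
    rwa [pow_add, mul_mul_mul_comm] at h2
  refine h1.imp (fun h2 => ?_) fun h2 => ?_
  all_goals
    have h3 := h2 i
    rwa [res_fr, div_self (x i).ne_zero, one_pow, mul_one] at h3

theorem res_pow [Fintype ι] {J : Idl x} (hp : J.Prime g) {i : ι} {r u : K}
    (hr : r ∈ chart x i) (hu : u ∈ chart x i) (hu' : u ∉ J.J i) {e : ℕ}
    (h : r * u ^ e ∈ J.J i) : r ∈ J.J i := by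
  induction e with
  | zero => rwa [pow_zero, mul_one] at h
  | succ e ih =>
    rw [pow_succ, ← mul_assoc] at h
    exact ih ((res_prime hp (mul_mem hr (pow_mem hu _)) hu h).resolve_right hu')

theorem res_not [Fintype ι] {J : Idl x} (hp : J.Prime g) {i l : ι} (hi : (1 : K) ∉ J.J i)
    (hl : (1 : K) ∉ J.J l) : (x l : K) / x i ∉ J.J i := fun h => by
  obtain ⟨c, hc⟩ := res_unif (g := g) J.mul fun j => J.glue i j _ h
  have h0 : ∀ j a, Sec x g 0 a (1 * (x j : K) ^ a) := fun j a m => by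
    have h1 : 1 * (x j : K) ^ a / fr x g 0 a m ∈ chart x m := by
      rw [res_fr, one_mul]
      exact pow_mem (Basic_mem x m j) _
    exact h1
  have h1 := hp c 1 _ _ (h0 i c) (h0 l 1) fun j => by
    have h2 := hc (c + 1) (by omega) j
    have h3 : (x l : K) / x i * (x i : K) ^ (c + 1) = 1 * (x i : K) ^ c * (1 * (x l : K) ^ 1) := by
      field_simp
      ring
    rwa [h3] at h2
  rcases h1 with h2 | h2
  · have h3 := h2 i
    rw [res_fr, div_self (x i).ne_zero, one_pow, mul_one] at h3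
    exact hi h3
  · have h3 := h2 l
    rw [res_fr, div_self (x l).ne_zero, one_pow, mul_one] at h3
    exact hl h3

theorem res_field (A : Type) [CommRing A] [Algebra ℂ A] (P : Ideal A) [P.IsPrime] :
    ∃ (F : Type) (_ : Field F) (_ : Algebra ℂ F) (φ : A →ₐ[ℂ] F),
      (∀ a, φ a = 0 ↔ a ∈ P) ∧ ∀ z : F, ∃ a b, z = φ a / φ b := by
  refine ⟨FractionRing (A ⧸ P), inferInstance, inferInstance,
    (IsScalarTower.toAlgHom ℂ (A ⧸ P) _).comp (Ideal.Quotient.mkₐ ℂ P), fun a => ?_, fun z => ?_⟩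
  · rw [← Ideal.Quotient.eq_zero_iff_mem]
    exact map_eq_zero_iff (algebraMap (A ⧸ P) (FractionRing (A ⧸ P)))
      (IsFractionRing.injective _ _)
  · obtain ⟨a, b, -, rfl⟩ := IsFractionRing.div_surjective (A ⧸ P) z
    obtain ⟨a, rfl⟩ := Ideal.Quotient.mk_surjective a
    obtain ⟨b, rfl⟩ := Ideal.Quotient.mk_surjective b
    exact ⟨a, b, rfl⟩

/-- The localisation of `A` at the kernel of `φ`. -/
def res_O {F : Type} [Field F] [Algebra ℂ F] (A : Subalgebra ℂ K) (φ : A →ₐ[ℂ] F) :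
    Subalgebra ℂ K where
  carrier := {z | ∃ s t : A, φ s ≠ 0 ∧ (s : K) * z = t}
  mul_mem' := by
    rintro a b ⟨s, t, hs, h⟩ ⟨s', t', hs', h'⟩
    refine ⟨s * s', t * t', by rw [map_mul]; exact mul_ne_zero hs hs', ?_⟩
    rw [Subalgebra.coe_mul, Subalgebra.coe_mul, ← h, ← h']
    ring
  add_mem' := by
    rintro a b ⟨s, t, hs, h⟩ ⟨s', t', hs', h'⟩
    refine ⟨s * s', t * s' + s * t', by rw [map_mul]; exact mul_ne_zero hs hs', ?_⟩
    rw [Subalgebra.coe_add, Subalgebra.coe_mul, Subalgebra.coe_mul, Subalgebra.coe_mul, ← h, ← h']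
    ring
  algebraMap_mem' c := ⟨1, algebraMap ℂ A c, by rw [map_one]; exact one_ne_zero, one_mul _⟩

theorem res_rho {F : Type} [Field F] [Algebra ℂ F] (A : Subalgebra ℂ K) (φ : A →ₐ[ℂ] F) :
    ∃ ρ : K →ₗ[ℂ] F, ∀ (z : K) (s t : A), φ s ≠ 0 → (s : K) * z = t → ρ z = φ t / φ s := by
  have h0 : ∀ z : Subalgebra.toSubmodule (res_O A φ), ∃ y : F,
      ∀ s t : A, φ s ≠ 0 → (s : K) * z = t → y = φ t / φ s := by
    rintro ⟨z, s, t, hs, h⟩
    refine ⟨φ t / φ s, fun s' t' hs' h' => ?_⟩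
    rw [div_eq_div_iff hs hs', ← map_mul, ← map_mul]
    congr 1
    ext1
    rw [Subalgebra.coe_mul, Subalgebra.coe_mul, ← h, ← h']
    ring
  choose f hf using h0
  obtain ⟨ρ, hρ⟩ := LinearMap.exists_extend (p := Subalgebra.toSubmodule (res_O A φ))
    { toFun := f
      map_add' := fun a b => by
        obtain ⟨s, t, hs, h⟩ := a.2
        obtain ⟨s', t', hs', h'⟩ := b.2
        rw [hf a s t hs h, hf b s' t' hs' h', hf (a + b) (s * s') (t * s' + s * t')
          (by rw [map_mul]; exact mul_ne_zero hs hs') (by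
            change (s : K) * s' * (a + b) = t * s' + s * t'
            rw [← h, ← h']
            ring), map_add, map_mul, map_mul, map_mul, div_add_div _ _ hs hs']
      map_smul' := fun c a => by
        obtain ⟨s, t, hs, h⟩ := a.2
        rw [hf a s t hs h, hf (c • a) s (c • t) hs (by
          change (s : K) * c • (a : K) = c • (t : K)
          rw [← h, mul_smul_comm]), map_smul,
          smul_div_assoc, RingHom.id_apply] }
  exact ⟨ρ, fun z s t hs h =>
    (LinearMap.congr_fun hρ ⟨z, s, t, hs, h⟩).trans (hf ⟨z, s, t, hs, h⟩ s t hs h)⟩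

/-- Sketch: `A = chart x i₀`, `𝔭 = {r : A | r ∈ J i₀}` is prime: `r = f / x i₀ ^ a` with `f` a
section of `a H` (`chart_trans`, uniform exponent over the finite set `ι`), `x i₀ ^ k f f' ∈ J` by
`glue`, and `x i₀ ^ k ∉ J`. `F = FractionRing (A ⧸ 𝔭)`,
`O = Localization.subalgebra.ofField`-like: `{a / s | s ∉ 𝔭}`, `ρ` = `IsLocalization.lift` (or a
direct definition) extended linearly (`LinearMap.exists_extend`). For `i` with `1 ∉ J i`:
`x i / x i₀ ∉ 𝔭` (else `x i₀ ^ k * x i ∈ J`), so `chart x i ≤ O`; `g i / g i₀` and its inverse lie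
in `O` by `fr_trans`. If `1 ∈ J i` then `(x i / x i₀) ^ e ∈ 𝔭`. -/
theorem exists_rd [Fintype ι] (hc : Cart x g) (J : Idl x) (hp : J.Prime g) {i₀ : ι}
    (h0 : (1 : K) ∉ J.J i₀) :
    ∃ (F : Type) (_ : Field F) (_ : Algebra ℂ F), Nonempty (Rd x g J F) := by
  let P : Ideal (chart x i₀) :=
    { carrier := {r | (r : K) ∈ J.J i₀}
      add_mem' := fun ha hb => (J.J i₀).add_mem ha hb
      zero_mem' := (J.J i₀).zero_mem
      smul_mem' := fun s r hr => J.mul i₀ _ s.2 _ hr }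
  have : P.IsPrime := ⟨(Ideal.ne_top_iff_one _).2 h0, fun {a b} h => res_prime hp a.2 b.2 h⟩
  obtain ⟨F, _, _, φ, hφ, hF⟩ := res_field (chart x i₀) P
  obtain ⟨ρ, hρ⟩ := res_rho (chart x i₀) φ
  have h1 : ∀ a : chart x i₀, ρ a = φ a := fun a => by
    rw [hρ a 1 a (by rw [map_one]; exact one_ne_zero) (one_mul _), map_one, div_one]
  have hA : ∀ r ∈ chart x i₀, r ∈ res_O (chart x i₀) φ := fun r hr =>
    ⟨1, ⟨r, hr⟩, by rw [map_one]; exact one_ne_zero, one_mul _⟩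
  let u : ι → chart x i₀ := fun i => ⟨(x i : K) / x i₀, Basic_mem x i₀ i⟩
  have hu : ∀ i : {i // (1 : K) ∉ J.J i}, φ (u i) ≠ 0 := fun i h => res_not hp h0 i.2 ((hφ _).1 h)
  have hue : ∀ (i : {i // (1 : K) ∉ J.J i}) (e : ℕ), φ (u i ^ e) ≠ 0 := fun i e => by
    rw [map_pow]
    exact pow_ne_zero _ (hu i)
  have hu0 : ∀ i, (1 : K) ∈ J.J i → φ (u i) = 0 := fun i hi => by
    obtain ⟨e, he⟩ := J.glue i i₀ _ hi
    by_contra hne
    exact h0 (res_pow hp (one_mem _) (u i).2 (fun h => hne ((hφ _).2 h)) he)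
  have hmul : ∀ a ∈ res_O (chart x i₀) φ, ∀ b ∈ res_O (chart x i₀) φ, ρ (a * b) = ρ a * ρ b := by
    rintro a ⟨s, t, hs, h⟩ b ⟨s', t', hs', h'⟩
    rw [hρ a s t hs h, hρ b s' t' hs' h', hρ (a * b) (s * s') (t * t')
      (by rw [map_mul]; exact mul_ne_zero hs hs') (by
        rw [Subalgebra.coe_mul, Subalgebra.coe_mul, ← h, ← h']
        ring), map_mul, map_mul, div_mul_div_comm]
  have hone : ρ 1 = 1 := (h1 1).trans (map_one φ)
  have hle : ∀ i : {i // (1 : K) ∉ J.J i}, ∀ r ∈ chart x i, r ∈ res_O (chart x i₀) φ := by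
    intro i r hr
    obtain ⟨e, he⟩ := chart_trans x i i₀ hr
    exact ⟨u i ^ e, ⟨_, he⟩, hue i e, mul_comm _ _⟩
  have hg : ∀ i : {i // (1 : K) ∉ J.J i}, (g i : K) / g i₀ ∈ res_O (chart x i₀) φ := by
    intro i
    obtain ⟨e, he⟩ := hc i i₀
    exact ⟨u i ^ e, ⟨_, he⟩, hue i e, mul_comm _ _⟩
  have hg0 : ∀ i : {i // (1 : K) ∉ J.J i}, ρ ((g i : K) / g i₀) ≠ 0 := by
    intro i h
    obtain ⟨e, he⟩ := hc i₀ i
    have h2 := hmul _ (hg i) _ (mul_mem (hle i _ he) (hA _ (pow_mem (Basic_mem x i₀ i) e)))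
    have h3 : (g i : K) / g i₀ * ((g i₀ : K) / g i * ((x i₀ : K) / x i) ^ e *
        ((x i : K) / x i₀) ^ e) = 1 := by
      rw [mul_assoc, ← mul_pow, div_mul_div_cancel₀ (x i).ne_zero, div_self (x i₀).ne_zero,
        one_pow, mul_one, div_mul_div_cancel₀ (g i₀).ne_zero, div_self (g i).ne_zero]
    rw [h3, h, zero_mul, hone] at h2
    exact one_ne_zero h2
  refine ⟨F, _, _, ⟨
    { i₀ := ⟨i₀, h0⟩
      x' := fun i => Units.mk0 _ (hu i)
      g' := fun i => Units.mk0 _ (hg0 i)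
      O := res_O (chart x i₀) φ
      ρ := ρ
      one := ?_
      gen := ?_
      ρ_one := hone
      ρ_mul := hmul
      inv := ?_
      le := hle
      ker := ?_
      ρ_x := fun i => h1 (u i)
      ρ_x0 := fun i hi => (h1 (u i)).trans (hu0 i hi)
      g_mem := hg
      ρ_g := fun _ => rfl }⟩⟩
  · ext1
    have h2 : u i₀ = 1 := Subtype.ext (div_self (x i₀).ne_zero)
    rw [Units.val_mk0, Units.val_one, h2, map_one]
  · refine eq_top_iff.2 fun z _ => ?_
    obtain ⟨a, b, rfl⟩ := hF z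
    have h2 : ∀ r (hr : r ∈ chart x i₀), φ ⟨r, hr⟩ ∈ IntermediateField.adjoin ℂ
        (Set.range fun i : {i // (1 : K) ∉ J.J i} => ((Units.mk0 _ (hu i) : Fˣ) : F)) := by
      intro r hr
      induction hr using Algebra.adjoin_induction with
      | mem r hr =>
        obtain ⟨j, rfl⟩ := hr
        by_cases hj : (1 : K) ∈ J.J j
        · exact (hu0 j hj).symm ▸ zero_mem _
        · exact IntermediateField.subset_adjoin _ _ ⟨⟨j, hj⟩, rfl⟩
      | algebraMap c => exact (φ.commutes c).symm ▸ IntermediateField.algebraMap_mem _ c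
      | add a b ha hb iha ihb => exact (map_add φ ⟨a, ha⟩ ⟨b, hb⟩).symm ▸ add_mem iha ihb
      | mul a b ha hb iha ihb => exact (map_mul φ ⟨a, ha⟩ ⟨b, hb⟩).symm ▸ mul_mem iha ihb
    exact div_mem (h2 a a.2) (h2 b b.2)
  · rintro r ⟨s, t, hs, h⟩ hr
    refine ⟨t, s, fun ht => hr ?_, ?_⟩
    · rw [hρ r s t hs h, ht, zero_div]
    · rw [← h, mul_inv_cancel_right₀ fun h2 => hr (by rw [h2, map_zero])]
  · intro i r hr
    constructor
    · intro h
      obtain ⟨e, he⟩ := chart_trans x i i₀ hr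
      rw [hρ r (u i ^ e) ⟨_, he⟩ (hue i e) (mul_comm _ _), div_eq_zero_iff] at h
      obtain ⟨d, hd⟩ := J.glue i₀ i _ ((hφ _).1 (h.resolve_right (hue i e)))
      have h2 := J.mul i _ (pow_mem (Basic_mem x i i₀) e) _ hd
      have h3 : ((x i₀ : K) / x i) ^ e * (r * ((x i : K) / x i₀) ^ e * ((x i₀ : K) / x i) ^ d) =
          r * ((x i₀ : K) / x i) ^ d := by
        rw [← mul_assoc, mul_left_comm, ← mul_pow, div_mul_div_cancel₀ (x i).ne_zero,
          div_self (x i₀).ne_zero, one_pow, mul_one]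
      rw [h3] at h2
      exact res_pow hp hr (Basic_mem x i i₀) (res_not hp i.2 h0) h2
    · intro h
      obtain ⟨e, he⟩ := J.glue i i₀ _ h
      rw [hρ r (u i ^ e) ⟨_, J.le _ _ he⟩ (hue i e) (mul_comm _ _), (hφ _).2 he, zero_div]

end

end Pool.Agent.Lib.MP_bc213e_ag.KBB
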