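import Pool.Agent.Lib.MP_bc213e_ag.KBB.Kill
import Pool.Agent.Lib.MP_bc213e_ag.KBB.Res
import Pool.Agent.Lib.MP_bc213e_ag.KBB.Ext
import Pool.Agent.Lib.MP_bc213e_ag.KBB.Add
import Pool.Agent.Lib.MP_bc213e_ag.KBB.Poly

/-! Fujita vanishing for the first cohomology and the uniform Hilbert polynomial. -/

namespace Pool.Agent.Lib.MP_bc213e_ag.KBB

open Pool.Agent.Lib.MP_bc213e_ag.Hyp MvPolynomial

noncomputable section

variable {K ι : Type} [Field K] [Algebra ℂ K] {x g : ι → Kˣ}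


/-- The inductive statement. -/
def Good (g : ι → Kˣ) (J : Idl x) : Prop :=
  (∃ a₀ : ℕ, ∀ t a : ℕ, a₀ ≤ a → J.H1z g t a ∧ FiniteDimensional ℂ (J.H0 g t a)) ∧
    IsP fun t a => (Module.finrank ℂ (J.H0 g t a) : ℚ)

theorem main_ext {J J' : Idl x} (h : ∀ i, J.J i = J'.J i) : J = J' := by
  obtain ⟨J, _, _, _⟩ := J
  obtain ⟨J', _, _, _⟩ := J'
  obtain rfl : J = J' := funext h
  rfl

theorem main_adj (hc : Cart x g) (J : Idl x) {t : ℤ} {a : ℕ} {f : K} (hf : Sec x g t a f)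
    (h : ¬ J.Has g t a f) : ∃ i, ∃ r ∈ (J.adj hc hf).J i, r ∉ J.J i := by
  obtain ⟨i, hi⟩ := not_forall.1 h
  exact ⟨i, _, J.self_mem_adj hc hf i, hi⟩

theorem main_sec [Fintype ι] (hc : Cart x g) (t : ℤ) (i₀ : ι) :
    ∃ e : ℕ, Sec x g t e (fr x g t e i₀) := by
  choose e he using fun i => fr_trans hc t 0 i₀ i
  refine ⟨Finset.univ.sup e, fun i => ?_⟩
  obtain ⟨c, hc'⟩ := Nat.exists_eq_add_of_le (Finset.le_sup (f := e) (Finset.mem_univ i))
  have h := (chart x i).mul_mem (he i) (pow_mem (Basic_mem x i i₀) c)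
  have e1 : fr x g t (Finset.univ.sup e) i₀ / ((g i : K) ^ t * (x i : K) ^ Finset.univ.sup e) =
      fr x g t 0 i₀ / fr x g t 0 i * ((x i₀ : K) / x i) ^ e i * ((x i₀ : K) / x i) ^ c := by
    rw [hc', mul_assoc, ← pow_add, fr, fr, fr, pow_zero, pow_zero, mul_one, mul_one, div_pow,
      div_mul_div_comm]
  rw [e1]
  exact h

theorem main_sec_one (x g : ι → Kˣ) (i₀ : ι) : Sec x g 0 1 (fr x g 0 1 i₀) := by
  intro i
  rw [fr_zero, zpow_zero, one_mul, pow_one, pow_one]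
  exact Basic_mem x i i₀

theorem main_not_has {J : Idl x} {i₀ : ι} (h0 : (1 : K) ∉ J.J i₀) (t : ℤ) (a : ℕ) :
    ¬ J.Has g t a (fr x g t a i₀) := by
  intro h
  have h1 := h i₀
  rw [div_self (fr_ne x g t a i₀)] at h1
  exact h0 h1

theorem good_one (J : Idl x) (h : ∀ i, (1 : K) ∈ J.J i) : Good g J := by
  refine ⟨⟨0, fun t a _ => ⟨J.h1z_of_one h t a, ?_⟩⟩, IsP.zero.congr 0 fun t a _ => ?_⟩
  · rw [J.h0_of_one h]
    infer_instance
  · rw [J.h0_of_one h, finrank_bot, Nat.cast_zero]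

/-- Sketch: `ext` with `cob_mul`, `fd_ext`, `add_rank` for `t₀ = 0`; `IsP.sub_shift`. -/
theorem good_ext (hc : Cart x g) (J : Idl x) {δ : ℕ} {f : K} (hf : Sec x g 0 δ f)
    (h1 : Good g (J.colon hc hf)) (h2 : Good g (J.adj hc hf)) : Good g J := by
  obtain ⟨⟨a₁, h1⟩, p1⟩ := h1
  obtain ⟨⟨a₂, h2⟩, p2⟩ := h2
  have key : ∀ t a : ℕ, a₁ + a₂ + δ ≤ a → (J.H1z g t a ∧ FiniteDimensional ℂ (J.H0 g t a)) ∧
      Module.finrank ℂ (J.H0 g t a) = Module.finrank ℂ ((J.colon hc hf).H0 g t (a - δ)) +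
        Module.finrank ℂ ((J.adj hc hf).H0 g t a) := by
    intro t a ha
    obtain ⟨a', rfl⟩ : ∃ a', a = a' + δ := ⟨a - δ, by omega⟩
    obtain ⟨z1, f1⟩ := h1 t a' (by omega)
    obtain ⟨z2, f2⟩ := h2 t (a' + δ) (by omega)
    have e1 := J.ext hc hf (t := t) (a := a') fun θ hθ => J.cob_mul hc hf (z1 θ hθ)
    have e2 := J.fd_ext hc hf t a' f1
    have e3 := J.add_rank hc hf t a' z1
    rw [add_zero] at e1 e2 e3
    rw [Nat.add_sub_cancel]
    exact ⟨⟨e1 z2, e2 f2⟩, e3 (e2 f2)⟩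
  refine ⟨⟨_, fun t a ha => (key t a ha).1⟩, ((p1.sub_shift δ).add p2).congr (a₁ + a₂ + δ) ?_⟩
  intro t a ha
  rw [(key t a ha).2, Nat.cast_add]

/-- Sketch: `(J : f) = J` for `f ∉ J` (`colon_le`, `le_colon`; two ideal sheaves with the same `J`
are equal). Vanishing: `ext` with `Rd.kill`. Polynomial: `IsP.step` with `f = x i₀` and
`f = g i₀ * x i₀ ^ e` (a section of `L + e H` by `Cart`, uniform `e`); in both cases
`f / fr i₀ = 1 ∉ J i₀`. -/
theorem good_prime [Fintype ι] (hc : Cart x g) (hn : Nef x g) (J : Idl x) (hp : J.Prime g)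
    {i₀ : ι} (h0 : (1 : K) ∉ J.J i₀)
    (ih : ∀ J' : Idl x, (∀ i, J.J i ≤ J'.J i) → (∃ i, ∃ r ∈ J'.J i, r ∉ J.J i) → Good g J') :
    Good g J := by
  obtain ⟨F, _, _, ⟨R⟩⟩ := exists_rd hc J hp h0
  have hcol : ∀ {t : ℤ} {a : ℕ} {f : K} (hf : Sec x g t a f), ¬ J.Has g t a f →
      J.colon hc hf = J := fun hf h =>
    main_ext fun i => le_antisymm (R.colon_le hc hf h i) (J.le_colon hc hf i)
  have hadj : ∀ {t : ℤ} {a : ℕ} {f : K} (hf : Sec x g t a f), ¬ J.Has g t a f →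
      Good g (J.adj hc hf) := fun hf h => ih _ (J.le_adj hc hf) (main_adj hc J hf h)
  obtain ⟨δ, d, hd, hnd, hk⟩ := R.kill hc hn
  obtain ⟨⟨a₂, h2⟩, -⟩ := hadj hd hnd
  have van : ∀ t a : ℕ, a₂ + δ ≤ a → J.H1z g t a := by
    intro t a ha
    obtain ⟨a', rfl⟩ : ∃ a', a = a' + δ := ⟨a - δ, by omega⟩
    have e1 := J.ext hc hd (t := t) (a := a')
    rw [add_zero, hcol hd hnd] at e1
    exact e1 (hk t a') (h2 t _ (by omega)).1
  obtain ⟨e, he⟩ := main_sec hc 1 i₀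
  have s1 := main_sec_one x g i₀
  have n1 := main_not_has (g := g) h0 0 1
  have n2 := main_not_has (g := g) h0 1 e
  refine ⟨⟨a₂ + δ, fun t a ha => ⟨van t a ha, R.fd hc t a⟩⟩,
    IsP.step (hadj s1 n1).2 (hadj he n2).2 (a₂ + δ) e ?_ ?_⟩
  · intro t a ha
    have e3 := J.add_rank hc s1 t a
    rw [add_zero, hcol s1 n1] at e3
    rw [e3 (van t a ha) (R.fd hc _ _), Nat.cast_add]
  · intro t a ha
    have e3 := J.add_rank hc he t a
    rw [hcol he n2] at e3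
    have e4 : ((t + 1 : ℕ) : ℤ) = (t : ℤ) + 1 := by push_cast; rfl
    rw [e4, e3 (van t a ha) (R.fd hc _ _), Nat.cast_add]

theorem good [Fintype ι] (hc : Cart x g) (hn : Nef x g) (J : Idl x) : Good g J := by
  refine Idl.induction (Good g) (fun J ih => ?_) J
  by_cases h : ∀ i, (1 : K) ∈ J.J i
  · exact good_one J h
  obtain ⟨i₀, h0⟩ := not_forall.1 h
  by_cases hp : J.Prime g
  · exact good_prime hc hn J hp h0 ih
  unfold Idl.Prime at hp
  push Not at hp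
  obtain ⟨a, b, f, f', hf, hf', hh, n1, n2⟩ := hp
  refine good_ext hc J hf (ih _ (J.le_colon hc hf) ?_)
    (ih _ (J.le_adj hc hf) (main_adj hc J hf n1))
  obtain ⟨i, hi⟩ := not_forall.1 n2
  refine ⟨i, _, (J.mem_colon hc hf).2 ⟨hf' i, ?_⟩, hi⟩
  have h1 := hh i
  have e1 := fr_add x g 0 0 a b i
  rw [add_zero] at e1
  rw [e1, mul_div_mul_comm, mul_comm] at h1
  exact h1

/-- The Hilbert function of `(L, H)` is a polynomial for `a ≥ a₀`, uniformly in `t`. -/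
theorem uniform [Fintype ι] [Nonempty ι] (x g : ι → Kˣ) (hc : Cart x g) (hn : Nef x g) :
    ∃ (P : MvPolynomial (Fin 2) ℚ) (a₀ : ℕ), ∀ t a : ℕ, a₀ ≤ a →
      FiniteDimensional ℂ (SecS x g t a) ∧
      (Module.finrank ℂ (SecS x g t a) : ℚ) = eval ![(t : ℚ), (a : ℚ)] P := by
  obtain ⟨⟨a₀, h1⟩, P, a₁, h2⟩ := good hc hn (Idl.bot x)
  refine ⟨P, a₀ + a₁, fun t a ha => ?_⟩
  obtain ⟨e⟩ := h0_bot x g t a
  have f1 := (h1 t a (by omega)).2
  refine ⟨e.finiteDimensional, ?_⟩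
  rw [← e.finrank_eq]
  exact h2 t a (by omega)

end

end Pool.Agent.Lib.MP_bc213e_ag.KBB
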