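import Pool.Agent.Lib.MP_bc213e_ag.KBB.Car

/-! The Fedder operator on the localised hypersurface ring. -/

namespace Pool.Agent.Lib.MP_bc213e_ag.KBB

open Pool.Agent.Lib.MP_bc213e_ag.Hyp MvPolynomial

noncomputable section

variable {k W : Type} [Field k] (p : ℕ) [Fact p.Prime] [CharP k p] [PerfectRing k p] [CommRing W]
  [Algebra k W] {n : ℕ}

/-- The Fedder operator on polynomials, with values in `W`. -/
def psi_phi (Φ : Fib k W n) (e : ℕ) : MvPolynomial (Option (Fin n)) k →+ W :=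
  AddMonoidHom.mk'
    (fun f => aeval Φ.Y (FT1comp p e (fun _ => p ^ e - 1) (Φ.P ^ (p ^ e - 1) * f)))
    fun f g => by rw [mul_add, map_add, map_add]

theorem psi_phi_apply (Φ : Fib k W n) (e : ℕ) (f : MvPolynomial (Option (Fin n)) k) :
    psi_phi p Φ e f = aeval Φ.Y (FT1comp p e (fun _ => p ^ e - 1) (Φ.P ^ (p ^ e - 1) * f)) := rfl

theorem psi_mul (Φ : Fib k W n) (e : ℕ) (g f : MvPolynomial (Option (Fin n)) k) :
    psi_phi p Φ e (g ^ p ^ e * f) = aeval Φ.Y g * psi_phi p Φ e f := by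
  rw [psi_phi_apply, psi_phi_apply, mul_left_comm, FT1comp_mul, map_mul]

theorem psi_eq (Φ : Fib k W n) (e : ℕ) {f g : MvPolynomial (Option (Fin n)) k}
    (h : aeval Φ.Y f = aeval Φ.Y g) : psi_phi p Φ e f = psi_phi p Φ e g := by
  have hq : 0 < p ^ e := pow_pos (Fact.out : p.Prime).pos e
  obtain ⟨r, hr⟩ := (Φ.ker (f - g)).1 (by rw [map_sub, h, sub_self])
  rw [← sub_eq_zero, ← map_sub, hr, psi_phi_apply, ← mul_assoc, ← pow_succ, Nat.sub_add_cancel hq,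
    FT1comp_mul, map_mul, (Φ.ker Φ.P).2 dvd_rfl, zero_mul]

theorem psi_den (Φ : Fib k W n) {q : ℕ} (hq : 0 < q) (w : W) :
    ∃ (f : MvPolynomial (Option (Fin n)) k) (N : ℕ),
      w * aeval Φ.Y Φ.D ^ (q * N) = aeval Φ.Y f := by
  obtain ⟨f, N, h⟩ := Φ.den w
  obtain ⟨r, rfl⟩ := Nat.exists_eq_add_of_lt hq
  refine ⟨f * Φ.D ^ (r * N), N, ?_⟩
  rw [map_mul, map_pow, ← h]
  ring

theorem psi_key (Φ : Fib k W n) (e : ℕ) (w : W) : ∃ z : W,
    ∀ (N : ℕ) (f : MvPolynomial (Option (Fin n)) k),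
      w * aeval Φ.Y Φ.D ^ (p ^ e * N) = aeval Φ.Y f →
        z * aeval Φ.Y Φ.D ^ N = psi_phi p Φ e f := by
  obtain ⟨f₀, N₀, h₀⟩ := psi_den Φ (pow_pos (Fact.out : p.Prime).pos e) w
  obtain ⟨z, hz⟩ := (Φ.unit.pow N₀).dvd (a := psi_phi p Φ e f₀)
  refine ⟨z, fun N f h => ?_⟩
  have h1 := psi_eq p Φ e (f := (Φ.D ^ N) ^ p ^ e * f₀) (g := (Φ.D ^ N₀) ^ p ^ e * f) (by
    rw [map_mul, map_mul, map_pow, map_pow, map_pow, map_pow, ← h, ← h₀]
    ring)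
  rw [psi_mul, psi_mul, map_pow, map_pow, hz] at h1
  refine (Φ.unit.pow N₀).mul_left_cancel (Eq.trans ?_ h1)
  ring

include p in
/-- Sketch: `q = p ^ e`, `φ f = aeval Y (comp (P ^ (q - 1) * f))` with
`comp = FT1comp p e (fun _ => q - 1)`; `φ (P * h) = aeval Y (P * comp h) = 0`, so `φ f` only depends
on `aeval Y f`. For `w` choose `N, f` with `w * D ^ (q N) = aeval Y f` and put
`Ψ w = φ f * D⁻¹ ^ N`; characterise it by: `w * D ^ (q N) = aeval Y f → Ψ w * D ^ N = φ f`.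
Degree: `FT1comp_deg`. Last clause: `car`. -/
theorem exists_psi (Φ : Fib k W n) (e : ℕ) : ∃ Ψ : W →+ W,
    (∀ u v, Ψ (u ^ p ^ e * v) = u * Ψ v) ∧
    (∀ f : MvPolynomial (Option (Fin n)) k, ∃ f' : MvPolynomial (Option (Fin n)) k,
      aeval Φ.Y f' = Ψ (aeval Φ.Y f) ∧
      p ^ e * f'.totalDegree ≤ f.totalDegree + p ^ e * Φ.P.totalDegree) ∧
    Ψ (aeval Φ.Y (pderiv none Φ.P) * ∏ l : Fin n, Φ.Y (some l) ^ (p ^ e - 1)) =
      aeval Φ.Y (pderiv none Φ.P) := by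
  have hq : 0 < p ^ e := pow_pos (Fact.out : p.Prime).pos e
  have hu : ∀ N : ℕ, IsUnit (aeval Φ.Y Φ.D ^ N) := fun N => Φ.unit.pow N
  choose Ψ hΨ using psi_key p Φ e
  have h0 : ∀ f, Ψ (aeval Φ.Y f) = psi_phi p Φ e f := fun f => by
    have h := hΨ (aeval Φ.Y f) 0 f (by rw [mul_zero, pow_zero, mul_one])
    rwa [pow_zero, mul_one] at h
  refine ⟨AddMonoidHom.mk' Ψ fun w w' => ?_, fun u v => ?_, fun f => ?_, ?_⟩
  · obtain ⟨f, N, h⟩ := psi_den Φ hq w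
    obtain ⟨f', N', h'⟩ := psi_den Φ hq w'
    have h1 := hΨ (w + w') (N + N') ((Φ.D ^ N') ^ p ^ e * f + (Φ.D ^ N) ^ p ^ e * f') (by
      rw [map_add, map_mul, map_mul, map_pow, map_pow, map_pow, map_pow, ← h, ← h']
      ring)
    rw [map_add, psi_mul, psi_mul, ← hΨ w N f h, ← hΨ w' N' f' h', map_pow, map_pow] at h1
    refine (hu (N + N')).mul_right_cancel (h1.trans ?_)
    ring
  · obtain ⟨g, M, h⟩ := Φ.den u
    obtain ⟨f, N, h'⟩ := psi_den Φ hq v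
    have h1 := hΨ (u ^ p ^ e * v) (M + N) (g ^ p ^ e * f) (by
      rw [map_mul, map_pow, ← h, ← h']
      ring)
    rw [psi_mul, ← hΨ v N f h', ← h] at h1
    refine (hu (M + N)).mul_right_cancel (h1.trans ?_)
    rw [AddMonoidHom.mk'_apply]
    ring
  · refine ⟨FT1comp p e (fun _ => p ^ e - 1) (Φ.P ^ (p ^ e - 1) * f), (h0 f).symm, ?_⟩
    refine (FT1comp_deg p e _ _).trans ((totalDegree_mul _ _).trans ?_)
    rw [add_comm]
    exact Nat.add_le_add_left ((totalDegree_pow _ _).trans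
      (Nat.mul_le_mul_right _ (Nat.sub_le _ _))) _
  · have h1 : aeval Φ.Y (pderiv none Φ.P) * ∏ l : Fin n, Φ.Y (some l) ^ (p ^ e - 1) =
        aeval Φ.Y (pderiv none Φ.P * ∏ l : Fin n, X (some l) ^ (p ^ e - 1)) := by
      simp only [map_mul, map_prod, map_pow, aeval_X]
    rw [AddMonoidHom.mk'_apply, h1, h0, psi_phi_apply, car]

end

end Pool.Agent.Lib.MP_bc213e_ag.KBB
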