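import Pool.Agent.Lib.MP_bc213e_ag.KBB.Defs
import Pool.Agent.Lib.MP_bc213e_ag.Hyp.Basic

/-! Basic operations on ideal sheaves. -/

namespace Pool.Agent.Lib.MP_bc213e_ag.KBB

open Pool.Agent.Lib.MP_bc213e_ag.Hyp MvPolynomial

noncomputable section

variable {K ι : Type} [Field K] [Algebra ℂ K] {x g : ι → Kˣ}


theorem fr_ne (x g : ι → Kˣ) (t : ℤ) (a : ℕ) (i : ι) : fr x g t a i ≠ 0 := by
  exact mul_ne_zero (zpow_ne_zero _ (g i).ne_zero) (pow_ne_zero _ (x i).ne_zero)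

theorem fr_add (x g : ι → Kˣ) (t t' : ℤ) (a a' : ℕ) (i : ι) :
    fr x g (t + t') (a + a') i = fr x g t a i * fr x g t' a' i := by
  rw [fr, fr, fr, zpow_add₀ (g i).ne_zero, pow_add]
  ring

theorem fr_zero (x g : ι → Kˣ) (a : ℕ) (i : ι) : fr x g 0 a i = (x i : K) ^ a := by
  rw [fr, zpow_zero, one_mul]

theorem sec_iff_fr {t : ℤ} {a : ℕ} {s : K} :
    Sec x g t a s ↔ ∀ i, s / fr x g t a i ∈ chart x i := Iff.rfl

/-- Sketch: for `t = 1` use `Cart`; for `t = -1` use `Cart l i` and `chart_trans`; multiply. -/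
theorem fr_trans (hc : Cart x g) (t : ℤ) (a : ℕ) (i l : ι) :
    ∃ e : ℕ, fr x g t a i / fr x g t a l * ((x i : K) / x l) ^ e ∈ chart x l := by
  have hu := Basic_mem x l i
  have h1 := (x i).ne_zero
  have h2 := (x l).ne_zero
  obtain ⟨n, rfl | rfl⟩ := t.eq_nat_or_neg
  · obtain ⟨e, he⟩ := hc i l
    refine ⟨e * n, ?_⟩
    convert mul_mem (pow_mem he n) (pow_mem hu a) using 1
    rw [fr, fr, zpow_natCast, zpow_natCast, mul_pow, ← pow_mul, div_pow, div_pow _ _ a]
    ring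
  · obtain ⟨e, he⟩ := hc l i
    obtain ⟨e', he'⟩ := chart_trans x i l he
    have h3 : (g l : K) / g i * ((x i : K) / x l) ^ e' ∈ chart x l := by
      convert mul_mem he' (pow_mem hu e) using 1
      rw [mul_right_comm _ _ (((x i : K) / x l) ^ e), mul_assoc _ _ (((x i : K) / x l) ^ e),
        ← mul_pow, div_mul_div_cancel₀ h1, div_self h2, one_pow, mul_one]
    refine ⟨e' * n, ?_⟩
    convert mul_mem (pow_mem h3 n) (pow_mem hu a) using 1
    rw [fr, fr, zpow_neg, zpow_neg, zpow_natCast, zpow_natCast, mul_pow, ← pow_mul,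
      div_pow _ _ n, div_pow _ _ a]
    field_simp

namespace Idl

/-- The unit ideal. (`chart_trans`) -/
def top (x : ι → Kˣ) : Idl x where
  J := OX x
  le := fun _ _ h => h
  mul := fun i _ hs _ hr => (chart x i).mul_mem hs hr
  glue := fun i l _ hr => chart_trans x i l hr

/-- The zero ideal. -/
def bot (x : ι → Kˣ) : Idl x where
  J := fun _ => ⊥
  le := fun _ _ h => by
    rw [Submodule.mem_bot] at h
    rw [h]
    exact zero_mem _
  mul := fun _ _ _ _ hr => by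
    rw [Submodule.mem_bot] at hr ⊢
    rw [hr, mul_zero]
  glue := fun _ _ _ hr => ⟨0, by simpa using hr⟩

variable (J : Idl x)

theorem sheaf_symm {i l : ι} {r : K} (h : L2 x J.J i l r) : L2 x J.J l i r := by
  obtain ⟨e, he⟩ := h
  obtain ⟨e', he'⟩ := J.glue i l _ he
  refine ⟨e', ?_⟩
  convert J.mul l _ (pow_mem (Basic_mem x l i) e) _ he' using 1
  rw [mul_assoc r, mul_left_comm, ← mul_assoc (_ ^ e), ← mul_pow,
    div_mul_div_cancel₀ (x l).ne_zero, div_self (x i).ne_zero, one_pow, one_mul]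

/-- The ideal quotient `(J : f)`. -/
def colon (hc : Cart x g) {t : ℤ} {a : ℕ} {f : K} (hf : Sec x g t a f) : Idl x where
  J i :=
    { carrier := {r | r ∈ chart x i ∧ r * (f / fr x g t a i) ∈ J.J i}
      add_mem' := fun ha hb => ⟨add_mem ha.1 hb.1, by
        rw [add_mul]
        exact add_mem ha.2 hb.2⟩
      zero_mem' := ⟨zero_mem _, by
        rw [zero_mul]
        exact zero_mem _⟩
      smul_mem' := fun c r hr => ⟨Subalgebra.smul_mem _ hr.1 c, by
        rw [smul_mul_assoc]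
        exact Submodule.smul_mem _ c hr.2⟩ }
  le := fun _ _ h => h.1
  mul := fun i s hs r hr => ⟨mul_mem hs hr.1, by
    rw [mul_assoc]
    exact J.mul i s hs _ hr.2⟩
  glue := fun i l r hr => by
    have hu := Basic_mem x l i
    obtain ⟨e₁, h1⟩ := chart_trans x i l hr.1
    obtain ⟨e₂, h2⟩ := J.glue i l _ hr.2
    obtain ⟨e₃, h3⟩ := fr_trans hc t a i l
    refine ⟨e₁ + e₂ + e₃, ?_, ?_⟩
    · convert mul_mem h1 (pow_mem hu (e₂ + e₃)) using 1
      ring
    · convert J.mul l _ (mul_mem (pow_mem hu e₁) h3) _ h2 using 1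
      have := fr_ne x g t a i
      generalize (x i : K) / x l = u
      field_simp
      ring

theorem mem_colon (hc : Cart x g) {t : ℤ} {a : ℕ} {f : K} (hf : Sec x g t a f) {i : ι} {r : K} :
    r ∈ (J.colon hc hf).J i ↔ r ∈ chart x i ∧ r * (f / fr x g t a i) ∈ J.J i := Iff.rfl

/-- The ideal `J + (f)`. -/
def adj (hc : Cart x g) {t : ℤ} {a : ℕ} {f : K} (hf : Sec x g t a f) : Idl x where
  J i :=
    { carrier := {r | ∃ s ∈ chart x i, r - s * (f / fr x g t a i) ∈ J.J i}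
      add_mem' := fun ⟨s, hs, h⟩ ⟨s', hs', h'⟩ => ⟨s + s', add_mem hs hs', by
        convert add_mem h h' using 1
        ring⟩
      zero_mem' := ⟨0, zero_mem _, by simp⟩
      smul_mem' := fun c r ⟨s, hs, h⟩ => ⟨c • s, Subalgebra.smul_mem _ hs c, by
        rw [smul_mul_assoc, ← smul_sub]
        exact Submodule.smul_mem _ c h⟩ }
  le := fun i r ⟨s, hs, h⟩ => by
    have := add_mem (J.le i _ h) (mul_mem hs (sec_iff_fr.1 hf i))
    rwa [sub_add_cancel] at this
  mul := fun i s' hs' r ⟨s, hs, h⟩ => ⟨s' * s, mul_mem hs' hs, by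
    rw [mul_assoc, ← mul_sub]
    exact J.mul i s' hs' _ h⟩
  glue := fun i l r ⟨s, hs, h⟩ => by
    have hu := Basic_mem x l i
    obtain ⟨e₁, h1⟩ := chart_trans x i l hs
    obtain ⟨e₂, h2⟩ := J.glue i l _ h
    obtain ⟨e₃, h3⟩ := (top x).sheaf_symm (fr_trans hc t a l i)
    refine ⟨e₁ + e₂ + e₃, _, mul_mem (mul_mem h1 h3) (pow_mem hu e₂), ?_⟩
    convert J.mul l _ (pow_mem hu (e₁ + e₃)) _ h2 using 1
    have := fr_ne x g t a i
    have := fr_ne x g t a l
    generalize (x i : K) / x l = u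
    field_simp
    ring

theorem mem_adj (hc : Cart x g) {t : ℤ} {a : ℕ} {f : K} (hf : Sec x g t a f) {i : ι} {r : K} :
    r ∈ (J.adj hc hf).J i ↔ ∃ s ∈ chart x i, r - s * (f / fr x g t a i) ∈ J.J i := Iff.rfl

theorem le_colon (hc : Cart x g) {t : ℤ} {a : ℕ} {f : K} (hf : Sec x g t a f) (i : ι) :
    J.J i ≤ (J.colon hc hf).J i := by
  intro r hr
  refine ⟨J.le i r hr, ?_⟩
  rw [mul_comm]
  exact J.mul i _ (sec_iff_fr.1 hf i) r hr

theorem le_adj (hc : Cart x g) {t : ℤ} {a : ℕ} {f : K} (hf : Sec x g t a f) (i : ι) :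
    J.J i ≤ (J.adj hc hf).J i := by
  exact fun r hr => ⟨0, zero_mem _, by simpa using hr⟩

theorem self_mem_adj (hc : Cart x g) {t : ℤ} {a : ℕ} {f : K} (hf : Sec x g t a f) (i : ι) :
    f / fr x g t a i ∈ (J.adj hc hf).J i := by
  exact ⟨1, one_mem _, by simp⟩

theorem l2_of_mem {i : ι} (l : ι) {r : K} (h : r ∈ J.J i) : L2 x J.J i l r := by
  exact ⟨0, by simpa using h⟩

theorem l2_neg {i l : ι} {r : K} (h : L2 x J.J i l r) : L2 x J.J i l (-r) := by
  obtain ⟨e, he⟩ := h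
  exact ⟨e, by simpa using he⟩

theorem l2_mul {i l : ι} {s r : K} (hs : L2 x (OX x) i l s) (h : L2 x J.J i l r) :
    L2 x J.J i l (s * r) := by
  obtain ⟨e, he⟩ := hs
  obtain ⟨e', he'⟩ := h
  refine ⟨e + e', ?_⟩
  convert J.mul i _ he _ he' using 1
  ring

/-- Sketch: `glue`, then multiply by a power of `x i / x l ∈ chart x l`. -/
theorem l2_symm {i l : ι} {r : K} (h : L2 x J.J i l r) : L2 x J.J l i r := by
  exact J.sheaf_symm h

/-- Change of the frame. Sketch: `l2_symm`, `fr_trans`, `l2_mul`. -/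
theorem l2_fr (hc : Cart x g) {t : ℤ} {a : ℕ} {i l : ι} {r : K}
    (h : L2 x J.J i l (r / fr x g t a i)) : L2 x J.J l i (r / fr x g t a l) := by
  have := J.l2_mul (fr_trans hc t a i l) (J.l2_symm h)
  rwa [mul_comm, div_mul_div_cancel₀ (fr_ne x g t a i)] at this

theorem l3_add {i l j : ι} {r s : K} (hr : L3 x J.J i l j r) (hs : L3 x J.J i l j s) :
    L3 x J.J i l j (r + s) := by
  obtain ⟨e, he⟩ := hr
  obtain ⟨e', he'⟩ := hs
  have h := mul_mem (Basic_mem x i l) (Basic_mem x i j)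
  refine ⟨e + e', ?_⟩
  convert add_mem (J.mul i _ (pow_mem h e') _ he) (J.mul i _ (pow_mem h e) _ he') using 1
  ring

theorem l3_neg {i l j : ι} {r : K} (h : L3 x J.J i l j r) : L3 x J.J i l j (-r) := by
  obtain ⟨e, he⟩ := h
  exact ⟨e, by simpa using he⟩

theorem l3_mul {i l j : ι} {s r : K} (hs : L3 x (OX x) i l j s) (h : L3 x J.J i l j r) :
    L3 x J.J i l j (s * r) := by
  obtain ⟨e, he⟩ := hs
  obtain ⟨e', he'⟩ := h
  refine ⟨e + e', ?_⟩
  convert J.mul i _ he _ he' using 1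
  ring

theorem l3_of_12 {i l : ι} (j : ι) {r : K} (h : L2 x J.J i l r) : L3 x J.J i l j r := by
  obtain ⟨e, he⟩ := h
  refine ⟨e, ?_⟩
  rw [mul_comm]
  exact J.mul i _ (pow_mem (Basic_mem x i j) e) _ he

theorem l3_of_13 {i j : ι} (l : ι) {r : K} (h : L2 x J.J i j r) : L3 x J.J i l j r := by
  obtain ⟨e, he⟩ := h
  refine ⟨e, ?_⟩
  rw [mul_right_comm, mul_comm]
  exact J.mul i _ (pow_mem (Basic_mem x i l) e) _ he

/-- Sketch: `r / fr l * (x j / x l) ^ e ∈ J l`; `glue` to the chart `i`; `fr_trans`. -/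
theorem l3_of_23 (hc : Cart x g) {t : ℤ} {a : ℕ} (i : ι) {l j : ι} {r : K}
    (h : L2 x J.J l j (r / fr x g t a l)) : L3 x J.J i l j (r / fr x g t a i) := by
  obtain ⟨e, he⟩ := h
  obtain ⟨e₁, h1⟩ := J.glue l i _ he
  obtain ⟨e₂, h2⟩ := fr_trans hc t a l i
  have h3 : (x j : K) / x i = (x j : K) / x l * ((x l : K) / x i) :=
    (div_mul_div_cancel₀ (x l).ne_zero).symm
  refine ⟨e + e₁ + e₂, ?_⟩
  convert J.mul i _ (mul_mem (mul_mem (pow_mem (Basic_mem x i l) (2 * e))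
    (pow_mem (Basic_mem x i j) (e₁ + e₂))) h2) _ h1 using 1
  have := fr_ne x g t a l
  rw [h3]
  generalize (x j : K) / x l = u
  generalize (x l : K) / x i = v
  field_simp
  ring

/-- Noetherian induction. Sketch: `J ↦ fun i => {r : chart x i | r.1 ∈ J.J i}` is an order
embedding into a finite product of lattices of ideals of Noetherian rings (`chart_noeth`). -/
theorem induction [Fintype ι] (Φ : Idl x → Prop)
    (h : ∀ J : Idl x, (∀ J' : Idl x, (∀ i, J.J i ≤ J'.J i) → (∃ i, ∃ r ∈ J'.J i, r ∉ J.J i) →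
      Φ J') → Φ J) (J : Idl x) : Φ J := by
  have := chart_noeth x
  let φ : Idl x → ∀ i, (Ideal (chart x i))ᵒᵈ := fun J i => OrderDual.toDual
    { carrier := {r | r.1 ∈ J.J i}
      add_mem' := fun ha hb => (J.J i).add_mem ha hb
      zero_mem' := zero_mem (J.J i)
      smul_mem' := fun c r hr => J.mul i c c.2 r hr }
  refine (InvImage.wf φ wellFounded_lt).induction J fun J ih => h J fun J' h1 ⟨i, r, h2, h3⟩ =>
    ih J' (lt_of_le_not_ge (fun i r hr => h1 i hr) fun h4 => h3 ?_)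
  exact h4 i (x := ⟨r, J'.le i r h2⟩) h2

end Idl

end

end Pool.Agent.Lib.MP_bc213e_ag.KBB
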