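import Pool.Agent.Lib.MP_bc213e_ag.KBB.Fib0
import Pool.Agent.Lib.MP_bc213e_ag.KBB.Hyp
import Pool.Agent.Lib.MP_bc213e_ag.KBB.Sheaf

/-! One fixed section kills the first cohomology of all `t L + a H`. -/

namespace Pool.Agent.Lib.MP_bc213e_ag.KBB

open Pool.Agent.Lib.MP_bc213e_ag.Hyp MvPolynomial

noncomputable section

variable {K ι : Type} [Field K] [Algebra ℂ K] {x g : ι → Kˣ}


theorem chartR_eq (x : ι → Kˣ) (i : ι) : chartR ℂ x i = chart x i := by
  simp only [chartR, chart, Units.val_mul, Units.val_inv_eq_inv_val, div_eq_mul_inv]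

theorem ua_div_mem {μ : ℕ} {r : K}
    (hr : r ∈ Submodule.span ℂ (Set.range fun i => (x i : K)) ^ μ) (i : ι) :
    r / (x i : K) ^ μ ∈ chart x i := by
  have h1 : ∀ r ∈ Submodule.span ℂ (Set.range fun i => (x i : K)), r / (x i : K) ∈ chart x i :=
    fun r hr => by
      induction hr using Submodule.span_induction with
      | mem r hr =>
        obtain ⟨l, rfl⟩ := hr
        exact Basic_mem x i l
      | zero => rw [zero_div]; exact zero_mem _
      | add a b _ _ ha hb => rw [add_div]; exact add_mem ha hb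
      | smul c a _ ha => rw [smul_div_assoc]; exact Subalgebra.smul_mem _ ha c
  induction μ generalizing r with
  | zero =>
    rw [pow_zero, Submodule.mem_one] at hr
    obtain ⟨c, rfl⟩ := hr
    rw [pow_zero, div_one]
    exact Subalgebra.algebraMap_mem _ c
  | succ μ ih =>
    rw [pow_succ] at hr
    refine Submodule.mul_induction_on hr (fun a ha b hb => ?_) fun a b ha hb => ?_
    · rw [pow_succ, mul_div_mul_comm]
      exact mul_mem (ih ha) (h1 b hb)
    · rw [add_div]
      exact add_mem ha hb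

theorem ua_deg {σ : Type} (P : MvPolynomial σ ℂ) (s : σ) :
    (pderiv s P).totalDegree ≤ P.totalDegree := by
  classical
  refine Finset.sup_le fun m hm => ?_
  have h1 : m + Finsupp.single s 1 ∈ P.support := by
    rw [mem_support_iff, coeff_pderiv] at hm
    exact mem_support_iff.mpr (left_ne_zero_of_mul hm)
  refine le_trans ?_ (le_totalDegree h1)
  rw [Finsupp.sum_add_index' (fun _ => rfl) fun _ _ _ => rfl]
  exact Nat.le_add_right _ _

theorem ua_sup [Fintype ι] (F : ι → ι → K)
    (h : ∀ i l, ∃ e : ℕ, F i l * ((x l : K) / x i) ^ e ∈ chart x i) :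
    ∃ e : ℕ, ∀ i l, F i l * ((x l : K) / x i) ^ e ∈ chart x i := by
  choose e he using h
  refine ⟨Finset.univ.sup fun p : ι × ι => e p.1 p.2, fun i l => ?_⟩
  obtain ⟨m, hm⟩ := Nat.exists_eq_add_of_le
    (Finset.le_sup (f := fun p : ι × ι => e p.1 p.2) (Finset.mem_univ (i, l)))
  rw [hm, pow_add, ← mul_assoc]
  exact mul_mem (he i l) (pow_mem (Basic_mem x i l) m)

theorem ua_free [Fintype ι] {t : ℤ} {a : ℕ} (h : Free x g t a) : ∃ T : Finset K,
    (∀ s ∈ T, Sec x g t a s) ∧ ∀ i, ∃ r : T → K, (∀ l, r l ∈ chart x i) ∧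
      ∑ l, r l * l.1 = (g i : K) ^ t * (x i : K) ^ a := by
  classical
  choose T hT hT' using fun i => Submodule.mem_span_finite_of_mem_span (h i)
  refine ⟨Finset.univ.biUnion T, fun s hs => ?_, fun i => ?_⟩
  · obtain ⟨i, -, hi⟩ := Finset.mem_biUnion.1 hs
    exact hT i hi
  · have h1 := Submodule.span_mono (t := ((Finset.univ.biUnion T : Finset K) : Set K))
      (Finset.coe_subset.2 (Finset.subset_biUnion_of_mem T (Finset.mem_univ i))) (hT' i)
    obtain ⟨f, -, hf⟩ := Submodule.mem_span_finset.1 h1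
    refine ⟨fun l => f l.1, fun l => (f l.1).2, ?_⟩
    rw [← hf, ← Finset.sum_coe_sort (Finset.univ.biUnion T)]
    rfl

/-- Sketch: take the model from `hyp`, `δ = n + 2 c₀ + 2 deg P + 2`, `d = aeval Y (E * ∂P)`
(`aeval_mem_pow`). Given `t, a, c`: build a `Dat` (finitely many sections `β` from `Free`:
`Submodule.mem_span_set'` for each `i`, `κ` a sigma type or a `Finset` coerced to a type; the
exponents `c`, `e` are suprema over finitely many pairs, `fr_trans` for `-t`;
`span_pow_le_Bd`). From `Sol`: `s i = σ i j / w j` does not depend on `j` and is a section of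
`t L + (a + c + δ) H` (take `j` = the chart; `aeval_mem_pow`), `η i = s i / x i ^ c` satisfies
`η l - η i = d (c l - c i)`; put `b = d * c i₀ - η i₀`. -/
theorem ua0 [Fintype ι] (x g : ι → Kˣ) (i₀ : ι) (one : x i₀ = 1)
    (gen : IntermediateField.adjoin ℂ (Set.range fun i => (x i : K)) = ⊤) (hc : Cart x g)
    (hn : Nef x g) : ∃ (δ : ℕ) (d : K), d ≠ 0 ∧
      d ∈ Submodule.span ℂ (Set.range fun i => (x i : K)) ^ δ ∧
      ∀ (t a : ℕ) (c : ι → K), (∀ i l, L2 x (OX x) i l ((c l - c i) / fr x g t a i)) →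
        ∃ b : K, ∀ i, (d * c i - b) / fr x g t (a + δ) i ∈ chart x i := by
  obtain ⟨n, Y, P, E, c₀, hY, monic, ker, hE, hne, rep, den⟩ := hyp (fun i => (x i : K)) gen
  have h1 : (1 : K) ∈ Submodule.span ℂ (Set.range fun i => (x i : K)) :=
    Submodule.subset_span ⟨i₀, by simp only [one, Units.val_one]⟩
  refine ⟨n + 2 * c₀ + 2 * P.totalDegree + 2, aeval Y (E * pderiv none P), hne,
    aeval_mem_pow _ h1 Y hY _ ?_, fun t a c hc' => ?_⟩
  · have h2 := totalDegree_mul E (pderiv none P)
    have h3 := ua_deg P none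
    omega
  obtain ⟨N, hN, hF⟩ := hn t
  obtain ⟨T, hT, hT'⟩ := ua_free hF
  obtain ⟨c', hc'⟩ := ua_sup (x := x) _ hc'
  obtain ⟨e, he⟩ := ua_sup (x := x) _ fun l j => fr_trans hc (-t) 0 j l
  have hx : ∀ i, (x i : K) ≠ 0 := fun i => (x i).ne_zero
  have hg : ∀ i, (g i : K) ≠ 0 := fun i => (g i).ne_zero
  let D : Dat ℂ K ι T n :=
    { x := x, g := g, i₀ := i₀, Y := Y, P := P, E := E, β := fun l => l.1, cc := c, c₀ := c₀,
      N := N, t := t, a := a, c := c', e := e, one := one, hY := hY, hE := hE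
      rep := fun μ r hr => by
        obtain ⟨q, h2, -, h3⟩ := rep μ r (span_pow_le_Bd _ μ hr)
        exact ⟨q, h2, h3⟩
      cart := fun i j => by
        obtain ⟨e, he⟩ := hc i j
        refine ⟨e, ?_⟩
        rw [chartR_eq]
        simpa only [Units.val_mul, Units.val_inv_eq_inv_val, Units.val_pow_eq_pow_val,
          div_eq_mul_inv] using he
      Npos := hN
      hβ := fun l i => by
        have h2 := hT l.1 l.2 i
        rw [← Nat.cast_mul, zpow_natCast] at h2
        rw [chartR_eq]
        simpa only [Units.val_mul, Units.val_inv_eq_inv_val, Units.val_pow_eq_pow_val,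
          div_eq_mul_inv] using h2
      gen := fun i => by
        obtain ⟨r, h2, h3⟩ := hT' i
        rw [← Nat.cast_mul, zpow_natCast] at h3
        exact ⟨r, fun l => (chartR_eq x i).symm ▸ h2 l, by
          simpa only [Units.val_mul, Units.val_pow_eq_pow_val] using h3⟩
      hcc := fun i l => by
        rw [chartR_eq]
        convert hc' i l using 1
        simp only [Units.val_mul, Units.val_inv_eq_inv_val, Units.val_pow_eq_pow_val, fr,
          zpow_natCast, div_pow, pow_add]
        have := hx i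
        have := hg i
        field_simp
      hw := fun j l => by
        rw [chartR_eq]
        convert he l j using 1
        simp only [Units.val_mul, Units.val_inv_eq_inv_val, Units.val_pow_eq_pow_val, fr,
          zpow_neg, zpow_natCast, div_pow]
        have := hx l
        have := hg l
        have := hg j
        field_simp }
  obtain ⟨σ, hσ, h2, h3⟩ := fib0 D monic ker (fun μ r hr => rep μ r (span_pow_le_Bd _ μ hr)) den
  have hw : ∀ j, D.w j = ((g j : K) ^ t)⁻¹ * (x j : K) ^ e := fun j => by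
    simp only [Dat.w, D, Units.val_mul, Units.val_inv_eq_inv_val, Units.val_pow_eq_pow_val]
  simp only [hw] at h2 h3
  change ∀ i j, (σ i j).totalDegree ≤ a + c' + e + (n + 2 * c₀ + 2 * P.totalDegree + 2) at hσ
  change ∀ i j j', _ * aeval Y _ = _ * aeval Y _ at h2
  change ∀ i l j, (x i : K) ^ c' * aeval Y _ - (x l : K) ^ c' * aeval Y _ =
    aeval Y (E * pderiv none P) * (((x i : K) * x l) ^ c' * (c l - c i) * _) at h3
  generalize n + 2 * c₀ + 2 * P.totalDegree + 2 = δ at hσ ⊢
  generalize aeval Y (E * pderiv none P) = d at h3 ⊢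
  refine ⟨d * c i₀ - aeval Y (σ i₀ i₀) * (g i₀ : K) ^ t, fun i => ?_⟩
  convert ua_div_mem (aeval_mem_pow _ h1 Y hY _ (hσ i i)) i using 1
  have h4 := h2 i i₀ i
  have h5 := h3 i₀ i i₀
  simp only [one, Units.val_one, one_pow, one_mul, mul_one] at h4 h5
  have h6 := hx i
  have h7 := hg i
  have h8 := hg i₀
  rw [fr, zpow_natCast]
  field_simp at h4 h5 ⊢
  linear_combination (exp := 1) (-(x i : K) ^ (a + δ + e)) * h5 + (x i : K) ^ (a + δ) * h4

end

end Pool.Agent.Lib.MP_bc213e_ag.KBB
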